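import Pool.Agent.H73.Sign

/-!
# Boxes for maps of corank at most one
-/

set_option autoImplicit false
set_option linter.unusedSectionVars false

open Set Filter Topology Metric Function
open scoped Manifold ContDiff

noncomputable section

namespace Pool.Agent.H73

open Pool.Agent.Y522

variable {m : ℕ}

theorem norm_e0 : ‖(e0 : E (m + 1))‖ = 1 := by
  have h := norm_cn_sq (m := m) 1 0
  rw [norm_zero] at h
  unfold e0
  have h1 : (0 : ℝ) ≤ ‖(cn 1 0 : E (m + 1))‖ := norm_nonneg _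
  nlinarith

theorem e0_zero : (e0 : E (m + 1)) 0 = 1 := by
  unfold e0
  rw [cn_zero]

theorem tl_e0 : (tl (e0 : E (m + 1)) : E m) = 0 := by
  unfold e0
  rw [tl_cn]

section linear

variable {M N : E (m + 1) →L[ℝ] E (m + 1)}

/-- the first coordinate of a linear map -/
def hd (M : E (m + 1) →L[ℝ] E (m + 1)) : E (m + 1) →L[ℝ] ℝ :=
  (EuclideanSpace.proj 0 : E (m + 1) →L[ℝ] ℝ).comp M

theorem hd_apply (M : E (m + 1) →L[ℝ] E (m + 1)) (v : E (m + 1)) : hd M v = (M v) 0 := rfl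

theorem eq_cn (hM : ∀ v, (tl (M v) : E m) = tl v) (v : E (m + 1)) : M v = cn ((M v) 0) (tl v) := by
  rw [← hM v, cn_tl]

theorem det_of_tl (hM : ∀ v, (tl (M v) : E m) = tl v) : M.det = (M e0) 0 :=
  Pool.Agent.Q131.FT.det_cn (hd M : E (m + 1) →ₗ[ℝ] ℝ) (M : E (m + 1) →ₗ[ℝ] E (m + 1))
    (fun v => eq_cn hM v)

theorem dd_e0 (hM : ∀ v, (tl (M v) : E m) = tl v) (φ : E (m + 1) →L[ℝ] ℝ) :
    dd M (φ.smulRight e0) = φ e0 := by
  apply dd_eq_of_hasDerivAt
  have h1 : (fun s : ℝ => (M + s • φ.smulRight e0).det) = fun s => (M e0) 0 + s * φ e0 := by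
    funext s
    rw [det_of_tl (M := M + s • φ.smulRight e0) (fun v => ?_)]
    · simp [e0_zero]
    · change (tl (M v + s • φ v • e0) : E m) = tl v
      rw [map_add, map_smul, map_smul, tl_e0, smul_zero, smul_zero, add_zero, hM]
  rw [h1]
  simpa using ((hasDerivAt_id (0 : ℝ)).mul_const (φ e0)).const_add ((M e0) 0)

/-- the variation of the determinant at a singular map over `tl` -/
theorem dd_sing (hM : ∀ v, (tl (M v) : E m) = tl v) (h0 : (M e0) 0 = 0)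
    (N : E (m + 1) →L[ℝ] E (m + 1)) :
    dd M N = (N e0) 0 - (M (cn 0 (tl (N e0)))) 0 := by
  -- the shear
  obtain ⟨T, hT⟩ : ∃ T : E (m + 1) →L[ℝ] E (m + 1), T = ContinuousLinearMap.id ℝ (E (m + 1)) -
      ((hd M).comp (inc.comp tl)).smulRight e0 := ⟨_, rfl⟩
  have hTa : ∀ v, T v = v - ((M (cn 0 (tl v))) 0) • e0 := fun v => by
    rw [hT]
    rfl
  have hTtl : ∀ v, (tl (T v) : E m) = tl v := by
    intro v
    rw [hTa, map_sub, map_smul, tl_e0, smul_zero, sub_zero]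
  have hTd : T.det = 1 := by
    rw [det_of_tl hTtl, hTa, tl_e0]
    have h1 : (cn 0 (0 : E m) : E (m + 1)) = 0 := by
      ext i
      refine Fin.cases ?_ (fun i => ?_) i <;> simp
    rw [h1]
    simp [e0_zero]
  have hTM : ∀ v, T (M v) = cn 0 (tl v) := by
    intro v
    rw [hTa, hM]
    have h1 : v = (v 0) • e0 + cn 0 (tl v) := by
      rw [← cn_eq, cn_tl]
    have h2 : (M v) 0 = (M (cn 0 (tl v))) 0 := by
      conv_lhs => rw [h1]
      rw [map_add, map_smul]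
      simp [h0]
    have h3 := eq_cn hM v
    rw [h3, h2, cn_eq]
    abel
  -- the projection
  have key : ∀ (P N' : E (m + 1) →L[ℝ] E (m + 1)), (∀ v, P v = cn 0 (tl v)) →
      dd P N' = (N' e0) 0 := by
    intro P N' hP
    have hPtl : ∀ v, (tl (P v) : E m) = tl v := fun v => by rw [hP, tl_cn]
    have h1 : N' = (hd N').smulRight e0 + (inc.comp (tl.comp N')) := by
      ext1 v
      change N' v = ((N' v) 0) • e0 + cn 0 (tl (N' v))
      rw [← cn_eq, cn_tl]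
    have h2 : dd P (inc.comp (tl.comp N')) = 0 := by
      apply dd_eq_of_hasDerivAt
      have h3 : (fun s : ℝ => (P + s • (inc.comp (tl.comp N'))).det) = fun _ => 0 := by
        funext s
        by_contra hne
        have h4 : ∀ v, ((P + s • (inc.comp (tl.comp N'))) v) 0 = 0 := by
          intro v
          change (P v + s • (cn 0 (tl (N' v)) : E (m + 1))) 0 = 0
          rw [hP]
          simp
        have h5 : Function.Surjective
            ((P + s • (inc.comp (tl.comp N')) : E (m + 1) →L[ℝ] E (m + 1)) :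
              E (m + 1) →ₗ[ℝ] E (m + 1)) := by
          have h6 : IsUnit (LinearMap.det
            ((P + s • (inc.comp (tl.comp N')) : E (m + 1) →L[ℝ] E (m + 1)) :
              E (m + 1) →ₗ[ℝ] E (m + 1))) := isUnit_iff_ne_zero.2 hne
          exact (LinearEquiv.ofIsUnitDet (v := (EuclideanSpace.basisFun (Fin (m + 1)) ℝ).toBasis)
            (v' := (EuclideanSpace.basisFun (Fin (m + 1)) ℝ).toBasis)
            (f := ((P + s • (inc.comp (tl.comp N')) : E (m + 1) →L[ℝ] E (m + 1)) :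
              E (m + 1) →ₗ[ℝ] E (m + 1))) (by rwa [LinearMap.det_toMatrix])).surjective
        obtain ⟨v, hv⟩ := h5 e0
        have h7 := h4 v
        have h8 : (P + s • (inc.comp (tl.comp N'))) v = e0 := hv
        rw [h8, e0_zero] at h7
        exact one_ne_zero h7
      rw [h3]
      exact hasDerivAt_const 0 0
    rw [h1, dd_add, h2, add_zero, dd_e0 hPtl, hd_apply, ← h1]
  have h1 : dd M N = dd (T.comp M) (T.comp N) := by
    rw [dd_comp_left, hTd, one_mul]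
  rw [h1, key (T.comp M) (T.comp N) (fun v => hTM v)]
  change (T (N e0)) 0 = _
  rw [hTa]
  simp [e0_zero]

end linear

section box

variable {X Y : Type} [TopologicalSpace X] [ChartedSpace (E (m + 1)) X]
  [TopologicalSpace Y] [ChartedSpace (E (m + 1)) Y] [IsManifold (𝓡 (m + 1)) ∞ X]
  [IsManifold (𝓡 (m + 1)) ∞ Y]

/-- a chart `B` on the open set `O` -/
structure ChO (B : Y → E (m + 1)) (O : Set Y) : Prop where
  op : IsOpen O
  ld : ∀ y ∈ O, LD (m + 1) B y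
  inj : InjOn B O

/-- boxes: the map is `(g, z)` in coordinates `(t, z)` -/
structure Box (f : X → Y) (σ : X → ℝ) (B : Y → E (m + 1)) (O : Set Y) (A : E (m + 1) → X)
    (w₀ : E (m + 1)) (r : ℝ) : Prop where
  r0 : 0 < r
  ld : ∀ w ∈ ball w₀ r, LD (m + 1) A w
  inj : InjOn A (ball w₀ r)
  mem : ∀ w ∈ ball w₀ r, f (A w) ∈ O
  tle : ∀ w ∈ ball w₀ r, (tl (B (f (A w))) : E m) = tl w
  pos : ∀ w ∈ ball w₀ r, 0 < sg f σ A B w

theorem exists_chO (y : Y) {B : Y → E (m + 1)} (hB : LD (m + 1) B y) {O' : Set Y}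
    (hO' : O' ∈ 𝓝 y) : ∃ O, ChO B O ∧ y ∈ O ∧ O ⊆ O' := by
  obtain ⟨u, hu, hinj⟩ := hB.eventually_injOn
  refine ⟨interior {z | z ∈ u ∧ LD (m + 1) B z ∧ z ∈ O'}, ⟨isOpen_interior, ?_, ?_⟩, ?_, ?_⟩
  · intro z hz
    exact (interior_subset hz : z ∈ {z | z ∈ u ∧ LD (m + 1) B z ∧ z ∈ O'}).2.1
  · intro a ha b hb hab
    exact hinj (interior_subset ha : a ∈ {z | z ∈ u ∧ LD (m + 1) B z ∧ z ∈ O'}).1
      (interior_subset hb : b ∈ {z | z ∈ u ∧ LD (m + 1) B z ∧ z ∈ O'}).1 hab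
  · rw [mem_interior_iff_mem_nhds]
    filter_upwards [hu, hB.eventually, hO'] with z a b c
    exact ⟨a, b, c⟩
  · intro z hz
    exact (interior_subset hz : z ∈ {z | z ∈ u ∧ LD (m + 1) B z ∧ z ∈ O'}).2.2

theorem ChO.comp {B : Y → E (m + 1)} {O : Set Y} (h : ChO B O)
    (T : E (m + 1) ≃L[ℝ] E (m + 1)) : ChO (fun y => T (B y)) O :=
  ⟨h.op, fun y hy => LD.comp_fun (LD_linear T _) (h.ld y hy),
    fun a ha b hb hab => h.inj ha hb (T.injective hab)⟩

/-- existence of boxes -/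
theorem exists_box {f : X → Y} {σ : X → ℝ} (hf : ContMDiff (𝓡 (m + 1)) (𝓡 (m + 1)) ∞ f)
    (hσ : Sgn (n := m + 1) f σ) {B : Y → E (m + 1)} {O : Set Y} (hB : ChO B O) {x : X}
    (hx : f x ∈ O) (hs : Surjective (tl.comp (Df B (f x) * Df f x) : E (m + 1) →L[ℝ] E m)) :
    ∃ (A : E (m + 1) → X) (w₀ : E (m + 1)) (r : ℝ), A w₀ = x ∧ Box f σ B O A w₀ r := by
  obtain ⟨A₀, w₁, hA₀, hA₀L⟩ := exists_param (n := m + 1) x
  subst hA₀
  have hBx : LD (m + 1) B (f (A₀ w₁)) := hB.ld _ hx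
  obtain ⟨G, hG⟩ : ∃ G : E (m + 1) → E (m + 1), G = fun w => B (f (A₀ w)) := ⟨_, rfl⟩
  have hGd : fderiv ℝ G w₁ = Df B (f (A₀ w₁)) * Df f (A₀ w₁) * Df A₀ w₁ := by
    rw [hG]
    exact fderiv_coord hf hA₀L hBx
  have hLDB : ∀ᶠ w in 𝓝 w₁, LD (m + 1) B (f (A₀ w)) :=
    (hf.continuous.continuousAt.comp hA₀L.continuousAt).eventually hBx.eventually
  have hGs : ∀ᶠ w in 𝓝 w₁, ContDiffAt ℝ ∞ G w := by
    filter_upwards [hA₀L.eventually, hLDB] with w a b
    rw [hG]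
    exact smooth_coord hf a b
  have hsurj : Surjective (tl.comp (fderiv ℝ G w₁) : E (m + 1) →L[ℝ] E m) := by
    intro z
    obtain ⟨v, hv⟩ := hs z
    obtain ⟨L, -, hL⟩ := Df_isUnit hA₀L
    refine ⟨L v, ?_⟩
    rw [hGd]
    have h1 : Df A₀ w₁ (L v) = v := by
      have h2 := congrArg (fun M : E (m + 1) →L[ℝ] E (m + 1) => M v) hL
      exact h2
    change tl (Df B (f (A₀ w₁)) (Df f (A₀ w₁) (Df A₀ w₁ (L v)))) = z
    rw [h1]
    exact hv
  obtain ⟨l, hl⟩ := Pool.Agent.Q131.FT.exists_compl _ hsurj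
  obtain ⟨Ψ, hΨd⟩ : ∃ Ψ : E (m + 1) → E (m + 1), Ψ = fun z => cn (l z) (tl (G z)) := ⟨_, rfl⟩
  have hΨdiff : ∀ z, DifferentiableAt ℝ G z →
      HasFDerivAt Ψ (Pool.Agent.Q131.FT.pair l (tl.comp (fderiv ℝ G z))) z := by
    intro z hz
    rw [hΨd]
    have h1 : HasFDerivAt (fun z => (l z, (tl (G z) : E m))) (l.prod (tl.comp (fderiv ℝ G z))) z :=
      l.hasFDerivAt.prodMk ((tl : E (m + 1) →L[ℝ] E m).hasFDerivAt.comp z hz.hasFDerivAt)
    exact ((Pool.Agent.Y434.CI.el m : (ℝ × E m) →L[ℝ] E (m + 1)).hasFDerivAt).comp z h1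
  have hΨs : ∀ᶠ z in 𝓝 w₁, ContDiffAt ℝ ∞ Ψ z := by
    filter_upwards [hGs] with z hz
    rw [hΨd]
    have h1 : ContDiffAt ℝ ∞ (fun z => (l z, (tl (G z) : E m))) z :=
      l.contDiff.contDiffAt.prodMk ((tl : E (m + 1) →L[ℝ] E m).contDiff.contDiffAt.comp z hz)
    exact (Pool.Agent.Y434.CI.contDiff_cn (k := m)).contDiffAt.comp z h1
  have hΨL : LD (m + 1) Ψ w₁ := by
    apply Pool.Agent.Y207.SH3.LD_of_pos hΨs
    intro u hu h0
    rw [(hΨdiff w₁ (hGs.self_of_nhds.differentiableAt (by simp))).fderiv] at h0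
    have h1 := Pool.Agent.Q131.FT.pair_inj hl h0
    rw [h1, norm_zero] at hu
    exact zero_ne_one hu
  obtain ⟨a, ha1, ha2, ha3, ha4⟩ := hΨL.exists_inverse
  -- the parametrization without the sign
  have hA₁ : LD (m + 1) (fun w => A₀ (a w)) (Ψ w₁) := LD.comp_fun (by rw [ha2]; exact hA₀L) ha1
  have hA₁x : A₀ (a (Ψ w₁)) = A₀ w₁ := by rw [ha2]
  have htl : ∀ᶠ w in 𝓝 (Ψ w₁), (tl (B (f (A₀ (a w)))) : E m) = tl w := by
    filter_upwards [ha4] with w hw
    have h1 : (tl (Ψ (a w)) : E m) = tl (G (a w)) := by rw [hΨd, tl_cn]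
    rw [hw, hG] at h1
    exact h1.symm
  have fin : ∀ (A : E (m + 1) → X) (w₀ : E (m + 1)), A w₀ = A₀ w₁ → LD (m + 1) A w₀ →
      0 < sg f σ A B w₀ → (∀ᶠ w in 𝓝 w₀, (tl (B (f (A w))) : E m) = tl w) →
      ∃ (A : E (m + 1) → X) (w₀ : E (m + 1)) (r : ℝ), A w₀ = A₀ w₁ ∧ Box f σ B O A w₀ r := by
    intro A w₀ e1 e2 e3 e4
    obtain ⟨u, hu, hinj⟩ := e2.eventually_injOn
    have hfc : ContinuousAt (fun w => f (A w)) w₀ :=
      hf.continuous.continuousAt.comp e2.continuousAt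
    have hO : ∀ᶠ w in 𝓝 w₀, f (A w) ∈ O := hfc (hB.op.mem_nhds (by
      change f (A w₀) ∈ O
      rw [e1]
      exact hx))
    have h1 : ∀ᶠ w in 𝓝 w₀, LD (m + 1) A w ∧ w ∈ u ∧ f (A w) ∈ O ∧
        (tl (B (f (A w))) : E m) = tl w ∧ 0 < sg f σ A B w := by
      filter_upwards [e2.eventually, hu, hO, e4,
        hσ.cont A B w₀ e2 (by rw [e1]; exact hBx) e3] with w a b c d e
      exact ⟨a, b, c, d, e⟩
    obtain ⟨r, hr, hball⟩ := Metric.eventually_nhds_iff_ball.1 h1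
    exact ⟨A, w₀, r, e1, hr, fun w hw => (hball w hw).1,
      hinj.mono fun w hw => (hball w hw).2.1, fun w hw => (hball w hw).2.2.1,
      fun w hw => (hball w hw).2.2.2.1, fun w hw => (hball w hw).2.2.2.2⟩
  rcases exists_orient (f := f) (σ := σ) hA₁ (hσ.ne _) (B := B) (by rw [hA₁x]; exact hBx)
    with h | ⟨h1, h2⟩
  · exact fin (fun w => A₀ (a w)) (Ψ w₁) hA₁x hA₁ h htl
  · refine fin (fun w => A₀ (a (rfl0 w))) (rfl0 (Ψ w₁)) (by rw [rfl0_rfl0]; exact hA₁x) h1 h2 ?_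
    have h3 : ContinuousAt (fun w : E (m + 1) => rfl0 w) (rfl0 (Ψ w₁)) :=
      (rfl0 : E (m + 1) ≃L[ℝ] E (m + 1)).continuous.continuousAt
    have h4 := h3.tendsto
    rw [rfl0_rfl0] at h4
    filter_upwards [h4.eventually htl] with w hw
    rw [hw, rfl0_apply, tl_cn]

/-- linear coordinates adapted to a point -/
theorem exists_lin {f : X → Y} {B : Y → E (m + 1)} {x : X} (hB : LD (m + 1) B (f x))
    (hrk : m ≤ Module.finrank ℝ (LinearMap.range (Df (n := m + 1) f x).toLinearMap)) :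
    ∃ T : E (m + 1) ≃L[ℝ] E (m + 1), Surjective
      (tl.comp (Df (n := m + 1) (fun y => T (B y)) (f x) * Df f x) : E (m + 1) →L[ℝ] E m) := by
  have hBi : Injective (Df (n := m + 1) B (f x)) := by
    obtain ⟨L, hL, -⟩ := Df_isUnit hB
    intro a b hab
    have h2 : ∀ v, L (Df B (f x) v) = v := fun v =>
      congrArg (fun M : E (m + 1) →L[ℝ] E (m + 1) => M v) hL
    rw [← h2 a, ← h2 b, hab]
  have hrk' : m ≤ Module.finrank ℝ
      (LinearMap.range (Df B (f x) * Df f x : E (m + 1) →L[ℝ] E (m + 1)).toLinearMap) :=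
    Pool.Agent.Q131.FT.rank_lin (ContinuousLinearMap.id ℝ _) (Df f x) (Df B (f x))
      (fun _ _ h => h) hBi hrk
  obtain ⟨P, hP⟩ := Pool.Agent.Y170.NA.exists_proj _ hrk'
  have hPs : Surjective P := fun y => by
    obtain ⟨w, -, hw⟩ := hP y
    exact ⟨w, hw⟩
  obtain ⟨Q, hQ⟩ := Pool.Agent.Q131.FT.exists_compl P hPs
  have hTi : Injective (Pool.Agent.Q131.FT.pair Q P) := by
    rw [injective_iff_map_eq_zero]
    intro v hv
    exact Pool.Agent.Q131.FT.pair_inj hQ hv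
  let T : E (m + 1) ≃L[ℝ] E (m + 1) := (LinearEquiv.ofInjectiveEndo
    (Pool.Agent.Q131.FT.pair Q P : E (m + 1) →ₗ[ℝ] E (m + 1)) hTi).toContinuousLinearEquiv
  have hT : ∀ v, T v = cn (Q v) (P v) := fun v => rfl
  refine ⟨T, ?_⟩
  intro y
  obtain ⟨w, ⟨v, hv⟩, hw⟩ := hP y
  refine ⟨v, ?_⟩
  have h1 : Df (n := m + 1) (fun y => T (B y)) (f x) =
      (↑T : E (m + 1) →L[ℝ] E (m + 1)) * Df B (f x) := by
    rw [Df_comp (LD.mdiff (LD_linear T _)) (LD.mdiff hB), Df_eq_fderiv]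
    congr 1
    exact T.fderiv
  rw [h1]
  change tl (T (Df B (f x) (Df f x v))) = y
  rw [hT, tl_cn, ← hw, ← hv]
  rfl

end box

end Pool.Agent.H73
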