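import Pool.Graph.R_pool_sql_team_seeded_2aa45f1a.Q131.FT.Main

/-!
# The first variation of the determinant
-/

set_option autoImplicit false

open Set Filter Topology Metric Function
open scoped Manifold ContDiff

noncomputable section

namespace Pool.Agent.H73

open Pool.Agent.Y522

variable {n : ℕ}

theorem contDiff_det : ContDiff ℝ ∞ (fun L : E n →L[ℝ] E n => L.det) := by
  let b := (EuclideanSpace.basisFun (Fin n) ℝ).toBasis
  have h : (fun L : E n →L[ℝ] E n => L.det) = fun L : E n →L[ℝ] E n =>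
      ∑ σ : Equiv.Perm (Fin n), (Equiv.Perm.sign σ : ℤ) • ∏ i, (L (b i)) (σ i) := by
    funext L
    change LinearMap.det (L : E n →ₗ[ℝ] E n) = _
    rw [← LinearMap.det_toMatrix b, Matrix.det_apply]
    refine Finset.sum_congr rfl fun σ _ => ?_
    congr 1
    refine Finset.prod_congr rfl fun i _ => ?_
    rw [LinearMap.toMatrix_apply]
    simp [b]
  rw [h]
  refine ContDiff.sum fun σ _ => ?_
  refine ContDiff.const_smul _ ?_
  refine contDiff_prod fun i _ => ?_
  have h1 : ContDiff ℝ ∞ fun L : E n →L[ℝ] E n => L (b i) := by fun_prop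
  have h2 : ContDiff ℝ ∞ fun v : E n => v (σ i) := by fun_prop
  exact h2.comp h1

/-- the first variation of the determinant at `M` in the direction `N` -/
def dd (M N : E n →L[ℝ] E n) : ℝ := fderiv ℝ (fun L : E n →L[ℝ] E n => L.det) M N

theorem hasDerivAt_det (M N : E n →L[ℝ] E n) (t : ℝ) :
    HasDerivAt (fun s : ℝ => (M + s • N).det) (dd (M + t • N) N) t := by
  have h1 : HasFDerivAt (fun L : E n →L[ℝ] E n => L.det)
      (fderiv ℝ (fun L : E n →L[ℝ] E n => L.det) (M + t • N)) (M + t • N) :=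
    (contDiff_det.differentiable (by simp) _).hasFDerivAt
  have h2 : HasDerivAt (fun s : ℝ => M + s • N) N t := by
    simpa using ((hasDerivAt_id t).smul_const N).const_add M
  exact h1.comp_hasDerivAt t h2

theorem add_zero_smul (M N : E n →L[ℝ] E n) : M + (0 : ℝ) • N = M := by
  ext v
  simp

theorem dd_eq_of_hasDerivAt {M N : E n →L[ℝ] E n} {d : ℝ}
    (h : HasDerivAt (fun s : ℝ => (M + s • N).det) d 0) : dd M N = d := by
  have h1 := hasDerivAt_det M N 0
  rw [add_zero_smul] at h1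
  exact h1.unique h

theorem dd_add (M N N' : E n →L[ℝ] E n) : dd M (N + N') = dd M N + dd M N' := by
  unfold dd
  rw [map_add]

theorem dd_smul (M N : E n →L[ℝ] E n) (c : ℝ) : dd M (c • N) = c * dd M N := by
  unfold dd
  rw [map_smul, smul_eq_mul]

theorem continuous_dd : Continuous fun p : (E n →L[ℝ] E n) × (E n →L[ℝ] E n) => dd p.1 p.2 := by
  unfold dd
  have h1 : Continuous fun p : (E n →L[ℝ] E n) × (E n →L[ℝ] E n) =>
      fderiv ℝ (fun L : E n →L[ℝ] E n => L.det) p.1 :=
    (contDiff_det.continuous_fderiv (by simp)).comp continuous_fst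
  exact h1.clm_apply continuous_snd

theorem det_mul (A B : E n →L[ℝ] E n) : (A.comp B).det = A.det * B.det :=
  LinearMap.det_comp (A : E n →ₗ[ℝ] E n) (B : E n →ₗ[ℝ] E n)

theorem dd_comp_left (T M N : E n →L[ℝ] E n) : dd (T.comp M) (T.comp N) = T.det * dd M N := by
  apply dd_eq_of_hasDerivAt
  have h1 := (hasDerivAt_det M N 0).const_mul T.det
  rw [add_zero_smul] at h1
  refine h1.congr_of_eventuallyEq (Eventually.of_forall fun s => ?_)
  change (T.comp M + s • T.comp N).det = T.det * (M + s • N).det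
  rw [← det_mul]
  congr 1
  ext v
  simp

theorem dd_comp_right (τ M N : E n →L[ℝ] E n) : dd (M.comp τ) (N.comp τ) = dd M N * τ.det := by
  apply dd_eq_of_hasDerivAt
  have h1 := (hasDerivAt_det M N 0).mul_const τ.det
  rw [add_zero_smul] at h1
  refine h1.congr_of_eventuallyEq (Eventually.of_forall fun s => ?_)
  change (M.comp τ + s • N.comp τ).det = (M + s • N).det * τ.det
  rw [← det_mul]
  congr 1

theorem dd_rank_one (M Γ : E n →L[ℝ] E n) (hM : M.det = 0) : dd M (Γ.comp M) = 0 := by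
  apply dd_eq_of_hasDerivAt
  have h1 : (fun s : ℝ => (M + s • Γ.comp M).det) = fun _ => 0 := by
    funext s
    have h2 : M + s • Γ.comp M = (ContinuousLinearMap.id ℝ (E n) + s • Γ).comp M := by
      ext v
      simp
    rw [h2, det_mul, hM, mul_zero]
  rw [h1]
  exact hasDerivAt_const 0 0

/-- small positive perturbations in directions of positive variation -/
theorem eventually_det_pos {M N : E n →L[ℝ] E n} (h : 0 < dd M N) :
    ∀ᶠ p : ℝ × (E n →L[ℝ] E n) × (E n →L[ℝ] E n) in 𝓝 (0, M, N), 0 < p.1 → 0 ≤ p.2.1.det →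
      0 < (p.2.1 + p.1 • p.2.2).det := by
  have h1 : Continuous fun p : ℝ × (E n →L[ℝ] E n) × (E n →L[ℝ] E n) =>
      dd (p.2.1 + p.1 • p.2.2) p.2.2 :=
    continuous_dd.comp (f := fun p : ℝ × (E n →L[ℝ] E n) × (E n →L[ℝ] E n) =>
      (p.2.1 + p.1 • p.2.2, p.2.2))
      ((continuous_snd.fst.add (continuous_fst.smul continuous_snd.snd)).prodMk
        continuous_snd.snd)
  have h2 : ∀ᶠ p : ℝ × (E n →L[ℝ] E n) × (E n →L[ℝ] E n) in 𝓝 (0, M, N),
      0 < dd (p.2.1 + p.1 • p.2.2) p.2.2 := by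
    refine h1.continuousAt.eventually (lt_mem_nhds ?_)
    change 0 < dd (M + (0 : ℝ) • N) N
    rwa [add_zero_smul]
  rw [nhds_prod_eq] at h2
  obtain ⟨pa, hpa, pb, hpb, hab⟩ := eventually_prod_iff.1 h2
  obtain ⟨r, hr, hball⟩ := Metric.eventually_nhds_iff_ball.1 hpa
  rw [nhds_prod_eq]
  refine eventually_prod_iff.2 ⟨fun t => t ∈ ball (0 : ℝ) r, ball_mem_nhds 0 hr, pb, hpb, ?_⟩
  intro t ht q hq ht0 hdet
  have hd : ∀ s ∈ Icc (0 : ℝ) t, 0 < dd (q.1 + s • q.2) q.2 := by
    intro s hs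
    refine hab (x := s) (hball s ?_) (y := q) hq
    rw [mem_ball_zero_iff, Real.norm_eq_abs, abs_lt] at ht ⊢
    constructor <;> linarith [hs.1, hs.2, ht.1, ht.2]
  have hmono : StrictMonoOn (fun s : ℝ => (q.1 + s • q.2).det) (Icc 0 t) := by
    refine strictMonoOn_of_deriv_pos (convex_Icc 0 t) ?_ ?_
    · intro s _
      exact (hasDerivAt_det q.1 q.2 s).continuousAt.continuousWithinAt
    · intro s hs
      rw [interior_Icc] at hs
      rw [(hasDerivAt_det q.1 q.2 s).deriv]
      exact hd s (Ioo_subset_Icc_self hs)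
  have h3 := hmono (left_mem_Icc.2 ht0.le) (right_mem_Icc.2 ht0.le) ht0
  simp only [add_zero_smul] at h3
  exact hdet.trans_lt h3

end Pool.Agent.H73
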