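import Mathlib

/-!
# Monotone functions on compact spaces which are covered by oriented lines
-/

set_option autoImplicit false

open Set Filter Topology

namespace Pool.Agent.H73

variable {X : Type*} [TopologicalSpace X] {ι : Type*}

/-- a set which contains with a point of a line all later points of the line -/
def FI (c : ι → ℝ → X) (J : ι → Set ℝ) (K : Set X) : Prop :=
  ∀ i, ∀ s ∈ J i, ∀ t ∈ J i, s ≤ t → c i s ∈ K → c i t ∈ K

/-- **Monotone functions along oriented lines on compact spaces are constant along the lines.** -/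
theorem const_on_lines [T2Space X] {C : Set X} (hC : IsCompact C) (c : ι → ℝ → X) (J : ι → Set ℝ)
    (hJo : ∀ i, IsOpen (J i)) (hJc : ∀ i, (J i).OrdConnected)
    (hcc : ∀ i, ContinuousOn (c i) (J i)) (hinj : ∀ i, InjOn (c i) (J i))
    (hsub : ∀ i, ∀ t ∈ J i, c i t ∈ C)
    (hopen : ∀ i (U : Set ℝ), IsOpen U → ∃ O : Set X, IsOpen O ∧
      ∀ x ∈ C, (x ∈ O ↔ ∃ t ∈ J i, t ∈ U ∧ c i t = x))
    (hcov : ∀ x ∈ C, ∃ i, ∃ t ∈ J i, c i t = x)
    (hcoh : ∀ i j, ∀ s ∈ J i, ∀ u ∈ J j, c i s = c j u →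
      ∀ᶠ s' in 𝓝[<] s, ∃ u' ∈ J j, u' < u ∧ c j u' = c i s')
    (h : X → ℝ) (hh : ContinuousOn h C) (hmono : ∀ i, MonotoneOn (fun t => h (c i t)) (J i)) :
    ∀ i, ∀ s ∈ J i, ∀ t ∈ J i, h (c i s) = h (c i t) := by
  obtain ⟨S, hS⟩ : ∃ S : Set (Set X), S = {K | IsClosed K ∧ K ⊆ C ∧ K.Nonempty ∧ FI c J K} :=
    ⟨_, rfl⟩
  have hSm : ∀ K, K ∈ S ↔ IsClosed K ∧ K ⊆ C ∧ K.Nonempty ∧ FI c J K := fun K => by
    rw [hS]
    rfl
  -- minimal sets exist
  have hmin : ∀ K₀ ∈ S, ∃ K, K ⊆ K₀ ∧ Minimal (· ∈ S) K := by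
    intro K₀ hK₀
    refine zorn_superset_nonempty S ?_ K₀ hK₀
    intro F hF hchain hne
    refine ⟨⋂₀ F, (hSm _).2 ⟨?_, ?_, ?_, ?_⟩, fun s hs => sInter_subset_of_mem hs⟩
    · exact isClosed_sInter fun K hK => ((hSm K).1 (hF hK)).1
    · obtain ⟨K, hK⟩ := hne
      exact (sInter_subset_of_mem hK).trans ((hSm K).1 (hF hK)).2.1
    · have : Nonempty F := hne.to_subtype
      refine IsCompact.nonempty_sInter_of_directed_nonempty_isCompact_isClosed (S := F)
        ?_ ?_ ?_ ?_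
      · intro a ha b hb
        rcases hchain.total ha hb with h1 | h1
        · exact ⟨a, ha, Subset.rfl, h1⟩
        · exact ⟨b, hb, h1, Subset.rfl⟩
      · exact fun K hK => ((hSm K).1 (hF hK)).2.2.1
      · exact fun K hK => hC.of_isClosed_subset ((hSm K).1 (hF hK)).1 ((hSm K).1 (hF hK)).2.1
      · exact fun K hK => ((hSm K).1 (hF hK)).1
    · intro i s hs t ht hst hK K hKF
      exact ((hSm K).1 (hF hKF)).2.2.2 i s hs t ht hst (hK K hKF)
  -- minimal sets are open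
  have hopenK : ∀ K, Minimal (· ∈ S) K → ∀ p ∈ K, ∃ O, IsOpen O ∧ p ∈ O ∧
      ∀ x ∈ C, x ∈ O → x ∈ K := by
    intro K hK p hp
    obtain ⟨hK1, hK2, hK3, hK4⟩ := (hSm K).1 hK.prop
    obtain ⟨i, s, hs, rfl⟩ := hcov p (hK2 hp)
    by_cases hL : ∃ u ∈ J i, u < s ∧ c i u ∈ K
    · obtain ⟨u, hu, hus, huK⟩ := hL
      obtain ⟨O, hO, hOC⟩ := hopen i (Ioi u) isOpen_Ioi
      refine ⟨O, hO, (hOC _ (hK2 hp)).2 ⟨s, hs, hus, rfl⟩, fun x hx hxO => ?_⟩
      obtain ⟨t, ht, hut, rfl⟩ := (hOC x hx).1 hxO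
      exact hK4 i u hu t ht (le_of_lt hut) huK
    · exfalso
      have hL' : ∀ u ∈ J i, c i u ∈ K → s ≤ u := by
        intro u hu huK
        by_contra hlt
        exact hL ⟨u, hu, not_le.1 hlt, huK⟩
      obtain ⟨s₁, hs₁, hss₁⟩ : ∃ s₁ ∈ J i, s < s₁ := by
        obtain ⟨l, u, hlu, hsub'⟩ := mem_nhds_iff_exists_Ioo_subset.1 ((hJo i).mem_nhds hs)
        obtain ⟨s₁, h1, h2⟩ := exists_between hlu.2
        exact ⟨s₁, hsub' ⟨hlu.1.trans h1, h2⟩, h1⟩
      obtain ⟨W, hW, hWC⟩ := hopen i (Iio s₁) isOpen_Iio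
      have hK' : K \ W ∈ S := by
        refine (hSm _).2 ⟨hK1.sdiff hW, sdiff_subset.trans hK2, ?_, ?_⟩
        · refine ⟨c i s₁, hK4 i s hs s₁ hs₁ hss₁.le hp, fun hW' => ?_⟩
          obtain ⟨t, ht, hts, hte⟩ := (hWC _ (hsub i s₁ hs₁)).1 hW'
          have h1 := hinj i ht hs₁ hte
          rw [h1] at hts
          exact lt_irrefl s₁ hts
        · intro j v hv v' hv' hvv' hvK
          have hv'K : c j v' ∈ K := hK4 j v hv v' hv' hvv' hvK.1
          refine ⟨hv'K, fun hv'W => ?_⟩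
          obtain ⟨u', hu', hu's, hu'e⟩ := (hWC _ (hK2 hv'K)).1 hv'W
          have hsu' : s ≤ u' := hL' u' hu' (by rw [hu'e]; exact hv'K)
          have hJsu : Icc s u' ⊆ J i := (hJc i).out hs hu'
          have hJvv : Icc v v' ⊆ J j := (hJc j).out hv hv'
          have hQ : IsClosed (c i '' Icc s u') :=
            (isCompact_Icc.image_of_continuousOn ((hcc i).mono hJsu)).isClosed
          have hneg : ContinuousOn (fun y : ℝ => c j (-y)) (Icc (-v') (-v)) := by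
            refine (hcc j).comp continuous_neg.continuousOn fun y hy => hJvv ?_
            constructor
            · linarith [hy.2]
            · linarith [hy.1]
          have hT : IsClosed ({y : ℝ | c j (-y) ∈ c i '' Icc s u'} ∩ Icc (-v') (-v)) := by
            have := hneg.preimage_isClosed_of_isClosed isClosed_Icc hQ
            rwa [inter_comm]
          have hend := hT.mem_of_ge_of_forall_exists_gt (a := -v') (b := -v)
            (by
              change c j (- -v') ∈ c i '' Icc s u'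
              rw [neg_neg]
              exact ⟨u', ⟨hsu', le_rfl⟩, hu'e⟩)
            (by linarith)
            (by
              rintro x ⟨hx1, hx2⟩
              obtain ⟨u, hu, hue⟩ := hx1
              have hxJ : -x ∈ J j := hJvv ⟨by linarith [hx2.2], by linarith [hx2.1]⟩
              have h1 := hcoh j i (-x) hxJ u (hJsu hu) hue.symm
              have h2 : Ioo v (-x) ∈ 𝓝[<] (-x) := Ioo_mem_nhdsLT (by linarith [hx2.2])
              obtain ⟨y', ⟨u'', hu'', hu''u, hu''e⟩, hy'⟩ := (h1.and h2).exists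
              have hy'J : y' ∈ J j := hJvv ⟨hy'.1.le, by linarith [hy'.2, hx2.1]⟩
              have hy'K : c j y' ∈ K := hK4 j v hv y' hy'J hy'.1.le hvK.1
              have h3 : s ≤ u'' := hL' u'' hu'' (by rw [hu''e]; exact hy'K)
              refine ⟨-y', ?_, by constructor <;> linarith [hy'.1, hy'.2]⟩
              change c j (- -y') ∈ c i '' Icc s u'
              rw [neg_neg]
              exact ⟨u'', ⟨h3, by linarith [hu.2]⟩, hu''e⟩)
          change c j (- -v) ∈ c i '' Icc s u' at hend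
          rw [neg_neg] at hend
          obtain ⟨u, hu, hue⟩ := hend
          apply hvK.2
          exact (hWC _ (hK2 hvK.1)).2 ⟨u, hJsu hu, lt_of_le_of_lt hu.2 hu's, hue⟩
      have h1 : K ⊆ K \ W := hK.le_of_le hK' sdiff_subset
      exact (h1 hp).2 ((hWC _ (hK2 hp)).2 ⟨s, hs, hss₁, rfl⟩)
  -- the function is constant on minimal sets
  have hconst : ∀ K, Minimal (· ∈ S) K → ∀ x ∈ K, ∀ y ∈ K, h x = h y := by
    intro K hK
    obtain ⟨hK1, hK2, hK3, hK4⟩ := (hSm K).1 hK.prop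
    obtain ⟨x₀, hx₀, hmax⟩ := (hC.of_isClosed_subset hK1 hK2).exists_isMaxOn hK3 (hh.mono hK2)
    have hK' : K ∩ h ⁻¹' (Ici (h x₀)) ∈ S := by
      refine (hSm _).2 ⟨(hh.mono hK2).preimage_isClosed_of_isClosed hK1 isClosed_Ici,
        inter_subset_left.trans hK2, ⟨x₀, hx₀, le_refl (h x₀)⟩, ?_⟩
      intro i s hs t ht hst hsK
      exact ⟨hK4 i s hs t ht hst hsK.1, (mem_Ici.1 hsK.2).trans (hmono i hs ht hst)⟩
    have h1 : K ⊆ K ∩ h ⁻¹' (Ici (h x₀)) := hK.le_of_le hK' inter_subset_left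
    have h2 : ∀ x ∈ K, h x = h x₀ := fun x hx => le_antisymm (hmax hx) (h1 hx).2
    intro x hx y hy
    rw [h2 x hx, h2 y hy]
  -- lines which meet a minimal set are contained in it
  have hline : ∀ K, Minimal (· ∈ S) K → ∀ i, ∀ s ∈ J i, ∀ t ∈ J i, c i t ∈ K → c i s ∈ K := by
    intro K hK i s hs t ht htK
    obtain ⟨hK1, hK2, hK3, hK4⟩ := (hSm K).1 hK.prop
    obtain ⟨O, hO⟩ : ∃ O : Set X, O = ⋃₀ {O | IsOpen O ∧ ∀ x ∈ C, x ∈ O → x ∈ K} := ⟨_, rfl⟩
    have hOo : IsOpen O := by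
      rw [hO]
      exact isOpen_sUnion fun U hU => hU.1
    have hOK : ∀ x ∈ C, x ∈ O → x ∈ K := by
      intro x hx hxO
      rw [hO] at hxO
      obtain ⟨U, hU, hxU⟩ := hxO
      exact hU.2 x hx hxU
    have hKO : ∀ x ∈ K, x ∈ O := by
      intro x hx
      obtain ⟨U, hU1, hU2, hU3⟩ := hopenK K hK x hx
      rw [hO]
      exact ⟨U, ⟨hU1, hU3⟩, hU2⟩
    have hpre : IsPreconnected (c i '' J i) := (hJc i).isPreconnected.image _ (hcc i)
    by_contra hsK
    obtain ⟨_, ⟨r, hr, rfl⟩, h1, h2⟩ := hpre O Kᶜ hOo hK1.isOpen_compl (by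
      intro x _
      by_cases hx : x ∈ K
      · exact Or.inl (hKO x hx)
      · exact Or.inr hx) ⟨c i t, ⟨t, ht, rfl⟩, hKO _ htK⟩ ⟨c i s, ⟨s, hs, rfl⟩, hsK⟩
    exact h2 (hOK _ (hsub i r hr) h1)
  -- every point is in a minimal set
  have hall : ∀ x ∈ C, ∃ K, Minimal (· ∈ S) K ∧ x ∈ K := by
    by_contra hne
    push Not at hne
    obtain ⟨x₁, hx₁, hx₁K⟩ := hne
    obtain ⟨O, hO⟩ : ∃ O : Set X, O = ⋃₀ {O | IsOpen O ∧ ∃ K, Minimal (· ∈ S) K ∧
        ∀ x ∈ C, x ∈ O → x ∈ K} := ⟨_, rfl⟩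
    have hOo : IsOpen O := by
      rw [hO]
      exact isOpen_sUnion fun U hU => hU.1
    have hOK : ∀ x ∈ C, x ∈ O → ∃ K, Minimal (· ∈ S) K ∧ x ∈ K := by
      intro x hx hxO
      rw [hO] at hxO
      obtain ⟨U, ⟨-, K, hK, hUK⟩, hxU⟩ := hxO
      exact ⟨K, hK, hUK x hx hxU⟩
    have hKO : ∀ K, Minimal (· ∈ S) K → ∀ x ∈ K, x ∈ O := by
      intro K hK x hx
      obtain ⟨U, hU1, hU2, hU3⟩ := hopenK K hK x hx
      rw [hO]
      exact ⟨U, ⟨hU1, K, hK, hU3⟩, hU2⟩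
    have hC' : C \ O ∈ S := by
      refine (hSm _).2 ⟨hC.isClosed.sdiff hOo, sdiff_subset, ⟨x₁, hx₁, fun hx => ?_⟩, ?_⟩
      · obtain ⟨K, hK, hxK⟩ := hOK x₁ hx₁ hx
        exact hx₁K K hK hxK
      · intro i s hs t ht hst hsO
        refine ⟨hsub i t ht, fun htO => hsO.2 ?_⟩
        obtain ⟨K, hK, htK⟩ := hOK _ (hsub i t ht) htO
        exact hKO K hK _ (hline K hK i s hs t ht htK)
    obtain ⟨K, hKC, hK⟩ := hmin _ hC'
    obtain ⟨x, hx⟩ := ((hSm K).1 hK.prop).2.2.1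
    exact (hKC hx).2 (hKO K hK x hx)
  intro i s hs t ht
  obtain ⟨K, hK, hsK⟩ := hall _ (hsub i s hs)
  exact hconst K hK _ hsK _ (hline K hK i t ht s hs hsK)

end Pool.Agent.H73
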