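import Pool.Agent.H73.Fibre
import Pool.Agent.H73.Lines

/-!
# Bad points: the set is closed; rigidity along lines
-/

set_option autoImplicit false
set_option linter.unusedSectionVars false

open Set Filter Topology Metric Function
open scoped Manifold ContDiff

noncomputable section

namespace Pool.Agent.H73

open Pool.Agent.Y522

variable {m : ℕ} {X Y : Type} [TopologicalSpace X] [T2Space X] [ChartedSpace (E (m + 1)) X]
  [TopologicalSpace Y] [T2Space Y] [ChartedSpace (E (m + 1)) Y] [IsManifold (𝓡 (m + 1)) ∞ X]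
  [IsManifold (𝓡 (m + 1)) ∞ Y]

section

variable {f : X → Y} {σ : X → ℝ} (hf : ContMDiff (𝓡 (m + 1)) (𝓡 (m + 1)) ∞ f)
  (hσ : Sgn (n := m + 1) f σ)
  (hrk : ∀ x, m ≤ Module.finrank ℝ (LinearMap.range (Df (n := m + 1) f x).toLinearMap))

include hf hσ

theorem Box.det_nonneg {B : Y → E (m + 1)} {O : Set Y} (hB : ChO B O) {A : E (m + 1) → X}
    {w₀ : E (m + 1)} {r : ℝ} (h : Box f σ B O A w₀ r) {w : E (m + 1)} (hw : w ∈ ball w₀ r) :
    0 ≤ (fderiv ℝ (fun w => B (f (A w))) w e0) 0 := by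
  rw [← det_of_tl (fun v => h.tlD hf hB hw v)]
  exact hσ.det_nonneg hf (h.ld w hw) (hB.ld _ (h.mem w hw)) (h.pos w hw)

theorem Box.sing_iff {B : Y → E (m + 1)} {O : Set Y} (hB : ChO B O) {A : E (m + 1) → X}
    {w₀ : E (m + 1)} {r : ℝ} (h : Box f σ B O A w₀ r) {w : E (m + 1)} (hw : w ∈ ball w₀ r) :
    ¬ LD (m + 1) f (A w) ↔ (fderiv ℝ (fun w => B (f (A w))) w e0) 0 = 0 := by
  rw [← det_of_tl (fun v => h.tlD hf hB hw v), ← det_ne_iff hf (h.ld w hw)
    (hB.ld _ (h.mem w hw)), not_not]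

/-- the second derivative at singular points -/
theorem Box.snd_zero {B : Y → E (m + 1)} {O : Set Y} (hB : ChO B O) {A : E (m + 1) → X}
    {w₀ : E (m + 1)} {r : ℝ} (h : Box f σ B O A w₀ r) {w : E (m + 1)} (hw : w ∈ ball w₀ r)
    (hs : ¬ LD (m + 1) f (A w)) :
    HasDerivAt (fun t : ℝ => fderiv ℝ (fun w => B (f (A w))) (w + t • e0)) 0 0 := by
  obtain ⟨G, hG⟩ : ∃ G : E (m + 1) → E (m + 1), G = fun w => B (f (A w)) := ⟨_, rfl⟩
  have hGs : ∀ w ∈ ball w₀ r, ContDiffAt ℝ ∞ G w := fun w hw => by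
    rw [hG]
    exact smooth_coord hf (h.ld w hw) (hB.ld _ (h.mem w hw))
  have hG2 : HasFDerivAt (fderiv ℝ G) (fderiv ℝ (fderiv ℝ G) w) w :=
    (((hGs w hw).fderiv_right (m := 1) (WithTop.coe_le_coe.2 le_top)).differentiableAt
      (by simp)).hasFDerivAt
  have hsymm : ∀ u v, fderiv ℝ (fderiv ℝ G) w u v = fderiv ℝ (fderiv ℝ G) w v u := fun u v =>
    ((hGs w hw).isSymmSndFDerivAt (by
      rw [minSmoothness_of_isRCLikeNormedField]
      exact WithTop.coe_le_coe.2 le_top)) u v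
  have hball : ball w₀ r ∈ 𝓝 w := isOpen_ball.mem_nhds hw
  -- first coordinate
  have h1 : ∀ v, (fderiv ℝ (fderiv ℝ G) w e0 v) 0 = 0 := by
    intro v
    have hmin : IsLocalMin (fun w' => (fderiv ℝ G w' e0) 0) w := by
      have h2 : (fderiv ℝ G w e0) 0 = 0 := by
        rw [hG]
        exact (h.sing_iff hf hσ hB hw).1 hs
      filter_upwards [hball] with w' hw'
      rw [h2, hG]
      exact h.det_nonneg hf hσ hB hw'
    have h3 : HasFDerivAt (fun w' => (fderiv ℝ G w' e0) 0)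
        ((EuclideanSpace.proj 0 : E (m + 1) →L[ℝ] ℝ).comp
          ((ContinuousLinearMap.apply ℝ (E (m + 1)) (e0 : E (m + 1))).comp
            (fderiv ℝ (fderiv ℝ G) w))) w :=
      (EuclideanSpace.proj 0 : E (m + 1) →L[ℝ] ℝ).hasFDerivAt.comp w
        ((ContinuousLinearMap.apply ℝ (E (m + 1)) (e0 : E (m + 1))).hasFDerivAt.comp w hG2)
    have h4 := hmin.hasFDerivAt_eq_zero h3
    have h5 := congrArg (fun L : E (m + 1) →L[ℝ] ℝ => L v) h4
    rw [hsymm]
    exact h5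
  -- tail
  have h2 : ∀ v, (tl (fderiv ℝ (fderiv ℝ G) w e0 v) : E m) = 0 := by
    intro v
    have h3 : HasFDerivAt (fun w' => (tl (fderiv ℝ G w' v) : E m))
        ((tl : E (m + 1) →L[ℝ] E m).comp
          ((ContinuousLinearMap.apply ℝ (E (m + 1)) v).comp (fderiv ℝ (fderiv ℝ G) w))) w :=
      (tl : E (m + 1) →L[ℝ] E m).hasFDerivAt.comp w
        ((ContinuousLinearMap.apply ℝ (E (m + 1)) v).hasFDerivAt.comp w hG2)
    have h4 : HasFDerivAt (fun w' => (tl (fderiv ℝ G w' v) : E m))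
        (0 : E (m + 1) →L[ℝ] E m) w := by
      refine (hasFDerivAt_const (tl v : E m) w).congr_of_eventuallyEq ?_
      filter_upwards [hball] with w' hw'
      rw [hG]
      exact h.tlD hf hB hw' v
    exact congrArg (fun L : E (m + 1) →L[ℝ] E m => L e0) (h3.unique h4)
  have h3 : fderiv ℝ (fderiv ℝ G) w e0 = 0 := by
    ext1 v
    rw [← cn_tl (fderiv ℝ (fderiv ℝ G) w e0 v), h1, h2]
    ext i
    refine Fin.cases ?_ (fun i => ?_) i <;> simp
  have h4 : HasDerivAt (fun t : ℝ => w + t • (e0 : E (m + 1))) e0 0 := by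
    simpa using ((hasDerivAt_id (0 : ℝ)).smul_const (e0 : E (m + 1))).const_add w
  have h5 : HasFDerivAt (fderiv ℝ G) (fderiv ℝ (fderiv ℝ G) w) (w + (0 : ℝ) • e0) := by
    rw [zero_smul, add_zero]
    exact hG2
  have h6 := h5.comp_hasDerivAt (0 : ℝ) h4
  rw [h3] at h6
  rw [← hG]
  exact h6

/-- rigidity along lines of singular points -/
theorem Box.rigid {B : Y → E (m + 1)} {O : Set Y} (hB : ChO B O) {A : E (m + 1) → X}
    {w₀ : E (m + 1)} {r : ℝ} (h : Box f σ B O A w₀ r) {w : E (m + 1)} {J : Set ℝ}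
    (hJ : J.OrdConnected) (hJo : IsOpen J)
    (hw : ∀ t ∈ J, w + t • e0 ∈ ball w₀ r) (hs : ∀ t ∈ J, ¬ LD (m + 1) f (A (w + t • e0)))
    {s t : ℝ} (hsJ : s ∈ J) (htJ : t ∈ J) : fderiv ℝ (fun w => B (f (A w))) (w + s • e0) =
      fderiv ℝ (fun w => B (f (A w))) (w + t • e0) := by
  have hd : ∀ t ∈ J, HasDerivAt (fun t : ℝ => fderiv ℝ (fun w => B (f (A w))) (w + t • e0)) 0 t := by
    intro t ht
    have h1 := h.snd_zero hf hσ hB (hw t ht) (hs t ht)
    have h2 : HasDerivAt (fun s : ℝ => s - t) 1 t := (hasDerivAt_id t).sub_const t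
    have h1' : HasDerivAt (fun s : ℝ => fderiv ℝ (fun w => B (f (A w))) (w + t • e0 + s • e0)) 0
        (t - t) := by rw [sub_self]; exact h1
    have h3 := HasDerivAt.scomp (h := fun s : ℝ => s - t) t h1' h2
    rw [smul_zero] at h3
    refine h3.congr_of_eventuallyEq (Eventually.of_forall fun s => ?_)
    change fderiv ℝ (fun w => B (f (A w))) (w + s • e0) =
      fderiv ℝ (fun w => B (f (A w))) (w + t • e0 + (s - t) • e0)
    congr 1
    module
  exact hJo.is_const_of_deriv_eq_zero hJ.isPreconnected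
    (fun t ht => (hd t ht).differentiableAt.differentiableWithinAt)
    (fun t ht => (hd t ht).deriv) hsJ htJ

include hrk

/-- boxes at all points -/
theorem exists_box' (x : X) {B₀ : Y → E (m + 1)} (hB₀ : LD (m + 1) B₀ (f x)) :
    ∃ (B : Y → E (m + 1)) (O : Set Y) (A : E (m + 1) → X) (w₀ : E (m + 1)) (r : ℝ),
      ChO B O ∧ A w₀ = x ∧ Box f σ B O A w₀ r := by
  obtain ⟨T, hT⟩ := exists_lin hB₀ (hrk x)
  have hB : LD (m + 1) (fun y => T (B₀ y)) (f x) := LD.comp_fun (LD_linear T _) hB₀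
  obtain ⟨O, hO, hxO, -⟩ := exists_chO (f x) hB univ_mem
  obtain ⟨A, w₀, r, hA, hbox⟩ := exists_box hf hσ hO hxO hT
  exact ⟨_, O, A, w₀, r, hO, hA, hbox⟩

/-- near a bad point all singular points of the fibre are bad -/
theorem bad_near {x : X} (hx : Bad (m := m) f σ x) :
    ∀ᶠ x' in 𝓝 x, f x' = f x → Bad (m := m) f σ x' := by
  obtain ⟨B₀, hB₀⟩ := exists_chartL (n := m + 1) (f x)
  obtain ⟨B, O, A, w₀, r, hO, rfl, hbox⟩ := exists_box' hf hσ hrk x hB₀
  have h1 := (hbox.ld w₀ (mem_ball_self hbox.r0)).image_mem_nhds (ball_mem_nhds w₀ hbox.r0)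
  filter_upwards [h1] with x' hx' hfx'
  obtain ⟨w, hw, rfl⟩ := hx'
  obtain ⟨t, ht, rfl⟩ := hbox.on_line hw hfx'
  exact (bad_line hf hσ hO hbox hx ht).2

/-- The set of bad points is closed. -/
theorem isClosed_bad [CompactSpace X] : IsClosed {x | Bad (m := m) f σ x} := by
  rw [← isOpen_compl_iff, isOpen_iff_mem_nhds]
  intro x₀ hx₀
  by_cases hL : LD (m + 1) f x₀
  · filter_upwards [hL.eventually] with x hx hbad
    exact hbad.1 hx
  obtain ⟨B, hB⟩ := exists_chartL (n := m + 1) (f x₀)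
  -- the singular points of the fibre
  obtain ⟨y₀, hy₀⟩ : ∃ y₀, y₀ = f x₀ := ⟨_, rfl⟩
  rw [← hy₀] at hB
  have hZ : IsClosed {x | f x = y₀ ∧ ¬ LD (m + 1) f x} :=
    (isClosed_singleton.preimage hf.continuous).inter (isClosed_sing hf hσ)
  have hGc : IsClosed {x | (f x = y₀ ∧ ¬ LD (m + 1) f x) ∧ ¬ Bad (m := m) f σ x} := by
    rw [← isOpen_compl_iff, isOpen_iff_mem_nhds]
    intro x hx
    by_cases hxZ : f x = y₀ ∧ ¬ LD (m + 1) f x
    · have hxb : Bad (m := m) f σ x := by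
        by_contra h
        exact hx ⟨hxZ, h⟩
      filter_upwards [bad_near hf hσ hrk hxb] with x' hx' hx'2
      exact hx'2.2 (hx' (by rw [hx'2.1.1, hxZ.1]))
    · filter_upwards [hZ.isOpen_compl.mem_nhds hxZ] with x' hx' hx'2
      exact hx' hx'2.1
  have hSc : IsClosed {x | (f x = y₀ ∧ ¬ LD (m + 1) f x) ∧ Bad (m := m) f σ x} := by
    rw [← isOpen_compl_iff, isOpen_iff_mem_nhds]
    intro x hx
    by_cases hxZ : f x = y₀ ∧ ¬ LD (m + 1) f x
    · have hBx : LD (m + 1) B (f x) := by rw [hxZ.1]; exact hB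
      have hxg : GoodB f σ B x := by
        by_contra h
        exact hx ⟨hxZ, (bad_iff hBx).2 ⟨hxZ.2, h⟩⟩
      obtain ⟨V, hV, h1, h2⟩ := hxg
      filter_upwards [lv_open hσ hf hV hBx h2] with x' hx' hx'2
      have hBx' : LD (m + 1) B (f x') := by rw [hx'2.1.1]; exact hB
      exact ((bad_iff hBx').1 hx'2.2).2 ⟨V, hV, fun x'' hx'' => h1 x'' (by
        rw [hx'', hx'2.1.1, hxZ.1]), hx'⟩
    · filter_upwards [hZ.isOpen_compl.mem_nhds hxZ] with x' hx' hx'2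
      exact hx' hx'2.1
  obtain ⟨V₁, hV₁, hV₁0, hV₁p⟩ := exists_comb hf hσ hB hGc.isCompact (fun x hx => hx.1.1)
    (fun x hx => by
      by_contra h
      exact hx.2 ((bad_iff (by rw [hx.1.1]; exact hB)).2 ⟨hx.1.2, h⟩))
  have hdisj : Disjoint {x | (f x = y₀ ∧ ¬ LD (m + 1) f x) ∧ Bad (m := m) f σ x}
      {x | (f x = y₀ ∧ ¬ LD (m + 1) f x) ∧ ¬ Bad (m := m) f σ x} := by
    rw [Set.disjoint_left]
    intro x h1 h2
    exact h2.2 h1.2
  obtain ⟨χ, hχ0, hχ1, hχI⟩ := exists_contMDiffMap_zero_one_nhds_of_isClosed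
    (n := (⊤ : ℕ∞)) (𝓡 (m + 1)) hSc hGc hdisj
  have hχV : ContMDiff (𝓡 (m + 1)) (𝓡 (m + 1)) ∞ fun x => χ x • V₁ x := χ.contMDiff.smul hV₁
  have hgood : ∀ x, (f x = y₀ ∧ ¬ LD (m + 1) f x) → ¬ Bad (m := m) f σ x →
      0 < lv f σ B (fun x => χ x • V₁ x) x := by
    intro x hx hxb
    have h3 : lv f σ B (fun x => χ x • V₁ x) x = lv f σ B V₁ x := by
      apply lv_congr
      filter_upwards [(eventually_nhdsSet_iff_forall.1 hχ1) x ⟨hx, hxb⟩] with x' hx'
      rw [hx', one_smul]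
    rw [h3]
    exact hV₁p x ⟨hx, hxb⟩ hx.2
  have hev : ∀ x, f x = y₀ → ∀ᶠ x' in 𝓝 x, LD (m + 1) f x' ∨
      0 ≤ lv f σ B (fun x => χ x • V₁ x) x' := by
    intro x hx
    by_cases hxL : LD (m + 1) f x
    · filter_upwards [hxL.eventually] with x' hx'
      exact Or.inl hx'
    by_cases hxb : Bad (m := m) f σ x
    · have h1 := ((eventually_nhdsSet_iff_forall.1 hχ0) x ⟨⟨hx, hxL⟩, hxb⟩).eventually_nhds
      filter_upwards [h1] with x' hx'
      right
      rw [lv_off σ B]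
      filter_upwards [hx'] with x'' hx''
      rw [hx'', zero_smul]
    · have h1 := lv_open hσ hf hχV (by rw [hx]; exact hB) (hgood x ⟨hx, hxL⟩ hxb)
      filter_upwards [h1] with x' hx'
      exact Or.inr hx'.le
  have h1 := ev_fibre hf hσ hev
  have h2 : ∀ᶠ x in 𝓝 x₀, ∀ x', f x' = f x → LD (m + 1) f x' ∨
      0 ≤ lv f σ B (fun x => χ x • V₁ x) x' := by
    have h3 : ContinuousAt f x₀ := hf.continuous.continuousAt
    rw [hy₀] at h1
    exact h3.eventually h1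
  have h3 : ∀ᶠ x in 𝓝 x₀, LD (m + 1) B (f x) :=
    hf.continuous.continuousAt.eventually (by rw [← hy₀]; exact hB.eventually)
  have h4 := lv_open hσ hf hχV (x := x₀) (by rw [← hy₀]; exact hB)
    (hgood x₀ ⟨hy₀.symm, hL⟩ hx₀)
  filter_upwards [h2, h3, h4] with x a b c hbad
  exact ((bad_iff b).1 hbad).2 ⟨_, hχV, fun x' hx' hx'L => (a x' hx').resolve_left hx'L, c⟩

/-- surjectivity of the last coordinates along lines of bad points -/
theorem surj_near {x : X} (hx : Bad (m := m) f σ x) {B : Y → E (m + 1)}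
    (hB : LD (m + 1) B (f x)) : ∀ᶠ x' in 𝓝 x, f x' = f x →
      (Surjective (tl.comp (Df B (f x') * Df f x') : E (m + 1) →L[ℝ] E m) ↔
        Surjective (tl.comp (Df B (f x) * Df f x) : E (m + 1) →L[ℝ] E m)) := by
  obtain ⟨B', O, A, w₀, r, hO, rfl, hbox⟩ := exists_box' hf hσ hrk x hB
  have h1 := (hbox.ld w₀ (mem_ball_self hbox.r0)).image_mem_nhds (ball_mem_nhds w₀ hbox.r0)
  obtain ⟨R, -, hR⟩ := Df_change (hO.ld _ (hbox.mem w₀ (mem_ball_self hbox.r0))) hB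
  filter_upwards [h1] with x' hx' hfx'
  obtain ⟨w, hw, rfl⟩ := hx'
  obtain ⟨t, ht, rfl⟩ := hbox.on_line hw hfx'
  have hrig := hbox.rigid hf hσ hO (w := w₀) (J := Ioo (-r) r) ordConnected_Ioo isOpen_Ioo
    (fun t ht => mem_line.2 (abs_lt.2 ht))
    (fun t ht => (bad_line hf hσ hO hbox hx (abs_lt.2 ht)).2.1)
    (s := t) (t := 0) (abs_lt.1 ht) ⟨by linarith [hbox.r0], hbox.r0⟩
  rw [zero_smul, add_zero, fderiv_coord hf (hbox.ld _ hw) (hO.ld _ (hbox.mem _ hw)),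
    fderiv_coord hf (hbox.ld _ (mem_ball_self hbox.r0))
      (hO.ld _ (hbox.mem _ (mem_ball_self hbox.r0)))] at hrig
  -- both sides are equivalent to surjectivity of the same map
  have key : ∀ (a g : E (m + 1) →L[ℝ] E (m + 1)), (∃ L, a * L = 1 ∧ L * a = 1) →
      (Surjective (tl.comp (R * g) : E (m + 1) →L[ℝ] E m) ↔
        Surjective (tl.comp (R * (g * a)) : E (m + 1) →L[ℝ] E m)) := by
    rintro a g ⟨L, hL1, hL2⟩
    constructor
    · intro h z
      obtain ⟨v, hv⟩ := h z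
      refine ⟨L v, ?_⟩
      have h2 : a (L v) = v := congrArg (fun M : E (m + 1) →L[ℝ] E (m + 1) => M v) hL1
      change tl (R (g (a (L v)))) = z
      rw [h2]
      exact hv
    · intro h z
      obtain ⟨v, hv⟩ := h z
      exact ⟨a v, hv⟩
  obtain ⟨L₁, hL₁a, hL₁b⟩ := Df_isUnit (hbox.ld _ hw)
  obtain ⟨L₂, hL₂a, hL₂b⟩ := Df_isUnit (hbox.ld _ (mem_ball_self hbox.r0))
  have e1 := key (Df A (w₀ + t • e0)) (Df B' (f (A w₀)) * Df f (A (w₀ + t • e0)))
    ⟨L₁, hL₁b, hL₁a⟩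
  have e2 := key (Df A w₀) (Df B' (f (A w₀)) * Df f (A w₀)) ⟨L₂, hL₂b, hL₂a⟩
  rw [hfx'] at hrig ⊢
  rw [hR, mul_assoc R, mul_assoc R, e1, e2, hrig]

end

end Pool.Agent.H73
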