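import Pool.Agent.H73.ExclA

/-!
# Bad points: lines in several boxes
-/

set_option autoImplicit false
set_option linter.unusedSectionVars false

open Set Filter Topology Metric Function
open scoped Manifold ContDiff

noncomputable section

namespace Pool.Agent.H73

open Pool.Agent.Y522

variable {m : ℕ} {X Y : Type} [TopologicalSpace X] [T2Space X] [ChartedSpace (E (m + 1)) X]
  [TopologicalSpace Y] [T2Space Y] [ChartedSpace (E (m + 1)) Y] [IsManifold (𝓡 (m + 1)) ∞ X]
  [IsManifold (𝓡 (m + 1)) ∞ Y]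

theorem cn_add_e0 (t s : ℝ) (z : E m) : cn (t + s) z = cn t z + s • (e0 : E (m + 1)) := by
  rw [cn_eq, cn_eq t]
  module

theorem eq_of_head_tl {v w : E (m + 1)} (h0 : v 0 = w 0) (h1 : (tl v : E m) = tl w) : v = w := by
  rw [← cn_tl v, ← cn_tl w, h0, h1]

section

variable {f : X → Y} {σ : X → ℝ} (hf : ContMDiff (𝓡 (m + 1)) (𝓡 (m + 1)) ∞ f)
  (hσ : Sgn (n := m + 1) f σ)

omit [T2Space X] [T2Space Y] in
theorem Box.mono {B : Y → E (m + 1)} {O : Set Y} {A : E (m + 1) → X}
    {w₀ : E (m + 1)} {r r' : ℝ} (h : Box f σ B O A w₀ r) (hr' : 0 < r') (hr : r' ≤ r) :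
    Box f σ B O A w₀ r' :=
  ⟨hr', fun w hw => h.ld w (ball_subset_ball hr hw), h.inj.mono (ball_subset_ball hr),
    fun w hw => h.mem w (ball_subset_ball hr hw), fun w hw => h.tle w (ball_subset_ball hr hw),
    fun w hw => h.pos w (ball_subset_ball hr hw)⟩

/-- the orientations of the lines of two boxes agree -/
theorem Box.coh {B : Y → E (m + 1)} {O : Set Y} {A A' : E (m + 1) → X}
    {w₀ w₀' : E (m + 1)} {r r' : ℝ} (h : Box f σ B O A w₀ r) (h' : Box f σ B O A' w₀' r')
    {w w' : E (m + 1)} (hw : w ∈ ball w₀ r) (hw' : w' ∈ ball w₀' r') (he : A w = A' w') :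
    ∀ᶠ s in 𝓝[<] (0 : ℝ), ∃ u : ℝ, u < 0 ∧ w' + u • e0 ∈ ball w₀' r' ∧
      A' (w' + u • e0) = A (w + s • e0) := by
  obtain ⟨a, ha, haw, ha1, ha2⟩ := (h'.ld w' hw').exists_inverse
  have hAw := h.ld w hw
  have hτ : LD (m + 1) (fun v => a (A v)) w := LD.comp_fun (by rw [he]; exact ha) hAw
  obtain ⟨τ, hτd⟩ : ∃ τ : E (m + 1) → E (m + 1), τ = fun v => a (A v) := ⟨_, rfl⟩
  rw [← hτd] at hτ
  have hτw : τ w = w' := by rw [hτd]; change a (A w) = w'; rw [he, haw]
  have hτA : ∀ᶠ v in 𝓝 w, A' (τ v) = A v := by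
    have h1 : ∀ᶠ x in 𝓝 (A w), A' (a x) = x := by rw [he]; exact ha2
    filter_upwards [hAw.continuousAt.eventually h1] with v hv
    rw [hτd]
    exact hv
  have hτb : ∀ᶠ v in 𝓝 w, τ v ∈ ball w₀' r' :=
    hτ.continuousAt (isOpen_ball.mem_nhds (by rw [hτw]; exact hw'))
  have hτtl : ∀ᶠ v in 𝓝 w, (tl (τ v) : E m) = tl v := by
    filter_upwards [hτA, hτb, isOpen_ball.mem_nhds hw] with v a b c
    rw [← h'.tle _ b, a, h.tle v c]
  have hd : HasFDerivAt τ (fderiv ℝ τ w) w :=
    (hτ.contDiffAt.differentiableAt (by simp)).hasFDerivAt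
  have hdtl : ∀ v, (tl (fderiv ℝ τ w v) : E m) = tl v := by
    intro v
    have h1 : HasFDerivAt (fun v => (tl (τ v) : E m)) (tl.comp (fderiv ℝ τ w)) w :=
      (tl : E (m + 1) →L[ℝ] E m).hasFDerivAt.comp w hd
    have h2 : HasFDerivAt (fun v => (tl (τ v) : E m)) (tl : E (m + 1) →L[ℝ] E m) w :=
      (tl : E (m + 1) →L[ℝ] E m).hasFDerivAt.congr_of_eventuallyEq hτtl
    exact congrArg (fun L : E (m + 1) →L[ℝ] E m => L v) (h1.unique h2)
  have hpos : 0 < (fderiv ℝ τ w e0) 0 := by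
    rw [← det_of_tl hdtl]
    have h1 : Df (n := m + 1) A w = Df A' w' * fderiv ℝ τ w := by
      rw [← hτw, ← Df_eq_fderiv, ← Df_comp (LD.mdiff (by rw [hτw]; exact h'.ld w' hw'))
        (LD.mdiff hτ)]
      refine Df_congr ?_
      filter_upwards [hτA] with v hv
      rw [hv]
    have h2 := h.pos w hw
    have h3 := h'.pos w' hw'
    unfold sg at h2 h3
    rw [h1, det_mul', he] at h2
    have h4 : σ (A' w') * ((Df (n := m + 1) A' w').det * (fderiv ℝ τ w).det) *
        (Df (n := m + 1) B (f (A' w'))).det = (σ (A' w') * (Df (n := m + 1) A' w').det *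
        (Df (n := m + 1) B (f (A' w'))).det) * (fderiv ℝ τ w).det := by ring
    rw [h4] at h2
    exact (pos_iff_pos_of_mul_pos h2).1 h3
  -- the function of one variable
  have hline : HasDerivAt (fun s : ℝ => w + s • (e0 : E (m + 1))) e0 0 := by
    simpa using ((hasDerivAt_id (0 : ℝ)).smul_const (e0 : E (m + 1))).const_add w
  have hlc : Tendsto (fun s : ℝ => w + s • (e0 : E (m + 1))) (𝓝 0) (𝓝 w) := by
    have h1 := hline.continuousAt.tendsto
    simpa using h1
  have hφ : HasDerivAt (fun s : ℝ => (τ (w + s • e0)) 0) ((fderiv ℝ τ w e0) 0) 0 := by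
    have h1 : HasFDerivAt τ (fderiv ℝ τ w) (w + (0 : ℝ) • e0) := by
      rw [zero_smul, add_zero]
      exact hd
    exact ((EuclideanSpace.proj 0 : E (m + 1) →L[ℝ] ℝ).hasFDerivAt).comp_hasDerivAt (0 : ℝ)
      (h1.comp_hasDerivAt (0 : ℝ) hline)
  have hslope := (hasDerivAt_iff_tendsto_slope.1 hφ).eventually (lt_mem_nhds hpos)
  have hslope' : ∀ᶠ s in 𝓝[<] (0 : ℝ), 0 < slope (fun s : ℝ => (τ (w + s • e0)) 0) 0 s :=
    hslope.filter_mono (nhdsWithin_mono 0 fun s hs => ne_of_lt hs)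
  have hev : ∀ᶠ s in 𝓝[<] (0 : ℝ), A' (τ (w + s • e0)) = A (w + s • e0) ∧
      τ (w + s • e0) ∈ ball w₀' r' ∧ (tl (τ (w + s • e0)) : E m) = tl (w + s • e0) :=
    (hlc.eventually (hτA.and (hτb.and hτtl))).filter_mono nhdsWithin_le_nhds
  filter_upwards [hslope', hev, self_mem_nhdsWithin] with s hs ⟨e1, e2, e3⟩ hs0
  have hs0' : s < 0 := hs0
  have h1 : (τ (w + s • e0)) 0 < w' 0 := by
    rw [slope_def_field, zero_smul, add_zero, hτw, sub_zero] at hs
    have h2 : (τ (w + s • e0)) 0 - w' 0 < 0 := by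
      by_contra hcon
      have h3 := div_nonpos_of_nonneg_of_nonpos (not_lt.1 hcon) hs0'.le
      linarith
    linarith
  have htlw : (tl w : E m) = tl w' := by
    rw [← h.tle w hw, ← h'.tle w' hw', he]
  have h2 : τ (w + s • e0) = w' + ((τ (w + s • e0)) 0 - w' 0) • e0 := by
    apply eq_of_head_tl
    · simp [e0_zero]
    · rw [e3, map_add, map_smul, tl_e0, smul_zero, add_zero, htlw, map_add, map_smul, tl_e0,
        smul_zero, add_zero]
  refine ⟨(τ (w + s • e0)) 0 - w' 0, by linarith, ?_, ?_⟩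
  · rw [← h2]
    exact e2
  · rw [← h2]
    exact e1

include hf hσ

/-- functions which do not decrease along the lines in a compact set are constant along them -/
theorem lines_zero {B : Y → E (m + 1)} {O : Set Y} (hB : ChO B O) {ι : Type*}
    {A : ι → E (m + 1) → X} {w₀ : ι → E (m + 1)} {r : ι → ℝ}
    (hbox : ∀ i, Box f σ B O (A i) (w₀ i) (r i)) (z : E m) {C : Set X} (hC : IsCompact C)
    (hCz : ∀ x ∈ C, (tl (B (f x)) : E m) = z)
    (hsub : ∀ i t, cn t z ∈ ball (w₀ i) (r i) → A i (cn t z) ∈ C)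
    (hcov : ∀ x ∈ C, ∃ i, x ∈ A i '' ball (w₀ i) (r i)) (k : X → ℝ) (hk : ContinuousOn k C)
    (hd : ∀ i t, cn t z ∈ ball (w₀ i) (r i) →
      ∃ d, 0 ≤ d ∧ HasDerivAt (fun t => k (A i (cn t z))) d t) {i : ι} {t : ℝ}
    (ht : cn t z ∈ ball (w₀ i) (r i)) {d : ℝ} (hdt : HasDerivAt (fun t => k (A i (cn t z))) d t) :
    d = 0 := by
  have hcn : Continuous fun t : ℝ => (cn t z : E (m + 1)) := by
    have h1 : (fun t : ℝ => (cn t z : E (m + 1))) = fun t : ℝ => t • e0 + cn 0 z := by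
      funext t
      rw [cn_eq]
    rw [h1]
    fun_prop
  have hJo : ∀ i, IsOpen {t : ℝ | (cn t z : E (m + 1)) ∈ ball (w₀ i) (r i)} := fun i =>
    isOpen_ball.preimage hcn
  have hJc : ∀ i, ({t : ℝ | (cn t z : E (m + 1)) ∈ ball (w₀ i) (r i)}).OrdConnected := by
    intro i
    apply Convex.ordConnected
    intro s hs t ht a b ha hb hab
    have h1 := (convex_ball (w₀ i) (r i)) hs ht ha hb hab
    have h2 : (cn (a • s + b • t) z : E (m + 1)) = a • cn s z + b • cn t z := by
      rw [cn_eq, cn_eq s, cn_eq t]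
      have h3 : (cn 0 z : E (m + 1)) = (a + b) • cn 0 z := by rw [hab, one_smul]
      rw [h3]
      simp only [smul_eq_mul]
      have h4 : ∀ v : E (m + 1), (a * s + b * t) • (e0 : E (m + 1)) + (a + b) • v =
          a • (s • e0 + v) + b • (t • e0 + v) := fun v => by module
      rw [h4, hab, one_smul]
    change (cn (a • s + b • t) z : E (m + 1)) ∈ ball (w₀ i) (r i)
    rw [h2]
    exact h1
  have hcc : ∀ i, ContinuousOn (fun t => A i (cn t z))
      {t : ℝ | (cn t z : E (m + 1)) ∈ ball (w₀ i) (r i)} := fun i t ht =>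
    ((((hbox i).ld _ ht).continuousAt).comp_of_eq hcn.continuousAt rfl).continuousWithinAt
  have hinj : ∀ i, InjOn (fun t => A i (cn t z))
      {t : ℝ | (cn t z : E (m + 1)) ∈ ball (w₀ i) (r i)} := by
    intro i s hs t ht hst
    have h1 := (hbox i).inj hs ht hst
    have h2 := congrArg (fun v : E (m + 1) => v 0) h1
    simpa using h2
  have hconst := const_on_lines hC (fun i t => A i (cn t z))
    (fun i => {t : ℝ | (cn t z : E (m + 1)) ∈ ball (w₀ i) (r i)}) hJo hJc hcc hinj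
    (fun i t ht => hsub i t ht) ?_ ?_ ?_ k hk ?_
  · -- the derivative
    have h1 : (fun t => k (A i (cn t z))) =ᶠ[𝓝 t] fun _ => k (A i (cn t z)) := by
      filter_upwards [(hJo i).mem_nhds ht] with s hs
      exact hconst i s hs t ht
    have h2 : HasDerivAt (fun t => k (A i (cn t z))) 0 t :=
      (hasDerivAt_const t _).congr_of_eventuallyEq h1
    exact hdt.unique h2
  · -- lines are open
    intro i U hU
    refine ⟨A i '' (ball (w₀ i) (r i) ∩ {w | w 0 ∈ U}), ?_, ?_⟩
    · refine isOpen_image_of_LD (n := m + 1) (isOpen_ball.inter (hU.preimage continuous_head)) ?_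
      intro w hw
      exact (hbox i).ld w hw.1
    · intro x hx
      constructor
      · rintro ⟨w, ⟨hw1, hw2⟩, rfl⟩
        have h1 : (tl w : E m) = z := by
          rw [← (hbox i).tle w hw1]
          exact hCz _ hx
        refine ⟨w 0, ?_, hw2, ?_⟩
        · change cn (w 0) z ∈ ball (w₀ i) (r i)
          rw [← h1, cn_tl]
          exact hw1
        · change A i (cn (w 0) z) = A i w
          rw [← h1, cn_tl]
      · rintro ⟨t, ht, htU, rfl⟩
        exact ⟨cn t z, ⟨ht, by simpa using htU⟩, rfl⟩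
  · intro x hx
    obtain ⟨i, w, hw, rfl⟩ := hcov x hx
    have h1 : (tl w : E m) = z := by
      rw [← (hbox i).tle w hw]
      exact hCz _ hx
    refine ⟨i, w 0, ?_, ?_⟩
    · change cn (w 0) z ∈ ball (w₀ i) (r i)
      rw [← h1, cn_tl]
      exact hw
    · change A i (cn (w 0) z) = A i w
      rw [← h1, cn_tl]
  · intro i j s hs u hu hsu
    have h1 := (hbox i).coh (hbox j) hs hu hsu
    have h2 : Tendsto (fun s' : ℝ => s' - s) (𝓝[<] s) (𝓝[<] 0) := by
      refine tendsto_nhdsWithin_iff.2 ⟨?_, ?_⟩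
      · have h3 : Tendsto (fun s' : ℝ => s' - s) (𝓝 s) (𝓝 (s - s)) :=
          (continuous_id.sub continuous_const).tendsto s
        rw [sub_self] at h3
        exact h3.mono_left nhdsWithin_le_nhds
      · filter_upwards [self_mem_nhdsWithin] with s' hs'
        have h4 : s' < s := hs'
        exact sub_neg.2 h4
    filter_upwards [h2.eventually h1] with s' hs'
    obtain ⟨u', hu'0, hu'b, hu'e⟩ := hs'
    refine ⟨u + u', ?_, by linarith, ?_⟩
    · change cn (u + u') z ∈ ball (w₀ j) (r j)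
      rw [cn_add_e0]
      exact hu'b
    · change A j (cn (u + u') z) = A i (cn s' z)
      rw [cn_add_e0, hu'e, ← cn_add_e0]
      congr 2
      ring
  · intro i
    refine monotoneOn_of_deriv_nonneg (hJc i).convex ?_ ?_ ?_
    · intro t ht
      obtain ⟨d, -, hd⟩ := hd i t ht
      exact hd.continuousAt.continuousWithinAt
    · intro t ht
      have ht' : t ∈ {t : ℝ | (cn t z : E (m + 1)) ∈ ball (w₀ i) (r i)} := interior_subset ht
      obtain ⟨d, -, hd⟩ := hd i t ht'
      exact hd.differentiableAt.differentiableWithinAt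
    · intro t ht
      have ht' : t ∈ {t : ℝ | (cn t z : E (m + 1)) ∈ ball (w₀ i) (r i)} := interior_subset ht
      obtain ⟨d, hd0, hd⟩ := hd i t ht'
      rw [hd.deriv]
      exact hd0

end

end Pool.Agent.H73
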