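import Pool.Agent.H73.ExclB

/-!
# Bad points: the set is open
-/

set_option autoImplicit false
set_option linter.unusedSectionVars false

open Set Filter Topology Metric Function
open scoped Manifold ContDiff

noncomputable section

namespace Pool.Agent.H73

open Pool.Agent.Y522

variable {m : ℕ} {X Y : Type} [TopologicalSpace X] [T2Space X] [ChartedSpace (E (m + 1)) X]
  [TopologicalSpace Y] [T2Space Y] [ChartedSpace (E (m + 1)) Y] [IsManifold (𝓡 (m + 1)) ∞ X]
  [IsManifold (𝓡 (m + 1)) ∞ Y]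

theorem continuous_cnz (z : E m) : Continuous fun t : ℝ => (cn t z : E (m + 1)) := by
  have h1 : (fun t : ℝ => (cn t z : E (m + 1))) = fun t : ℝ => t • e0 + cn 0 z := by
    funext t
    rw [cn_eq]
  rw [h1]
  fun_prop

theorem hasDerivAt_cnz (z : E m) (t : ℝ) :
    HasDerivAt (fun t : ℝ => (cn t z : E (m + 1))) e0 t := by
  have h1 : (fun t : ℝ => (cn t z : E (m + 1))) = fun t : ℝ => t • e0 + cn 0 z := by
    funext t
    rw [cn_eq]
  rw [h1]
  simpa using ((hasDerivAt_id t).smul_const (e0 : E (m + 1))).add_const (cn 0 z)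

theorem deriv_line {g : E (m + 1) → E (m + 1)} {g' : E (m + 1) →L[ℝ] E (m + 1)} {z : E m} {t : ℝ}
    (h : HasFDerivAt g g' (cn t z)) : HasDerivAt (fun t : ℝ => g (cn t z)) (g' e0) t :=
  HasFDerivAt.comp_hasDerivAt (l := g) (f := fun t : ℝ => (cn t z : E (m + 1))) t h
    (hasDerivAt_cnz z t)

theorem deriv_line0 {g : E (m + 1) → E (m + 1)} {g' : E (m + 1) →L[ℝ] E (m + 1)} {z : E m} {t : ℝ}
    (h : HasFDerivAt g g' (cn t z)) : HasDerivAt (fun t : ℝ => (g (cn t z)) 0) ((g' e0) 0) t :=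
  HasFDerivAt.comp_hasDerivAt (l := fun v : E (m + 1) => v 0) (f := fun t : ℝ => g (cn t z)) t
    ((EuclideanSpace.proj 0 : E (m + 1) →L[ℝ] ℝ).hasFDerivAt) (deriv_line h)

theorem deriv_lineL {g : E (m + 1) → E (m + 1)} {g' : E (m + 1) →L[ℝ] E (m + 1)} {z : E m} {t : ℝ}
    (h : HasFDerivAt g g' (cn t z)) (L : E (m + 1) →L[ℝ] ℝ) :
    HasDerivAt (fun t : ℝ => L (g (cn t z))) (L (g' e0)) t :=
  HasFDerivAt.comp_hasDerivAt (l := fun v : E (m + 1) => L v) (f := fun t : ℝ => g (cn t z)) t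
    L.hasFDerivAt (deriv_line h)

section

variable {f : X → Y} {σ : X → ℝ} (hf : ContMDiff (𝓡 (m + 1)) (𝓡 (m + 1)) ∞ f)
  (hσ : Sgn (n := m + 1) f σ)
  (hrk : ∀ x, m ≤ Module.finrank ℝ (LinearMap.range (Df (n := m + 1) f x).toLinearMap))

include hf hσ

theorem Box.surj {B : Y → E (m + 1)} {O : Set Y} (hB : ChO B O) {A : E (m + 1) → X}
    {w₀ : E (m + 1)} {r : ℝ} (h : Box f σ B O A w₀ r) {w : E (m + 1)} (hw : w ∈ ball w₀ r) :
    Surjective (tl.comp (Df B (f (A w)) * Df f (A w)) : E (m + 1) →L[ℝ] E m) := by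
  intro z
  refine ⟨Df A w (cn 0 z), ?_⟩
  have h1 := h.tlD hf hB hw (cn 0 z)
  rw [fderiv_coord hf (h.ld w hw) (hB.ld _ (h.mem w hw)), tl_cn] at h1
  exact h1

/-- all points of the fibres of the last coordinates near a bad point are bad -/
theorem tube {B : Y → E (m + 1)} {O : Set Y} (hB : ChO B O) {ι : Type*}
    {A : ι → E (m + 1) → X} {w₀ : ι → E (m + 1)} {r : ι → ℝ}
    (hbox : ∀ i, Box f σ B O (A i) (w₀ i) (r i)) {z₀ : E m} {δ : ℝ}
    {Cz : E m → Set X} (hC : ∀ z ∈ ball z₀ δ, IsCompact (Cz z))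
    (hCz : ∀ z ∈ ball z₀ δ, ∀ x, x ∈ Cz z ↔ (∃ i, x ∈ A i '' ball (w₀ i) (r i)) ∧
      (tl (B (f x)) : E m) = z)
    {i₀ : ι} {w : E (m + 1)} (hw : w ∈ ball (w₀ i₀) (r i₀)) (hwz : tl w ∈ ball z₀ δ) :
    Bad (m := m) f σ (A i₀ w) := by
  have hAC : ∀ z ∈ ball z₀ δ, ∀ i t, cn t z ∈ ball (w₀ i) (r i) → A i (cn t z) ∈ Cz z := by
    intro z hz i t ht
    exact (hCz z hz _).2 ⟨⟨i, _, ht, rfl⟩, by rw [(hbox i).tle _ ht, tl_cn]⟩
  -- first step: the derivative along the lines vanishes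
  have hsing : ∀ i w, w ∈ ball (w₀ i) (r i) → tl w ∈ ball z₀ δ → ¬ LD (m + 1) f (A i w) := by
    intro i w hw hwz
    rw [(hbox i).sing_iff hf hσ hB hw]
    have hder : ∀ z ∈ ball z₀ δ, ∀ i t, cn t z ∈ ball (w₀ i) (r i) →
        HasDerivAt (fun t : ℝ => (B (f (A i (cn t z)))) 0)
          ((fderiv ℝ (fun w => B (f (A i w))) (cn t z) e0) 0) t := by
      intro z hz i t ht
      have h1 : HasFDerivAt (fun w => B (f (A i w)))
          (fderiv ℝ (fun w => B (f (A i w))) (cn t z)) (cn t z) :=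
        ((smooth_coord hf ((hbox i).ld _ ht) (hB.ld _ ((hbox i).mem _ ht))).differentiableAt
          (by simp)).hasFDerivAt
      exact deriv_line0 h1
    have hw' : cn (w 0) (tl w) ∈ ball (w₀ i) (r i) := by rw [cn_tl]; exact hw
    have h1 := lines_zero hf hσ hB hbox (tl w) (hC _ hwz) (fun x hx => ((hCz _ hwz x).1 hx).2)
      (hAC _ hwz) (fun x hx => ((hCz _ hwz x).1 hx).1) (fun x => (B (f x)) 0) ?_ ?_ hw'
      (hder _ hwz i (w 0) hw')
    · rw [cn_tl] at h1
      exact h1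
    · intro x hx
      obtain ⟨⟨j, v, hv, rfl⟩, -⟩ := (hCz _ hwz x).1 hx
      have h2 : ContinuousAt (fun x => B (f x)) (A j v) :=
        (hB.ld _ ((hbox j).mem v hv)).continuousAt.comp_of_eq hf.continuous.continuousAt rfl
      exact (continuous_head.continuousAt.comp h2).continuousWithinAt
    · intro j t ht
      exact ⟨_, (hbox j).det_nonneg hf hσ hB ht, hder _ hwz j t ht⟩
  refine (bad_iff (hB.ld _ ((hbox i₀).mem w hw))).2 ⟨hsing i₀ w hw hwz, ?_⟩
  rintro ⟨V, hV, hV0, hVp⟩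
  obtain ⟨z, hz⟩ : ∃ z : E m, z = tl w := ⟨_, rfl⟩
  rw [← hz] at hwz
  obtain ⟨p, hp⟩ : ∃ p, p = A i₀ w := ⟨_, rfl⟩
  obtain ⟨Λ, hΛ⟩ : ∃ Λ : E m → ℝ, Λ = fun h =>
      (fderiv ℝ (fun w => B (f (A i₀ w))) w (cn 0 h)) 0 := ⟨_, rfl⟩
  have hΛL : ∃ L : E m →L[ℝ] ℝ, ∀ h, L h = Λ h := by
    refine ⟨(EuclideanSpace.proj 0 : E (m + 1) →L[ℝ] ℝ).comp
      ((fderiv ℝ (fun w => B (f (A i₀ w))) w).comp inc), fun h => ?_⟩
    rw [hΛ]
    rfl
  obtain ⟨L, hL⟩ := hΛL
  -- the graph condition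
  obtain ⟨gr, hgr⟩ : ∃ gr : X → Prop, gr = fun x => (B (f x)) 0 = (B (f p)) 0 ∧
      ∀ v, (Df (n := m + 1) B (f x) (Df (n := m + 1) f x v)) 0 =
        L (tl (Df (n := m + 1) B (f x) (Df (n := m + 1) f x v))) := ⟨_, rfl⟩
  have hgr_iff : ∀ i v, v ∈ ball (w₀ i) (r i) → (gr (A i v) ↔ (B (f (A i v))) 0 = (B (f p)) 0 ∧
      ∀ u, (fderiv ℝ (fun w => B (f (A i w))) v u) 0 = L (tl u)) := by
    intro i v hv
    rw [hgr]
    refine and_congr_right fun _ => ?_
    have hA := (hbox i).ld v hv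
    obtain ⟨a, ha1, ha2⟩ := Df_isUnit hA
    constructor
    · intro h u
      rw [← (hbox i).tlD hf hB hv u, fderiv_coord hf hA (hB.ld _ ((hbox i).mem v hv))]
      exact h (Df (A i) v u)
    · intro h u
      have h1 := h (a u)
      rw [← (hbox i).tlD hf hB hv (a u), fderiv_coord hf hA (hB.ld _ ((hbox i).mem v hv))] at h1
      have h2 : Df (n := m + 1) (A i) v (a u) = u :=
        congrArg (fun M : E (m + 1) →L[ℝ] E (m + 1) => M u) ha2
      have h3 : ∀ b c d : E (m + 1) →L[ℝ] E (m + 1), (b * c * d) (a u) = b (c (d (a u))) :=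
        fun _ _ _ => rfl
      rw [h3, h2] at h1
      exact h1
  -- the condition is constant along lines
  have hline : ∀ i s t, cn s z ∈ ball (w₀ i) (r i) → cn t z ∈ ball (w₀ i) (r i) →
      gr (A i (cn s z)) → gr (A i (cn t z)) := by
    intro i s t hs ht hg
    have hJ : ({t : ℝ | (cn t z : E (m + 1)) ∈ ball (w₀ i) (r i)}).OrdConnected := by
      apply Convex.ordConnected
      intro s hs t ht a b ha hb hab
      have h1 := (convex_ball (w₀ i) (r i)) hs ht ha hb hab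
      have h2 : (cn (a • s + b • t) z : E (m + 1)) = a • cn s z + b • cn t z := by
        rw [cn_eq, cn_eq s, cn_eq t]
        have h4 : ∀ v : E (m + 1), (a * s + b * t) • (e0 : E (m + 1)) + (a + b) • v =
            a • (s • e0 + v) + b • (t • e0 + v) := fun v => by module
        have h5 := h4 (cn 0 z)
        rw [hab, one_smul] at h5
        exact h5
      change (cn (a • s + b • t) z : E (m + 1)) ∈ ball (w₀ i) (r i)
      rw [h2]
      exact h1
    have hJo : IsOpen {t : ℝ | (cn t z : E (m + 1)) ∈ ball (w₀ i) (r i)} :=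
      isOpen_ball.preimage (continuous_cnz z)
    have hcn : ∀ t : ℝ, (cn t z : E (m + 1)) = cn 0 z + t • e0 := fun t => by
      rw [cn_eq]
      abel
    have hrig := (hbox i).rigid hf hσ hB (w := cn 0 z) hJ hJo
      (fun t ht => by rw [← hcn]; exact ht)
      (fun t ht => by
        rw [← hcn]
        exact hsing i _ ht (by rw [tl_cn]; exact hwz)) hs ht
    rw [← hcn, ← hcn] at hrig
    have h0 : (B (f (A i (cn s z)))) 0 = (B (f (A i (cn t z)))) 0 := by
      refine hJo.is_const_of_deriv_eq_zero (f := fun t => (B (f (A i (cn t z)))) 0)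
        hJ.isPreconnected ?_ ?_ hs ht
      · intro t ht
        have h1 : HasFDerivAt (fun w => B (f (A i w)))
            (fderiv ℝ (fun w => B (f (A i w))) (cn t z)) (cn t z) :=
          ((smooth_coord hf ((hbox i).ld _ ht) (hB.ld _ ((hbox i).mem _ ht))).differentiableAt
            (by simp)).hasFDerivAt
        exact (deriv_line0 h1).differentiableAt.differentiableWithinAt
      · intro t ht
        have h1 : HasFDerivAt (fun w => B (f (A i w)))
            (fderiv ℝ (fun w => B (f (A i w))) (cn t z)) (cn t z) :=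
          ((smooth_coord hf ((hbox i).ld _ ht) (hB.ld _ ((hbox i).mem _ ht))).differentiableAt
            (by simp)).hasFDerivAt
        refine (deriv_line0 h1).deriv.trans ?_
        exact ((hbox i).sing_iff hf hσ hB ht).1 (hsing i _ ht (by rw [tl_cn]; exact hwz))
    rw [hgr_iff i _ ht]
    rw [hgr_iff i _ hs] at hg
    exact ⟨by rw [← h0]; exact hg.1, by rw [← hrig]; exact hg.2⟩
  -- the compact set
  obtain ⟨C, hCd⟩ : ∃ C : Set X, C = Cz z ∩ {x | gr x} := ⟨_, rfl⟩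
  have hCc : IsCompact C := by
    have h1 : C = Cz z \ ⋃ i, {x | x ∈ A i '' ball (w₀ i) (r i) ∧
        ∀ y ∈ Cz z, y ∈ A i '' ball (w₀ i) (r i) → ¬ gr y} := by
      ext x
      rw [hCd]
      constructor
      · rintro ⟨h1, h2⟩
        refine ⟨h1, ?_⟩
        rw [mem_iUnion]
        rintro ⟨i, hi1, hi2⟩
        exact hi2 x h1 hi1 h2
      · rintro ⟨h1, h2⟩
        refine ⟨h1, ?_⟩
        by_contra hng
        apply h2
        rw [mem_iUnion]
        obtain ⟨⟨i, v, hv, rfl⟩, hvz⟩ := (hCz z hwz x).1 h1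
        refine ⟨i, ⟨v, hv, rfl⟩, ?_⟩
        rintro y hy ⟨u, hu, rfl⟩ hgu
        apply hng
        have huz := ((hCz z hwz _).1 hy).2
        have e1 : v = cn (v 0) z := by
          rw [← hvz, (hbox i).tle v hv, cn_tl]
        have e2 : u = cn (u 0) z := by
          rw [← huz, (hbox i).tle u hu, cn_tl]
        rw [e1] at hv ⊢
        rw [e2] at hu hgu
        exact hline i _ _ hu hv hgu
    rw [h1]
    refine (hC z hwz).diff (isOpen_iUnion fun i => ?_)
    have h2 : IsOpen (A i '' ball (w₀ i) (r i)) :=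
      isOpen_image_of_LD (n := m + 1) isOpen_ball (hbox i).ld
    by_cases h3 : ∀ y ∈ Cz z, y ∈ A i '' ball (w₀ i) (r i) → ¬ gr y
    · have h4 : {x | x ∈ A i '' ball (w₀ i) (r i) ∧
          ∀ y ∈ Cz z, y ∈ A i '' ball (w₀ i) (r i) → ¬ gr y} = A i '' ball (w₀ i) (r i) := by
        ext x
        exact ⟨fun h => h.1, fun h => ⟨h, h3⟩⟩
      rw [h4]
      exact h2
    · have h4 : {x | x ∈ A i '' ball (w₀ i) (r i) ∧
          ∀ y ∈ Cz z, y ∈ A i '' ball (w₀ i) (r i) → ¬ gr y} = ∅ := by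
        ext x
        exact ⟨fun h => absurd h.2 h3, fun h => absurd h (notMem_empty x)⟩
      rw [h4]
      exact isOpen_empty
  -- the lines in it
  obtain ⟨I, hI⟩ : ∃ I : Set ι, I = {i | ∀ t, cn t z ∈ ball (w₀ i) (r i) → gr (A i (cn t z))} :=
    ⟨_, rfl⟩
  have hIm : ∀ i, i ∈ I ↔ ∀ t, cn t z ∈ ball (w₀ i) (r i) → gr (A i (cn t z)) := fun i => by
    rw [hI]
    rfl
  have hlineI : ∀ i t, cn t z ∈ ball (w₀ i) (r i) → gr (A i (cn t z)) → i ∈ I := by
    intro i t ht hg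
    rw [hIm]
    intro s hs
    exact hline i t s ht hs hg
  have hfp : ∀ i t, cn t z ∈ ball (w₀ i) (r i) → gr (A i (cn t z)) →
      f (A i (cn t z)) = f p := by
    intro i t ht hg
    apply hB.inj ((hbox i).mem _ ht) (by rw [hp]; exact (hbox i₀).mem w hw)
    apply eq_of_head_tl
    · exact ((hgr_iff i _ ht).1 hg).1
    · rw [(hbox i).tle _ ht, tl_cn, hp, (hbox i₀).tle w hw, hz]
  have hgp : gr p := by
    rw [hp, hgr_iff i₀ w hw, hp]
    refine ⟨rfl, fun u => ?_⟩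
    rw [hL, hΛ]
    have h1 : u = u 0 • e0 + cn 0 (tl u) := by rw [← cn_eq, cn_tl]
    have h2 := ((hbox i₀).sing_iff hf hσ hB hw).1 (hsing i₀ w hw (by rw [← hz]; exact hwz))
    conv_lhs => rw [h1]
    rw [map_add, map_smul]
    simp [h2]
  have hder2 : ∀ (i : I) t, cn t z ∈ ball (w₀ i) (r i) →
      HasDerivAt (fun t : ℝ => (V (A i (cn t z))) 0 - L (tl (V (A i (cn t z)))))
        (dd (fderiv ℝ (fun w => B (f (A i w))) (cn t z))
          (fderiv ℝ (fun w => V (A i w)) (cn t z))) t := by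
    intro i t ht
    have hg := (hIm i).1 i.2 t ht
    have h1 : HasFDerivAt (fun w => V (A i w)) (fderiv ℝ (fun w => V (A i w)) (cn t z))
        (cn t z) :=
      ((contMDiffAt_iff_contDiffAt.1 ((hV _).comp _ ((hbox i).ld _ ht).contMDiffAt)).differentiableAt
        (by simp)).hasFDerivAt
    have h3 : HasDerivAt (fun t : ℝ => (V (A i (cn t z))) 0 - L (tl (V (A i (cn t z)))))
        ((fderiv ℝ (fun w => V (A i w)) (cn t z) e0) 0 -
          L (tl (fderiv ℝ (fun w => V (A i w)) (cn t z) e0))) t :=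
      (deriv_line0 h1).sub (deriv_lineL h1 (L.comp tl))
    rw [dd_sing (fun v => (hbox i).tlD hf hB ht v)
      (((hbox i).sing_iff hf hσ hB ht).1 (hsing i _ ht (by rw [tl_cn]; exact hwz))),
      ((hgr_iff i _ ht).1 hg).2, tl_cn]
    exact h3
  have hw' : cn (w 0) z ∈ ball (w₀ i₀) (r i₀) := by rw [hz, cn_tl]; exact hw
  have hi₀ : i₀ ∈ I := hlineI i₀ (w 0) hw' (by rw [hz, cn_tl, ← hp]; exact hgp)
  have hfin := lines_zero hf hσ hB (ι := I) (A := fun i => A i) (w₀ := fun i => w₀ i)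
    (r := fun i => r i) (fun i => hbox i) z hCc
    (fun x hx => by
      rw [hCd] at hx
      exact ((hCz z hwz x).1 hx.1).2)
    (fun i t ht => by
      rw [hCd]
      exact ⟨hAC z hwz i t ht, (hIm i).1 i.2 t ht⟩)
    (fun x hx => by
      rw [hCd] at hx
      obtain ⟨⟨i, v, hv, rfl⟩, hvz⟩ := (hCz z hwz x).1 hx.1
      have e1 : v = cn (v 0) z := by
        rw [← hvz, (hbox i).tle v hv, cn_tl]
      have hg : gr (A i v) := hx.2
      refine ⟨⟨i, ?_⟩, v, hv, rfl⟩
      rw [e1] at hv hg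
      exact hlineI i _ hv hg)
    (fun x => (V x) 0 - L (tl (V x)))
    ((continuous_head.comp hV.continuous).sub
      ((L.comp tl).continuous.comp hV.continuous)).continuousOn
    (fun i t ht => by
      refine ⟨_, ?_, hder2 i t ht⟩
      have hg := (hIm i).1 i.2 t ht
      have h1 := hV0 (A i (cn t z)) (by rw [hfp i t ht hg, hp])
        (hsing i _ ht (by rw [tl_cn]; exact hwz))
      exact (lv_nonneg_iff hf hV ((hbox i).ld _ ht) (hB.ld _ ((hbox i).mem _ ht))
        ((hbox i).pos _ ht)).1 h1)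
    (i := ⟨i₀, hi₀⟩) hw' (hder2 ⟨i₀, hi₀⟩ (w 0) hw')
  have h1 := (lv_pos_iff hf hV ((hbox i₀).ld _ hw) (hB.ld _ ((hbox i₀).mem _ hw))
    ((hbox i₀).pos _ hw)).1 hVp
  have h2 : (cn (w 0) z : E (m + 1)) = w := by rw [hz, cn_tl]
  simp only [h2] at hfin
  rw [hfin] at h1
  exact lt_irrefl _ h1

end

end Pool.Agent.H73
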