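import Pool.Agent.H73.ExclC

/-!
# There are no bad points
-/

set_option autoImplicit false
set_option linter.unusedSectionVars false

open Set Filter Topology Metric Function
open scoped Manifold ContDiff

noncomputable section

namespace Pool.Agent.H73

open Pool.Agent.Y522

variable {m : ℕ} {X Y : Type} [TopologicalSpace X] [T2Space X] [ChartedSpace (E (m + 1)) X]
  [TopologicalSpace Y] [T2Space Y] [ChartedSpace (E (m + 1)) Y] [IsManifold (𝓡 (m + 1)) ∞ X]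
  [IsManifold (𝓡 (m + 1)) ∞ Y]

section

variable {f : X → Y} {σ : X → ℝ} (hf : ContMDiff (𝓡 (m + 1)) (𝓡 (m + 1)) ∞ f)
  (hσ : Sgn (n := m + 1) f σ)
  (hrk : ∀ x, m ≤ Module.finrank ℝ (LinearMap.range (Df (n := m + 1) f x).toLinearMap))

include hf hσ hrk

/-- The set of bad points is open. -/
theorem isOpen_bad [CompactSpace X] : IsOpen {x | Bad (m := m) f σ x} := by
  rw [isOpen_iff_mem_nhds]
  intro x₀ hx₀
  obtain ⟨B₀, hB₀⟩ := exists_chartL (n := m + 1) (f x₀)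
  obtain ⟨T, hT⟩ := exists_lin hB₀ (hrk x₀)
  obtain ⟨B, hBd⟩ : ∃ B : Y → E (m + 1), B = fun y => T (B₀ y) := ⟨_, rfl⟩
  have hB : LD (m + 1) B (f x₀) := by
    rw [hBd]
    exact LD.comp_fun (LD_linear T _) hB₀
  rw [← hBd] at hT
  obtain ⟨O, hO, hxO, -⟩ := exists_chO (f x₀) hB univ_mem
  obtain ⟨y₀, hy₀⟩ : ∃ y₀, y₀ = f x₀ := ⟨_, rfl⟩
  -- the compact set
  obtain ⟨S, hS⟩ : ∃ S : Set X, S = {x | f x = y₀ ∧ Bad (m := m) f σ x ∧
      Surjective (tl.comp (Df B (f x) * Df f x) : E (m + 1) →L[ℝ] E m)} := ⟨_, rfl⟩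
  have hSm : ∀ x, x ∈ S ↔ f x = y₀ ∧ Bad (m := m) f σ x ∧
      Surjective (tl.comp (Df B (f x) * Df f x) : E (m + 1) →L[ℝ] E m) := fun x => by
    rw [hS]
    rfl
  have hx₀S : x₀ ∈ S := (hSm _).2 ⟨hy₀.symm, hx₀, hT⟩
  have hSc : IsClosed S := by
    rw [← isOpen_compl_iff, isOpen_iff_mem_nhds]
    intro x hx
    by_cases hfx : f x = y₀
    · by_cases hxb : Bad (m := m) f σ x
      · have h1 := surj_near hf hσ hrk hxb (B := B) (by rw [hfx, hy₀]; exact hB)
        filter_upwards [h1] with x' hx' hx'S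
        rw [hS] at hx'S
        apply hx
        rw [hS]
        exact ⟨hfx, hxb, (hx' (by rw [hx'S.1, hfx])).1 hx'S.2.2⟩
      · filter_upwards [(isClosed_bad hf hσ hrk).isOpen_compl.mem_nhds hxb] with x' hx' hx'S
        rw [hS] at hx'S
        exact hx' hx'S.2.1
    · filter_upwards [(isClosed_singleton.preimage hf.continuous).isOpen_compl.mem_nhds hfx]
        with x' hx' hx'S
      rw [hS] at hx'S
      exact hx' hx'S.1
  have hex : ∀ x : S, ∃ (A : E (m + 1) → X) (w₀ : E (m + 1)) (r : ℝ), A w₀ = x ∧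
      Box f σ B O A w₀ r := by
    rintro ⟨x, hx⟩
    rw [hS] at hx
    exact exists_box hf hσ hO (by rw [hx.1, hy₀]; exact hxO) hx.2.2
  choose A w₀ r hA hbox using hex
  -- the small boxes
  have hbox' : ∀ i, Box f σ B O (A i) (w₀ i) (r i / 2) := fun i =>
    (hbox i).mono (half_pos (hbox i).r0) (by linarith [(hbox i).r0])
  obtain ⟨U, hU⟩ : ∃ U : X → Set X, U = fun x => ⋃ h : x ∈ S,
      A ⟨x, h⟩ '' ball (w₀ ⟨x, h⟩) (r ⟨x, h⟩ / 2) := ⟨_, rfl⟩
  have hUx : ∀ i : S, U i = A i '' ball (w₀ i) (r i / 2) := by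
    rintro ⟨x, hx⟩
    rw [hU]
    ext y
    simp [hx]
  have hUn : ∀ x ∈ S, U x ∈ 𝓝 x := by
    intro x hx
    have h1 := hUx ⟨x, hx⟩
    have h2 := ((hbox' ⟨x, hx⟩).ld _ (mem_ball_self (hbox' ⟨x, hx⟩).r0)).image_mem_nhds
      (ball_mem_nhds _ (hbox' ⟨x, hx⟩).r0)
    rw [hA] at h2
    change U x ∈ 𝓝 x
    rw [h1]
    exact h2
  obtain ⟨t, htS, htc⟩ := hSc.isCompact.elim_nhds_subcover U hUn
  -- the index type
  obtain ⟨hι, hιd⟩ : ∃ j : {x // x ∈ t} → S, j = fun x => ⟨x, htS x x.2⟩ := ⟨_, rfl⟩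
  have hjU : ∀ x : {x // x ∈ t}, U x = A (hι x) '' ball (w₀ (hι x)) (r (hι x) / 2) := by
    intro x
    rw [← hUx, hιd]
  have hcovS : ∀ x ∈ S, ∃ i, x ∈ A (hι i) '' ball (w₀ (hι i)) (r (hι i) / 2) := by
    intro x hx
    obtain ⟨y, hy, hxy⟩ := mem_iUnion₂.1 (htc hx)
    refine ⟨⟨y, hy⟩, ?_⟩
    rw [← hjU]
    exact hxy
  -- compact neighbourhood
  obtain ⟨K, hK⟩ : ∃ K : Set X, K = ⋃ i, A (hι i) '' closedBall (w₀ (hι i)) (r (hι i) / 2) :=
    ⟨_, rfl⟩
  have hcb : ∀ i : S, closedBall (w₀ i) (r i / 2) ⊆ ball (w₀ i) (r i) := fun i =>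
    closedBall_subset_ball (by linarith [(hbox i).r0])
  have hKc : IsCompact K := by
    rw [hK]
    refine isCompact_iUnion fun i => ?_
    exact (isCompact_closedBall _ _).image_of_continuousOn fun w hw =>
      ((hbox (hι i)).ld w (hcb _ hw)).continuousAt.continuousWithinAt
  obtain ⟨N, hN⟩ : ∃ N : Set X, N = ⋃ i, A (hι i) '' ball (w₀ (hι i)) (r (hι i) / 2) := ⟨_, rfl⟩
  have hNo : IsOpen N := by
    rw [hN]
    exact isOpen_iUnion fun i => isOpen_image_of_LD (n := m + 1) isOpen_ball (hbox' (hι i)).ld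
  obtain ⟨q, hq⟩ : ∃ q : X → E m, q = fun x => tl (B (f x)) := ⟨_, rfl⟩
  have hqc : ContinuousOn q K := by
    intro x hx
    rw [hK] at hx
    obtain ⟨i, w, hw, rfl⟩ := mem_iUnion.1 hx
    have h2 : ContinuousAt (fun x => B (f x)) (A (hι i) w) :=
      (hO.ld _ ((hbox (hι i)).mem w (hcb _ hw))).continuousAt.comp_of_eq
        hf.continuous.continuousAt rfl
    rw [hq]
    exact ((tl : E (m + 1) →L[ℝ] E m).continuous.continuousAt.comp h2).continuousWithinAt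
  obtain ⟨z₀, hz₀⟩ : ∃ z₀ : E m, z₀ = tl (B y₀) := ⟨_, rfl⟩
  have hKS : ∀ x ∈ K, q x = z₀ → x ∈ S := by
    intro x hx hqx
    rw [hK] at hx
    obtain ⟨i, w, hw, rfl⟩ := mem_iUnion.1 hx
    have hw' := hcb _ hw
    have hc := (hSm _).1 (hι i).2
    have hAi := hA (hι i)
    have h0 := (hbox (hι i)).tle _ (mem_ball_self (hbox (hι i)).r0)
    rw [hAi, hc.1, ← hz₀] at h0
    have h1 : (tl w : E m) = z₀ := by
      rw [← (hbox (hι i)).tle w hw', ← hqx, hq]
    have h2 : w = w₀ (hι i) + (w 0 - w₀ (hι i) 0) • e0 := by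
      apply eq_of_head_tl
      · simp [e0_zero]
      · rw [map_add, map_smul, tl_e0, smul_zero, add_zero, h1, h0]
    have ht : |w 0 - w₀ (hι i) 0| < r (hι i) := by
      rw [h2] at hw'
      exact mem_line.1 hw'
    have h3 := bad_line hf hσ hO (hbox (hι i)) (by rw [hAi]; exact hc.2.1) ht
    rw [← h2, hAi, hc.1] at h3
    exact (hSm _).2 ⟨h3.1, h3.2, (hbox (hι i)).surj hf hσ hO hw'⟩
  have hSN : S ⊆ N := by
    intro x hx
    rw [hN, mem_iUnion]
    exact hcovS x hx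
  -- a gap
  obtain ⟨δ, hδ, hgap⟩ : ∃ δ > 0, ∀ x ∈ K, q x ∈ ball z₀ δ → x ∈ N := by
    have h1 : IsClosed (q '' (K \ N)) :=
      ((hKc.diff hNo).image_of_continuousOn (hqc.mono sdiff_subset)).isClosed
    have h2 : z₀ ∉ q '' (K \ N) := by
      rintro ⟨x, hx, hxq⟩
      exact hx.2 (hSN (hKS x hx.1 hxq))
    obtain ⟨δ, hδ, hb⟩ := Metric.mem_nhds_iff.1 (h1.isOpen_compl.mem_nhds h2)
    refine ⟨δ, hδ, fun x hx hxq => ?_⟩
    by_contra hxN
    exact hb hxq ⟨x, ⟨hx, hxN⟩, rfl⟩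
  have hNK : N ⊆ K := by
    rw [hN, hK]
    exact iUnion_mono fun i => image_mono ball_subset_closedBall
  -- conclusion
  have hconc : ∀ x ∈ N, q x ∈ ball z₀ δ → Bad (m := m) f σ x := by
    intro x hx hxq
    have hx' := hx
    rw [hN] at hx'
    obtain ⟨i₀, w, hw, rfl⟩ := mem_iUnion.1 hx'
    refine tube hf hσ hO (fun i => hbox' (hι i)) (z₀ := z₀) (δ := δ)
      (Cz := fun z => K ∩ q ⁻¹' {z}) ?_ ?_ hw ?_
    · intro z _
      exact hKc.of_isClosed_subset (hqc.preimage_isClosed_of_isClosed hKc.isClosed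
        isClosed_singleton) inter_subset_left
    · intro z hz y
      constructor
      · rintro ⟨h1, h2⟩
        have h3 := hgap y h1 (by
          have h4 : q y = z := h2
          rw [h4]
          exact hz)
        rw [hN] at h3
        refine ⟨mem_iUnion.1 h3, ?_⟩
        have h4 : q y = z := h2
        rw [hq] at h4
        exact h4
      · rintro ⟨h1, h2⟩
        have h3 : y ∈ N := by
          rw [hN]
          exact mem_iUnion.2 h1
        refine ⟨hNK h3, ?_⟩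
        change q y = z
        rw [hq]
        exact h2
    · rw [← (hbox' (hι i₀)).tle w hw]
      rw [hq] at hxq
      exact hxq
  have hqx₀ : q x₀ = z₀ := by rw [hq, hz₀, hy₀]
  have hqcx : ContinuousAt q x₀ := by
    refine hqc.continuousAt (mem_of_superset (hNo.mem_nhds (hSN hx₀S)) hNK)
  filter_upwards [hNo.mem_nhds (hSN hx₀S), hqcx (by rw [hqx₀]; exact ball_mem_nhds z₀ hδ)]
    with x h1 h2
  exact hconc x h1 h2

/-- **There are no bad points** if every nonempty open and closed set contains a regular point. -/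
theorem no_bad [CompactSpace X] (hreg : ∀ C : Set X, IsClopen C → C.Nonempty →
    ∃ x ∈ C, LD (m + 1) f x) (x : X) : ¬ Bad (m := m) f σ x := by
  intro hx
  obtain ⟨x', hx', hL⟩ := hreg {x | Bad (m := m) f σ x}
    ⟨isClosed_bad hf hσ hrk, isOpen_bad hf hσ hrk⟩ ⟨x, hx⟩
  exact hx'.1 hL

/-- **Main theorem.** -/
theorem main_perturb [CompactSpace X] (hreg : ∀ C : Set X, IsClopen C → C.Nonempty →
    ∃ x ∈ C, LD (m + 1) f x) {S : Set X} (hS : IsOpen S)
    (hSf : ∀ x, x ∉ S → LD (m + 1) f x) {O : Set (X × Y)} (hO : IsOpen O)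
    (hfO : ∀ x, (x, f x) ∈ O) : ∃ H : C(unitInterval × X, Y), (∀ x, H (0, x) = f x) ∧
      (∀ t x, (x, H (t, x)) ∈ O) ∧ (∀ t x, x ∉ S → H (t, x) = f x) ∧
      ∀ t, 0 < t → ∀ x, LD (m + 1) (fun x => H (t, x)) x :=
  perturb hf hσ (no_bad hf hσ hrk hreg) hS hSf hO hfO

end

end Pool.Agent.H73
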