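import Pool.Agent.H73.Det

/-!
# Families of maps which perturb a given map, and the basic perturbation
-/

set_option autoImplicit false

open Set Filter Topology Metric Function
open scoped Manifold ContDiff

noncomputable section

namespace Pool.Agent.H73

open Pool.Agent.Y522

variable {n : ℕ} {X Y : Type} [TopologicalSpace X] [ChartedSpace (E n) X]
  [TopologicalSpace Y] [ChartedSpace (E n) Y]

/-- families of smooth maps starting with `f` -/
structure Fam (f : X → Y) (G : ℝ → X → Y) : Prop where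
  zero : G 0 = f
  smooth : ∀ ε, ContMDiff (𝓡 n) (𝓡 n) ∞ (G ε)
  cont : Continuous fun p : ℝ × X => G p.1 p.2

/-- the differential of the family `G` is `M (Df + ε N)` in the coordinates `A`, `B` -/
def Dec (f : X → Y) (G : ℝ → X → Y) (A : E n → X) (w₀ : E n) (B : Y → E n)
    (N₀ : E n →L[ℝ] E n) : Prop :=
  ∃ M N : ℝ × E n → (E n →L[ℝ] E n), ContinuousAt M (0, w₀) ∧ M (0, w₀) = 1 ∧
    ContinuousAt N (0, w₀) ∧ N (0, w₀) = N₀ ∧ ∀ᶠ p in 𝓝 ((0 : ℝ), w₀),
      fderiv ℝ (fun w => B (G p.1 (A w))) p.2 =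
        M p * (fderiv ℝ (fun w => B (f (A w))) p.2 + p.1 • N p)

theorem Fam.trivial {f : X → Y} (hf : ContMDiff (𝓡 n) (𝓡 n) ∞ f) :
    Fam (n := n) f (fun _ => f) :=
  ⟨rfl, fun _ => hf, hf.continuous.comp continuous_snd⟩

theorem Dec.trivial (f : X → Y) (A : E n → X) (w₀ : E n) (B : Y → E n) :
    Dec f (fun _ => f) A w₀ B 0 := by
  refine ⟨fun _ => 1, fun _ => 0, continuousAt_const, rfl, continuousAt_const, rfl, ?_⟩
  refine Eventually.of_forall fun p => ?_
  ext v
  simp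

/-- local inverses -/
theorem fderiv_comp_inv {B B' : Y → E n} {q q' : E n → Y} {y : Y}
    (hq : LD n q (B y)) (hqy : q (B y) = y) (hB' : LD n B' y)
    (hq' : LD n q' (B' y)) (hqy' : q' (B' y) = y) (hB : LD n B y)
    (h1 : ∀ᶠ z in 𝓝 y, q' (B' z) = z) (h2 : ∀ᶠ u in 𝓝 (B y), B (q u) = u) :
    fderiv ℝ (fun u => B (q' u)) (B' y) * fderiv ℝ (fun u => B' (q u)) (B y) = 1 := by
  have e1 : LD n (fun u => B' (q u)) (B y) := LD.comp_fun (by rw [hqy]; exact hB') hq
  have e2 : LD n (fun u => B (q' u)) (B' y) := LD.comp_fun (by rw [hqy']; exact hB) hq'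
  have d1 : HasFDerivAt (fun u => B' (q u)) (fderiv ℝ (fun u => B' (q u)) (B y)) (B y) :=
    (e1.contDiffAt.differentiableAt (by simp)).hasFDerivAt
  have d2 : HasFDerivAt (fun u => B (q' u)) (fderiv ℝ (fun u => B (q' u)) (B' y))
      ((fun u => B' (q u)) (B y)) := by
    change HasFDerivAt _ _ (B' (q (B y)))
    rw [hqy]
    exact (e2.contDiffAt.differentiableAt (by simp)).hasFDerivAt
  have d3 := d2.comp (B y) d1
  have d4 : HasFDerivAt ((fun u => B (q' u)) ∘ (fun u => B' (q u)))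
      (ContinuousLinearMap.id ℝ (E n)) (B y) := by
    refine (hasFDerivAt_id (B y)).congr_of_eventuallyEq ?_
    have h3 : ∀ᶠ u in 𝓝 (B y), q' (B' (q u)) = q u :=
      hq.continuousAt.eventually (by rw [hqy]; exact h1)
    filter_upwards [h2, h3] with u hu hu'
    change B (q' (B' (q u))) = u
    rw [hu', hu]
  exact d3.unique d4

/-- change of the chart of the target -/
theorem Dec.change {f : X → Y} {G : ℝ → X → Y} (hG : Fam (n := n) f G) {A : E n → X} {w₀ : E n}
    (hA : LD n A w₀) {B B' : Y → E n} (hB : LD n B (f (A w₀))) (hB' : LD n B' (f (A w₀)))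
    {q : E n → Y} (hq : LD n q (B (f (A w₀)))) (hqy : q (B (f (A w₀))) = f (A w₀))
    (hq1 : ∀ᶠ z in 𝓝 (f (A w₀)), q (B z) = z)
    (hq2 : ∀ᶠ u in 𝓝 (B (f (A w₀))), B (q u) = u)
    {N₀ : E n →L[ℝ] E n} (h : Dec f G A w₀ B N₀) :
    Dec f G A w₀ B' (fderiv ℝ (fun u => B' (q u)) (B (f (A w₀))) * N₀) := by
  obtain ⟨M, N, hM, hM0, hN, hN0, hD⟩ := h
  obtain ⟨q', hq', hqy', hq1', hq2'⟩ := hB'.exists_inverse
  set y₀ := f (A w₀) with hy₀
  -- the point `G ε (A w)`
  have hGc : Tendsto (fun p : ℝ × E n => G p.1 (A p.2)) (𝓝 (0, w₀)) (𝓝 y₀) := by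
    have h1 : ContinuousAt (fun p : ℝ × E n => (p.1, A p.2)) (0, w₀) :=
      continuousAt_fst.prodMk (hA.continuousAt.comp (x := ((0 : ℝ), w₀)) continuousAt_snd)
    have h2 := (hG.cont.continuousAt (x := (0, A w₀))).comp_of_eq h1 rfl
    have h3 : G 0 (A w₀) = y₀ := by rw [hG.zero]
    have h4 := h2.tendsto
    change Tendsto (fun p : ℝ × E n => G p.1 (A p.2)) (𝓝 (0, w₀)) (𝓝 (G 0 (A w₀))) at h4
    rwa [h3] at h4
  have hfc : Tendsto (fun p : ℝ × E n => f (A p.2)) (𝓝 (0, w₀)) (𝓝 y₀) := by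
    have h1 : Continuous f := by
      rw [← hG.zero]
      exact (hG.smooth 0).continuous
    exact (h1.continuousAt.comp hA.continuousAt).tendsto.comp
      (continuousAt_snd (p := ((0 : ℝ), w₀))).tendsto
  have hθ : LD n (fun u => B' (q u)) (B y₀) := LD.comp_fun (by rw [hqy]; exact hB') hq
  have hθ' : LD n (fun u => B (q' u)) (B' y₀) := LD.comp_fun (by rw [hqy']; exact hB) hq'
  have cθ : ContinuousAt (fderiv ℝ (fun u => B' (q u))) (B y₀) :=
    (hθ.contDiffAt.fderiv_right (m := 0) (by simp)).continuousAt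
  have cθ' : ContinuousAt (fderiv ℝ (fun u => B (q' u))) (B' y₀) :=
    (hθ'.contDiffAt.fderiv_right (m := 0) (by simp)).continuousAt
  have t1 : Tendsto (fun p : ℝ × E n => fderiv ℝ (fun u => B' (q u)) (B (G p.1 (A p.2))))
      (𝓝 (0, w₀)) (𝓝 (fderiv ℝ (fun u => B' (q u)) (B y₀))) :=
    cθ.tendsto.comp (hB.continuousAt.tendsto.comp hGc)
  have t2 : Tendsto (fun p : ℝ × E n => fderiv ℝ (fun u => B' (q u)) (B (f (A p.2))))
      (𝓝 (0, w₀)) (𝓝 (fderiv ℝ (fun u => B' (q u)) (B y₀))) :=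
    cθ.tendsto.comp (hB.continuousAt.tendsto.comp hfc)
  have t3 : Tendsto (fun p : ℝ × E n => fderiv ℝ (fun u => B (q' u)) (B' (f (A p.2))))
      (𝓝 (0, w₀)) (𝓝 (fderiv ℝ (fun u => B (q' u)) (B' y₀))) :=
    cθ'.tendsto.comp (hB'.continuousAt.tendsto.comp hfc)
  have einv : fderiv ℝ (fun u => B' (q u)) (B y₀) * fderiv ℝ (fun u => B (q' u)) (B' y₀) = 1 :=
    fderiv_comp_inv hq' hqy' hB hq hqy hB' hq1 hq2'
  refine ⟨fun p => fderiv ℝ (fun u => B' (q u)) (B (G p.1 (A p.2))) * M p *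
      fderiv ℝ (fun u => B (q' u)) (B' (f (A p.2))),
    fun p => fderiv ℝ (fun u => B' (q u)) (B (f (A p.2))) * N p, ?_, ?_, ?_, ?_, ?_⟩
  · have h1 := (t1.mul hM.tendsto).mul t3
    rw [hM0] at h1
    change Tendsto _ _ _
    have h2 : G 0 (A w₀) = y₀ := by rw [hG.zero]
    simp only [h2, hM0]
    exact h1
  · have h2 : G 0 (A w₀) = y₀ := by rw [hG.zero]
    simp only [h2, hM0, mul_one]
    exact einv
  · exact (t2.mul hN.tendsto)
  · change fderiv ℝ (fun u => B' (q u)) (B y₀) * N (0, w₀) = _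
    rw [hN0]
  · have hLDA : ∀ᶠ p in 𝓝 ((0 : ℝ), w₀), LD n A p.2 :=
      (continuousAt_snd (p := ((0 : ℝ), w₀))).eventually hA.eventually
    have e1 : ∀ᶠ z in 𝓝 y₀, LD n B z ∧ LD n B' z ∧ LD n q (B z) ∧ LD n q' (B' z) ∧
        (∀ᶠ z' in 𝓝 z, q (B z') = z') ∧ (∀ᶠ u in 𝓝 (B z), B (q u) = u) ∧
        (∀ᶠ z' in 𝓝 z, q' (B' z') = z') := by
      filter_upwards [hB.eventually, hB'.eventually, hB.continuousAt.eventually hq.eventually,
        hB'.continuousAt.eventually hq'.eventually, hq1.eventually_nhds,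
        hB.continuousAt.eventually hq2.eventually_nhds, hq1'.eventually_nhds]
        with z a b c d e g k
      exact ⟨a, b, c, d, e, g, k⟩
    filter_upwards [hD, hLDA, hGc.eventually e1, hfc.eventually e1] with p hp hAp hGp hfp
    obtain ⟨a1, a2, a3, a4, a5, a6, a7⟩ := hGp
    obtain ⟨b1, b2, b3, b4, b5, b6, b7⟩ := hfp
    -- chain rule along `g`
    have key : ∀ g : X → Y, ContMDiff (𝓡 n) (𝓡 n) ∞ g → LD n B (g (A p.2)) →
        LD n B' (g (A p.2)) → LD n q (B (g (A p.2))) →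
        (∀ᶠ z' in 𝓝 (g (A p.2)), q (B z') = z') →
        fderiv ℝ (fun w => B' (g (A w))) p.2 =
          fderiv ℝ (fun u => B' (q u)) (B (g (A p.2))) * fderiv ℝ (fun w => B (g (A w))) p.2 := by
      intro g hg k1 k2 k3 k4
      have k5 : q (B (g (A p.2))) = g (A p.2) := k4.self_of_nhds
      have k6 : LD n (fun u => B' (q u)) (B (g (A p.2))) :=
        LD.comp_fun (by rw [k5]; exact k2) k3
      have k7 : DifferentiableAt ℝ (fun w => B (g (A w))) p.2 := by
        have k8 : ContMDiffAt (𝓡 n) (𝓡 n) ∞ (fun w => B (g (A w))) p.2 :=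
          k1.contMDiffAt.comp p.2 (hg.contMDiffAt.comp p.2 hAp.contMDiffAt)
        exact (contMDiffAt_iff_contDiffAt.1 k8).differentiableAt (by simp)
      have k9 : HasFDerivAt (fun w => B' (q (B (g (A w)))))
          (fderiv ℝ (fun u => B' (q u)) (B (g (A p.2))) * fderiv ℝ (fun w => B (g (A w))) p.2)
          p.2 :=
        HasFDerivAt.comp (g := fun u => B' (q u)) p.2
          (k6.contDiffAt.differentiableAt (by simp)).hasFDerivAt k7.hasFDerivAt
      refine HasFDerivAt.fderiv (k9.congr_of_eventuallyEq ?_)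
      have k10 : ContinuousAt (fun w => g (A w)) p.2 :=
        hg.continuous.continuousAt.comp hAp.continuousAt
      filter_upwards [k10.eventually k4] with w hw
      rw [hw]
    have h0s : ContMDiff (𝓡 n) (𝓡 n) ∞ f := by
      rw [← hG.zero]
      exact hG.smooth 0
    have hinv : fderiv ℝ (fun u => B (q' u)) (B' (f (A p.2))) *
        fderiv ℝ (fun u => B' (q u)) (B (f (A p.2))) = 1 :=
      fderiv_comp_inv b3 b5.self_of_nhds b2 b4 b7.self_of_nhds b1 b7 b6
    rw [key (G p.1) (hG.smooth p.1) a1 a2 a3 a5, key f h0s b1 b2 b3 b5, hp]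
    have hsplit : fderiv ℝ (fun u => B' (q u)) (B (f (A p.2))) *
          fderiv ℝ (fun w => B (f (A w))) p.2 +
          p.1 • (fderiv ℝ (fun u => B' (q u)) (B (f (A p.2))) * N p) =
        fderiv ℝ (fun u => B' (q u)) (B (f (A p.2))) *
          (fderiv ℝ (fun w => B (f (A w))) p.2 + p.1 • N p) := by
      ext v
      simp
    rw [hsplit]
    simp only [mul_assoc]
    congr 2
    rw [← mul_assoc (fderiv ℝ (fun u => B (q' u)) (B' (f (A p.2)))), hinv, one_mul]

end Pool.Agent.H73
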