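import Pool.Agent.H73.Piece

/-!
# Good and bad singular points
-/

set_option autoImplicit false
set_option linter.unusedSectionVars false

open Set Filter Topology Metric Function
open scoped Manifold ContDiff

noncomputable section

namespace Pool.Agent.H73

open Pool.Agent.Y522

variable {m : ℕ} {X Y : Type} [TopologicalSpace X] [T2Space X] [ChartedSpace (E (m + 1)) X]
  [TopologicalSpace Y] [T2Space Y] [ChartedSpace (E (m + 1)) Y] [IsManifold (𝓡 (m + 1)) ∞ X]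
  [IsManifold (𝓡 (m + 1)) ∞ Y]

/-- the point `x` is good: some direction increases the Jacobian at `x` and does not decrease it at
the other singular points of the fibre -/
def GoodB (f : X → Y) (σ : X → ℝ) (B : Y → E (m + 1)) (x : X) : Prop :=
  ∃ V : X → E (m + 1), ContMDiff (𝓡 (m + 1)) (𝓡 (m + 1)) ∞ V ∧
    (∀ x', f x' = f x → ¬ LD (m + 1) f x' → 0 ≤ lv f σ B V x') ∧ 0 < lv f σ B V x

/-- bad points -/
def Bad (f : X → Y) (σ : X → ℝ) (x : X) : Prop :=
  ¬ LD (m + 1) f x ∧ ∀ B : Y → E (m + 1), LD (m + 1) B (f x) → ¬ GoodB f σ B x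

theorem Df_change {B B' : Y → E (m + 1)} {y : Y} (hB : LD (m + 1) B y) (hB' : LD (m + 1) B' y) :
    ∃ R : E (m + 1) →L[ℝ] E (m + 1), R.det ≠ 0 ∧ Df (n := m + 1) B' y = R * Df B y := by
  obtain ⟨L, hL, -⟩ := Df_isUnit hB
  refine ⟨Df (n := m + 1) B' y * L, ?_, ?_⟩
  · have h1 : (Df (n := m + 1) B' y * L).det * (Df (n := m + 1) B y).det =
        (Df (n := m + 1) B' y).det := by
      rw [← det_mul', mul_assoc, hL, mul_one]
    intro h0
    rw [h0, zero_mul] at h1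
    exact Df_det_ne hB' h1.symm
  · rw [mul_assoc, hL, mul_one]

theorem GoodB.chart {f : X → Y} {σ : X → ℝ} {B B' : Y → E (m + 1)} {x : X}
    (hB : LD (m + 1) B (f x)) (hB' : LD (m + 1) B' (f x)) (h : GoodB f σ B x) :
    GoodB f σ B' x := by
  obtain ⟨V, hV, h1, h2⟩ := h
  obtain ⟨R, hR0, hR⟩ := Df_change hB hB'
  have h3 : 0 < R.det ^ 2 := by positivity
  refine ⟨fun x => R (V x), smooth_lin hV R, fun x' hx' hx'L => ?_, ?_⟩
  · rw [lv_lin σ hV R x' (by rw [hx']; exact hR)]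
    exact mul_nonneg h3.le (h1 x' hx' hx'L)
  · rw [lv_lin σ hV R x hR]
    exact mul_pos h3 h2

theorem bad_iff {f : X → Y} {σ : X → ℝ} {B : Y → E (m + 1)} {x : X}
    (hB : LD (m + 1) B (f x)) : Bad (m := m) f σ x ↔ ¬ LD (m + 1) f x ∧ ¬ GoodB f σ B x :=
  ⟨fun h => ⟨h.1, h.2 B hB⟩, fun h => ⟨h.1, fun _ hB' hG => h.2 (hG.chart hB' hB)⟩⟩

/-- points of the box in the fibre of the centre -/
theorem Box.on_line {f : X → Y} {σ : X → ℝ} {B : Y → E (m + 1)} {O : Set Y}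
    {A : E (m + 1) → X} {w₀ : E (m + 1)} {r : ℝ} (h : Box f σ B O A w₀ r)
    {w : E (m + 1)} (hw : w ∈ ball w₀ r) (hfw : f (A w) = f (A w₀)) :
    ∃ t, |t| < r ∧ w = w₀ + t • e0 := by
  have h1 := h.tle w hw
  have h2 := h.tle w₀ (mem_ball_self h.r0)
  rw [hfw, h2] at h1
  have h3 : w = w₀ + (w 0 - w₀ 0) • e0 := by
    have e1 : w = w 0 • e0 + cn 0 (tl w) := by rw [← cn_eq, cn_tl]
    have e2 : w₀ = w₀ 0 • e0 + cn 0 (tl w₀) := by rw [← cn_eq, cn_tl]
    rw [← h1] at e1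
    calc w = w 0 • e0 + cn 0 (tl w₀) := e1
      _ = (w₀ 0 • e0 + cn 0 (tl w₀)) + (w 0 - w₀ 0) • e0 := by module
      _ = w₀ + (w 0 - w₀ 0) • e0 := by rw [← e2]
  refine ⟨w 0 - w₀ 0, ?_, h3⟩
  rw [h3] at hw
  exact mem_line.1 hw

section

variable {f : X → Y} {σ : X → ℝ} (hf : ContMDiff (𝓡 (m + 1)) (𝓡 (m + 1)) ∞ f)
  (hσ : Sgn (n := m + 1) f σ)

include hf hσ

theorem good_aux {B : Y → E (m + 1)} {O : Set Y} (hB : ChO B O) {A : E (m + 1) → X}
    {w₀ : E (m + 1)} {r : ℝ} (h : Box f σ B O A w₀ r)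
    (hsing : ¬ LD (m + 1) f (A w₀)) {t₁ : ℝ} (ht₁ : |t₁| < r) (ht₁0 : t₁ ≠ 0)
    {V₁ : X → E (m + 1)} (hV₁ : ContMDiff (𝓡 (m + 1)) (𝓡 (m + 1)) ∞ V₁)
    (hV₁0 : ∀ x', f x' = f (A w₀) → ¬ LD (m + 1) f x' → 0 ≤ lv f σ B V₁ x') {c₀ : ℝ}
    (hc₀ : 0 < c₀)
    (hev : ∀ᶠ t in 𝓝 t₁, f (A (w₀ + t • e0)) = f (A w₀) → ¬ LD (m + 1) f (A (w₀ + t • e0)) →
      c₀ ≤ dd (fderiv ℝ (fun w => B (f (A w))) (w₀ + t • e0))
        (fderiv ℝ (fun w => V₁ (A w)) (w₀ + t • e0))) : GoodB f σ B (A w₀) := by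
  have hx₀ : w₀ ∈ ball w₀ r := mem_ball_self h.r0
  obtain ⟨η₀, hη₀, hball⟩ := Metric.eventually_nhds_iff_ball.1 hev
  obtain ⟨η, hη, hη1, hη2, hη3⟩ : ∃ η : ℝ, 0 < η ∧ η ≤ |t₁| ∧ |t₁| + η < r ∧ η ≤ η₀ := by
    have h1 : 0 < |t₁| := abs_pos.2 ht₁0
    refine ⟨min (|t₁|) (min ((r - |t₁|) / 2) η₀), lt_min h1 (lt_min (by linarith) hη₀),
      min_le_left _ _, ?_, (min_le_right _ _).trans (min_le_right _ _)⟩
    have h2 : min (|t₁|) (min ((r - |t₁|) / 2) η₀) ≤ (r - |t₁|) / 2 :=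
      (min_le_right _ _).trans (min_le_left _ _)
    linarith
  obtain ⟨V, φ, hV, hφc, hVoff, hVφ, hφ0, hφ⟩ := exists_piece hf hB h hη hη1 hη2
  obtain ⟨C, hC⟩ : ∃ C, ∀ t ∈ Icc (t₁ - η) (t₁ + η), |φ t| ≤ C := by
    obtain ⟨C, hC⟩ := isCompact_Icc.exists_bound_of_continuousOn
      (s := Icc (t₁ - η) (t₁ + η)) hφc.continuousOn
    exact ⟨C, fun t ht => hC t ht⟩
  obtain ⟨κ, hκ⟩ : ∃ κ, κ = c₀ / (|C| + 1) := ⟨_, rfl⟩
  have hκ0 : 0 < κ := by rw [hκ]; positivity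
  have hκV : ContMDiff (𝓡 (m + 1)) (𝓡 (m + 1)) ∞ fun x => κ • V x :=
    (contMDiff_const (I' := 𝓘(ℝ, ℝ)) (c := κ)).smul hV
  have hsum : ContMDiff (𝓡 (m + 1)) (𝓡 (m + 1)) ∞ fun x => V₁ x + κ • V x := hV₁.add hκV
  refine ⟨fun x => V₁ x + κ • V x, hsum, ?_, ?_⟩
  · intro x' hx' hx'L
    by_cases hx'A : x' ∈ A '' ball w₀ r
    · obtain ⟨w, hw, rfl⟩ := hx'A
      obtain ⟨t, ht, hwt⟩ := h.on_line hw hx'
      subst hwt
      have hAw := h.ld _ hw
      have hBw := hB.ld _ (h.mem _ hw)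
      have hsw := h.pos _ hw
      rw [lv_nonneg_iff hf hsum hAw hBw hsw]
      have e1 : fderiv ℝ (fun w => V₁ (A w) + κ • V (A w)) (w₀ + t • e0) =
          fderiv ℝ (fun w => V₁ (A w)) (w₀ + t • e0) +
            κ • fderiv ℝ (fun w => V (A w)) (w₀ + t • e0) := by
        have d1 : DifferentiableAt ℝ (fun w => V₁ (A w)) (w₀ + t • e0) :=
          (contMDiffAt_iff_contDiffAt.1 ((hV₁ _).comp _ hAw.contMDiffAt)).differentiableAt
            (by simp)
        have d2 : DifferentiableAt ℝ (fun w => V (A w)) (w₀ + t • e0) :=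
          (contMDiffAt_iff_contDiffAt.1 ((hV _).comp _ hAw.contMDiffAt)).differentiableAt
            (by simp)
        exact (d1.hasFDerivAt.add (d2.hasFDerivAt.const_smul κ)).fderiv
      rw [e1, dd_add, dd_smul, hVφ t ht]
      have h1 : 0 ≤ dd (fderiv ℝ (fun w => B (f (A w))) (w₀ + t • e0))
          (fderiv ℝ (fun w => V₁ (A w)) (w₀ + t • e0)) :=
        (lv_nonneg_iff hf hV₁ hAw hBw hsw).1 (hV₁0 _ hx' hx'L)
      rcases le_or_gt η |t - t₁| with h2 | h2
      · exact add_nonneg h1 (mul_nonneg hκ0.le (hφ t h2))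
      · have h3 := hball t (by
          rw [mem_ball, Real.dist_eq]
          linarith) hx' hx'L
        have h4 : |φ t| ≤ C := hC t (by
          rw [abs_lt] at h2
          constructor <;> linarith [h2.1, h2.2])
        have h5 : -|C| ≤ φ t := by
          have := abs_le.1 (h4.trans (le_abs_self C))
          exact this.1
        have h6 : κ * (|C| + 1) = c₀ := by
          rw [hκ]
          field_simp
        nlinarith
    · rw [lv_add σ B hV₁ hκV, lv_smul σ B hV, lv_off σ B (hVoff x' hx'A), mul_zero, add_zero]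
      exact hV₁0 x' hx' hx'L
  · rw [lv_add σ B hV₁ hκV, lv_smul σ B hV]
    have h1 : 0 < lv f σ B V (A w₀) := by
      rw [lv_pos_iff hf hV (h.ld _ hx₀) (hB.ld _ (h.mem _ hx₀)) (h.pos _ hx₀)]
      have h2 := hVφ 0 (by rw [abs_zero]; exact h.r0)
      rw [zero_smul, add_zero] at h2
      rw [h2]
      exact hφ0
    exact add_pos_of_nonneg_of_pos (hV₁0 (A w₀) rfl hsing) (mul_pos hκ0 h1)

theorem good_of_line {B : Y → E (m + 1)} {O : Set Y} (hB : ChO B O) {A : E (m + 1) → X}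
    {w₀ : E (m + 1)} {r : ℝ} (h : Box f σ B O A w₀ r)
    (hsing : ¬ LD (m + 1) f (A w₀)) {t₁ : ℝ} (ht₁ : |t₁| < r) (ht₁0 : t₁ ≠ 0)
    (hcase : f (A (w₀ + t₁ • e0)) ≠ f (A w₀) ∨ LD (m + 1) f (A (w₀ + t₁ • e0)) ∨
      GoodB f σ B (A (w₀ + t₁ • e0))) : GoodB f σ B (A w₀) := by
  have hw₁ : w₀ + t₁ • e0 ∈ ball w₀ r := mem_line.2 ht₁
  have hline : ContinuousAt (fun t : ℝ => w₀ + t • (e0 : E (m + 1))) t₁ := by fun_prop
  have hAc : ContinuousAt (fun t : ℝ => A (w₀ + t • e0)) t₁ :=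
    (h.ld _ hw₁).continuousAt.comp_of_eq hline rfl
  have h0s : ContMDiff (𝓡 (m + 1)) (𝓡 (m + 1)) ∞ (fun _ : X => (0 : E (m + 1))) :=
    contMDiff_const
  rcases hcase with h1 | h1 | ⟨V₁, hV₁, h1, h2⟩
  · refine good_aux hf hσ hB h hsing ht₁ ht₁0 h0s (fun x' _ _ => ?_) one_pos ?_
    · rw [lv_off σ B (Eventually.of_forall fun _ => rfl)]
    · have h2 : ∀ᶠ t in 𝓝 t₁, f (A (w₀ + t • e0)) ≠ f (A w₀) :=
        (hf.continuous.continuousAt.comp hAc).eventually_ne h1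
      filter_upwards [h2] with t ht ht'
      exact absurd ht' ht
  · refine good_aux hf hσ hB h hsing ht₁ ht₁0 h0s (fun x' _ _ => ?_) one_pos ?_
    · rw [lv_off σ B (Eventually.of_forall fun _ => rfl)]
    · have h2 : ∀ᶠ t in 𝓝 t₁, LD (m + 1) f (A (w₀ + t • e0)) := hAc.eventually h1.eventually
      filter_upwards [h2] with t ht _ ht'
      exact absurd ht ht'
  · by_cases hfe : f (A (w₀ + t₁ • e0)) = f (A w₀)
    · have h3 := (lv_pos_iff hf hV₁ (h.ld _ hw₁) (hB.ld _ (h.mem _ hw₁)) (h.pos _ hw₁)).1 h2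
      refine good_aux hf hσ hB h hsing ht₁ ht₁0 hV₁ (fun x' hx' hx'L => ?_) (half_pos h3) ?_
      · exact h1 x' (by rw [hx', hfe]) hx'L
      · have h4 : ContinuousAt (fun w' => dd (fderiv ℝ (fun w => B (f (A w))) w')
            (fderiv ℝ (fun w => V₁ (A w)) w')) (w₀ + t₁ • e0) := by
          have hVA : ContDiffAt ℝ ∞ (fun w => V₁ (A w)) (w₀ + t₁ • e0) :=
            contMDiffAt_iff_contDiffAt.1 ((hV₁ _).comp _ (h.ld _ hw₁).contMDiffAt)
          exact ContinuousAt.comp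
            (g := fun p : (E (m + 1) →L[ℝ] E (m + 1)) × (E (m + 1) →L[ℝ] E (m + 1)) =>
              dd p.1 p.2) continuous_dd.continuousAt
            (((smooth_coord hf (h.ld _ hw₁) (hB.ld _ (h.mem _ hw₁))).fderiv_right (m := 0)
              (by simp)).continuousAt.prodMk (hVA.fderiv_right (m := 0) (by simp)).continuousAt)
        have h5 := (h4.comp_of_eq hline rfl).eventually (lt_mem_nhds (half_lt_self h3))
        filter_upwards [h5] with t ht _ _
        exact ht.le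
    · refine good_aux hf hσ hB h hsing ht₁ ht₁0 h0s (fun x' _ _ => ?_) one_pos ?_
      · rw [lv_off σ B (Eventually.of_forall fun _ => rfl)]
      · have h2 : ∀ᶠ t in 𝓝 t₁, f (A (w₀ + t • e0)) ≠ f (A w₀) :=
          (hf.continuous.continuousAt.comp hAc).eventually_ne hfe
        filter_upwards [h2] with t ht ht'
        exact absurd ht' ht

/-- the whole line of a box through a bad point is bad -/
theorem bad_line {B : Y → E (m + 1)} {O : Set Y} (hB : ChO B O) {A : E (m + 1) → X}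
    {w₀ : E (m + 1)} {r : ℝ} (h : Box f σ B O A w₀ r) (hbad : Bad (m := m) f σ (A w₀)) {t : ℝ}
    (ht : |t| < r) : f (A (w₀ + t • e0)) = f (A w₀) ∧ Bad (m := m) f σ (A (w₀ + t • e0)) := by
  have hB0 : LD (m + 1) B (f (A w₀)) := hB.ld _ (h.mem _ (mem_ball_self h.r0))
  have hBt : LD (m + 1) B (f (A (w₀ + t • e0))) := hB.ld _ (h.mem _ (mem_line.2 ht))
  by_cases ht0 : t = 0
  · subst ht0
    rw [zero_smul, add_zero]
    exact ⟨rfl, hbad⟩
  · obtain ⟨h1, h2⟩ := (bad_iff hB0).1 hbad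
    rw [bad_iff hBt]
    by_contra hcon
    apply h2
    apply good_of_line hf hσ hB h h1 ht ht0
    by_contra hcon'
    push Not at hcon'
    exact hcon ⟨hcon'.1, hcon'.2.1, hcon'.2.2⟩

/-- simultaneous directions -/
theorem exists_comb {B : Y → E (m + 1)} {y : Y} (hB : LD (m + 1) B y) {K : Set X}
    (hK : IsCompact K) (hKy : ∀ x ∈ K, f x = y) (hKg : ∀ x ∈ K, GoodB f σ B x) :
    ∃ V : X → E (m + 1), ContMDiff (𝓡 (m + 1)) (𝓡 (m + 1)) ∞ V ∧
      (∀ x', f x' = y → ¬ LD (m + 1) f x' → 0 ≤ lv f σ B V x') ∧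
      ∀ x ∈ K, ¬ LD (m + 1) f x → 0 < lv f σ B V x := by
  have key := hK.induction_on (p := fun T => ∃ V : X → E (m + 1),
    ContMDiff (𝓡 (m + 1)) (𝓡 (m + 1)) ∞ V ∧
      (∀ x', f x' = y → ¬ LD (m + 1) f x' → 0 ≤ lv f σ B V x') ∧
      ∀ x ∈ T, f x = y → ¬ LD (m + 1) f x → 0 < lv f σ B V x) ?_ ?_ ?_ ?_
  · obtain ⟨V, hV, h1, h2⟩ := key
    exact ⟨V, hV, h1, fun x hx => h2 x hx (hKy x hx)⟩
  · refine ⟨fun _ => 0, contMDiff_const, fun x' _ _ => ?_, fun x hx => absurd hx (notMem_empty x)⟩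
    rw [lv_off σ B (Eventually.of_forall fun _ => rfl)]
  · rintro s t hst ⟨V, hV, h1, h2⟩
    exact ⟨V, hV, h1, fun x hx => h2 x (hst hx)⟩
  · rintro s t ⟨V, hV, h1, h2⟩ ⟨V', hV', h1', h2'⟩
    refine ⟨fun x => V x + V' x, hV.add hV', fun x' hx' hL => ?_, fun x hx hxy hL => ?_⟩
    · rw [lv_add σ B hV hV']
      exact add_nonneg (h1 x' hx' hL) (h1' x' hx' hL)
    · rw [lv_add σ B hV hV']
      rcases hx with hx | hx
      · exact add_pos_of_pos_of_nonneg (h2 x hx hxy hL) (h1' x hxy hL)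
      · exact add_pos_of_nonneg_of_pos (h1 x hxy hL) (h2' x hx hxy hL)
  · intro x hx
    obtain ⟨V, hV, h1, h2⟩ := hKg x hx
    have h3 := lv_open hσ hf hV (by rw [hKy x hx]; exact hB) h2
    refine ⟨{x' | 0 < lv f σ B V x'}, mem_nhdsWithin_of_mem_nhds h3, V, hV, ?_, ?_⟩
    · intro x' hx'
      exact h1 x' (by rw [hx', hKy x hx])
    · intro x' hx' _ _
      exact hx'

theorem isClosed_sing : IsClosed {x | ¬ LD (m + 1) f x} := by
  rw [← isOpen_compl_iff, isOpen_iff_mem_nhds]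
  intro x hx
  have h1 : LD (m + 1) f x := not_not.1 hx
  filter_upwards [h1.eventually] with z hz
  exact not_not.2 hz

/-- near a fibre -/
theorem ev_fibre [CompactSpace X] {y : Y} {P : X → Prop} (h : ∀ x, f x = y → ∀ᶠ x' in 𝓝 x, P x') :
    ∀ᶠ y' in 𝓝 y, ∀ x, f x = y' → P x := by
  have h1 : IsClosed (f '' (interior {x | P x})ᶜ) :=
    (isOpen_interior.isClosed_compl.isCompact.image hf.continuous).isClosed
  have h2 : y ∉ f '' (interior {x | P x})ᶜ := by
    rintro ⟨x, hx, hxy⟩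
    exact hx (mem_interior_iff_mem_nhds.2 (h x hxy))
  filter_upwards [h1.isOpen_compl.mem_nhds h2] with y' hy' x hx
  by_contra hP
  exact hy' ⟨x, fun h3 => hP (interior_subset h3), hx⟩

/-- the data of the perturbation, when there are no bad points -/
theorem exists_data [CompactSpace X] (hno : ∀ x, ¬ Bad (m := m) f σ x) {S : Set X} (hS : IsOpen S)
    (hSf : ∀ x, x ∉ S → LD (m + 1) f x) (y : Y) :
    ∃ (B : Y → E (m + 1)) (V : X → E (m + 1)), LD (m + 1) B y ∧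
      ContMDiff (𝓡 (m + 1)) (𝓡 (m + 1)) ∞ V ∧ (∀ x, x ∉ S → V x = 0) ∧
      ∀ᶠ y' in 𝓝 y, ∀ x, f x = y' → ∃ N ∈ QP (m := m) f σ x, Df B (f x) * N = Df V x := by
  obtain ⟨B, hB⟩ := exists_chartL (n := m + 1) y
  have hKc : IsClosed {x | f x = y ∧ ¬ LD (m + 1) f x} :=
    (isClosed_singleton.preimage hf.continuous).inter (isClosed_sing hf hσ)
  have hK : IsCompact {x | f x = y ∧ ¬ LD (m + 1) f x} := hKc.isCompact
  obtain ⟨V, hV, -, hVp⟩ := exists_comb hf hσ hB hK (fun x hx => hx.1) (fun x hx => by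
    by_contra hG
    exact hno x ((bad_iff (by rw [hx.1]; exact hB)).2 ⟨hx.2, hG⟩))
  have hint : {x | f x = y ∧ ¬ LD (m + 1) f x} ⊆ interior S := by
    rw [hS.interior_eq]
    intro x hx
    by_contra hxS
    exact hx.2 (hSf x hxS)
  obtain ⟨χ, hχ1, hχ0, hχI⟩ := exists_contMDiffMap_one_nhds_of_subset_interior
    (n := (⊤ : ℕ∞)) (𝓡 (m + 1)) hKc hint
  have hχV : ContMDiff (𝓡 (m + 1)) (𝓡 (m + 1)) ∞ fun x => χ x • V x := χ.contMDiff.smul hV
  refine ⟨B, fun x => χ x • V x, hB, hχV, fun x hx => ?_, ?_⟩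
  · change χ x • V x = 0
    rw [hχ0 x hx, zero_smul]
  · have h1 : ∀ x, f x = y → ∀ᶠ x' in 𝓝 x, LD (m + 1) B (f x') ∧
        (LD (m + 1) f x' ∨ 0 < lv f σ B (fun x => χ x • V x) x') := by
      intro x hx
      have h2 : ∀ᶠ x' in 𝓝 x, LD (m + 1) B (f x') :=
        hf.continuous.continuousAt.eventually (by rw [hx]; exact hB.eventually)
      by_cases hL : LD (m + 1) f x
      · filter_upwards [h2, hL.eventually] with x' a b
        exact ⟨a, Or.inl b⟩
      · have h3 : lv f σ B (fun x => χ x • V x) x = lv f σ B V x := by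
          apply lv_congr
          have h4 := (eventually_nhdsSet_iff_forall.1 hχ1) x ⟨hx, hL⟩
          filter_upwards [h4] with x' hx'
          rw [hx', one_smul]
        have h5 := lv_open hσ hf hχV (by rw [hx]; exact hB) (by
          rw [h3]
          exact hVp x ⟨hx, hL⟩ hL)
        filter_upwards [h2, h5] with x' a b
        exact ⟨a, Or.inr b⟩
    filter_upwards [ev_fibre hf hσ h1] with y' hy' x hx
    obtain ⟨h2, h3⟩ := hy' x hx
    obtain ⟨L, hL1, hL2⟩ := Df_isUnit h2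
    refine ⟨L * Df (n := m + 1) (fun x => χ x • V x) x, ?_, ?_⟩
    · rcases h3 with h3 | h3
      · exact Or.inl h3
      · right
        have e1 : Df (n := m + 1) B (f x) * (L * Df (n := m + 1) (fun x => χ x • V x) x) =
            Df (n := m + 1) (fun x => χ x • V x) x := by
          rw [← mul_assoc, hL2, one_mul]
        unfold lv at h3
        rw [← e1] at h3
        have e2 : ∀ b a v : E (m + 1) →L[ℝ] E (m + 1), dd (b * a) (b * v) = b.det * dd a v :=
          fun b a v => dd_comp_left b a v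
        rw [e2] at h3
        have h4 : 0 < (Df (n := m + 1) B (f x)).det ^ 2 := by
          have := Df_det_ne h2
          positivity
        have h5 : σ x * (Df (n := m + 1) B (f x)).det * ((Df (n := m + 1) B (f x)).det *
            dd (Df (n := m + 1) f x) (L * Df (n := m + 1) (fun x => χ x • V x) x)) =
            (Df (n := m + 1) B (f x)).det ^ 2 * (σ x * dd (Df (n := m + 1) f x)
              (L * Df (n := m + 1) (fun x => χ x • V x) x)) := by ring
        rw [h5] at h3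
        exact (pos_iff_pos_of_mul_pos h3).1 h4
    · rw [← mul_assoc, hL2, one_mul]

/-- **Perturbation of maps without bad points.** -/
theorem perturb [CompactSpace X] (hno : ∀ x, ¬ Bad (m := m) f σ x) {S : Set X} (hS : IsOpen S)
    (hSf : ∀ x, x ∉ S → LD (m + 1) f x) {O : Set (X × Y)} (hO : IsOpen O)
    (hfO : ∀ x, (x, f x) ∈ O) : ∃ H : C(unitInterval × X, Y), (∀ x, H (0, x) = f x) ∧
      (∀ t x, (x, H (t, x)) ∈ O) ∧ (∀ t x, x ∉ S → H (t, x) = f x) ∧
      ∀ t, 0 < t → ∀ x, LD (m + 1) (fun x => H (t, x)) x := by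
  obtain ⟨F, hF, hFN, hFS⟩ := exists_fam hf (Q0 (m := m) f σ) (QP (m := m) f σ)
    (fun x => Or.inr (by rw [dd_zero, mul_zero]))
    (fun x a ha b hb => by
      rcases ha with ha | ha
      · exact Or.inl ha
      rcases hb with hb | hb
      · exact Or.inl hb
      right
      rw [dd_add, mul_add]
      exact add_pos_of_pos_of_nonneg ha hb)
    (fun x a ha => ha.imp id le_of_lt)
    (fun x a ha t ht => by
      rcases ha with ha | ha
      · exact Or.inl ha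
      right
      rw [dd_smul]
      have := mul_pos ht ha
      linarith [this, mul_left_comm (σ x) t (dd (Df (n := m + 1) f x) a)])
    S (exists_data hf hσ hno hS hSf)
  exact hF.path (fun x => by
    obtain ⟨N, hN, hD⟩ := hFN x
    exact loc_QP hσ hF hD hN) hO hfO hFS

end

end Pool.Agent.H73
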