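import Pool.Agent.H73.Orient
import Pool.Graph.R_pool_sql_team_seeded_2aa45f1a.Q131.CM.Cov

/-!
# Covering maps and diffeomorphisms near maps of corank one without folds
-/

set_option autoImplicit false
set_option linter.unusedSectionVars false

open Set Filter Topology Metric Function
open scoped Manifold ContDiff

noncomputable section

namespace Pool.Agent.H73

open Pool.Agent.Y522

section cover

variable {n : ℕ} {X Y : Type} [TopologicalSpace X] [T2Space X] [CompactSpace X]
  [ChartedSpace (E n) X] [IsManifold (𝓡 n) ∞ X] [TopologicalSpace Y] [T2Space Y]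
  [ChartedSpace (E n) Y] [IsManifold (𝓡 n) ∞ Y]

/-- conclusion from a homotopy through local diffeomorphisms -/
theorem conclude (H : C(unitInterval × X, Y)) {f : X → Y} (h0 : ∀ x, H (0, x) = f x)
    {t : unitInterval} (hl : ∀ x, LD n (fun x => H (t, x)) x) :
    IsCoveringMap (fun x => H (t, x)) ∧
      ((ConnectedSpace X ∧ SimplyConnectedSpace Y) ∨
        (∃ (h : X ≃ₜ Y) (G : C(unitInterval × X, Y)), (∀ x, G (0, x) = f x) ∧
          ∀ x, G (1, x) = h x) →
        ∃ Φ : Diffeomorph (𝓡 n) (𝓡 n) X Y ∞, ∀ x, Φ x = H (t, x)) := by
  let g : C(X, Y) := ⟨fun x => H (t, x), by fun_prop⟩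
  have hgl : ∀ x, LD n g x := hl
  have hloc : IsLocalHomeomorph g := Pool.Agent.Q131.CM.isLocalHomeomorph_of_LD hgl
  have hcov : IsCoveringMap g := isLocalHomeomorph_iff_isCoveringMap.1 hloc
  refine ⟨hcov, fun hyp => ?_⟩
  have hb : Bijective g := by
    rcases hyp with ⟨hX, hY⟩ | ⟨h, G, hG0, hG1⟩
    · have : LocallyPathConnectedSpace X := ChartedSpace.locallyPathConnectedSpace (E n) X
      have hX' : PathConnectedSpace X := pathConnectedSpace_iff_connectedSpace.2 hX
      exact Pool.Agent.Q131.CM.bij_of_simplyConnected g hloc
    · have hfc : Continuous f := by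
        have h1 : f = fun x => H (0, x) := by
          funext x
          exact (h0 x).symm
        rw [h1]
        fun_prop
      let f' : C(X, Y) := ⟨f, hfc⟩
      let h' : C(X, Y) := ⟨h, h.continuous⟩
      have a1 : ContinuousMap.Homotopic f' g :=
        ⟨{ toFun := fun p => H (p.1 * t, p.2)
           continuous_toFun := by fun_prop
           map_zero_left := fun x => by
             change H (0 * t, x) = f x
             rw [zero_mul]
             exact h0 x
           map_one_left := fun x => by
             change H (1 * t, x) = H (t, x)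
             rw [one_mul] }⟩
      have a2 : ContinuousMap.Homotopic f' h' :=
        ⟨{ toFun := fun p => G p
           continuous_toFun := by fun_prop
           map_zero_left := fun x => hG0 x
           map_one_left := fun x => hG1 x }⟩
      exact Pool.Agent.Q131.CM.bij_of_homotopic_homeo h g h' (fun x => rfl) hloc (a1.symm.trans a2)
  have h1 : IsLocalDiffeomorph (𝓡 n) (𝓡 n) ∞ g := hgl
  exact ⟨h1.diffeomorphOfBijective hb, fun x => rfl⟩

end cover

end Pool.Agent.H73
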