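import Pool.Agent.H73.Step

/-!
# Gluing the perturbations
-/

set_option autoImplicit false
set_option linter.unusedSectionVars false

open Set Filter Topology Metric Function
open scoped Manifold ContDiff

noncomputable section

namespace Pool.Agent.H73

open Pool.Agent.Y522

section basic

variable {n : ℕ} {X Y Z : Type} [TopologicalSpace X] [ChartedSpace (E n) X]
  [TopologicalSpace Y] [ChartedSpace (E n) Y] [TopologicalSpace Z] [ChartedSpace (E n) Z]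

/-- the differential, in the preferred charts -/
def Df (f : X → Y) (x : X) : E n →L[ℝ] E n := mfderiv (𝓡 n) (𝓡 n) f x

theorem Df_comp {f : X → Y} {g : Y → Z} {x : X} (hg : MDifferentiableAt (𝓡 n) (𝓡 n) g (f x))
    (hf : MDifferentiableAt (𝓡 n) (𝓡 n) f x) :
    Df (n := n) (fun x => g (f x)) x = Df g (f x) * Df f x := mfderiv_comp x hg hf

theorem Df_eq_fderiv {f : E n → E n} {w : E n} : Df f w = fderiv ℝ f w := mfderiv_eq_fderiv

theorem Df_congr {f g : X → Y} {x : X} (h : f =ᶠ[𝓝 x] g) : Df (n := n) f x = Df g x :=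
  h.mfderiv_eq

variable [IsManifold (𝓡 n) ∞ X] [IsManifold (𝓡 n) ∞ Y]

theorem LD.mdiff {f : X → Y} {x : X} (hf : LD n f x) : MDifferentiableAt (𝓡 n) (𝓡 n) f x :=
  hf.contMDiffAt.mdifferentiableAt (by simp)

theorem Df_isUnit {f : X → Y} {x : X} (hf : LD n f x) :
    ∃ L : E n →L[ℝ] E n, L * Df f x = 1 ∧ Df f x * L = 1 := by
  obtain ⟨q, hq, hqy, h1, h2⟩ := hf.exists_inverse
  refine ⟨Df q (f x), ?_, ?_⟩
  · rw [← Df_comp (LD.mdiff hq) (LD.mdiff hf)]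
    have h3 : (fun y => q (f y)) =ᶠ[𝓝 x] fun y => y := h1
    rw [Df_congr h3]
    exact mfderiv_id
  · have h4 : MDifferentiableAt (𝓡 n) (𝓡 n) f (q (f x)) := by
      rw [hqy]
      exact LD.mdiff hf
    have h5 := Df_comp h4 (LD.mdiff hq)
    rw [hqy] at h5
    rw [← h5]
    have h3 : (fun y => f (q y)) =ᶠ[𝓝 (f x)] fun y => y := h2
    rw [Df_congr h3]
    exact mfderiv_id

theorem det_one : (1 : E n →L[ℝ] E n).det = 1 := LinearMap.det_id

theorem det_mul' (A B : E n →L[ℝ] E n) : (A * B).det = A.det * B.det := det_mul A B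

theorem Df_det_ne {f : X → Y} {x : X} (hf : LD n f x) : (Df (n := n) f x).det ≠ 0 := by
  obtain ⟨L, hL, -⟩ := Df_isUnit hf
  intro h
  have h1 := congrArg ContinuousLinearMap.det hL
  rw [det_mul', h, mul_zero, det_one] at h1
  exact zero_ne_one h1

/-- the invariant form of the decomposition -/
def IDec (f : X → Y) (G : ℝ → X → Y) (x : X) (N : E n →L[ℝ] E n) : Prop :=
  ∀ (A : E n → X) (w₀ : E n) (B : Y → E n), A w₀ = x → LD n A w₀ → LD n B (f x) →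
    Dec f G A w₀ B (Df B (f x) * N * Df A w₀)

theorem IDec.trivial (f : X → Y) (x : X) : IDec (n := n) f (fun _ => f) x 0 := by
  intro A w₀ B hA hAL hB
  rw [mul_zero, zero_mul]
  exact Dec.trivial f A w₀ B

section

variable {c : Y → E n} {p : E n → Y} {W : Set Y} {u₁ : E n} {ρ : ℝ} {β : E n → ℝ} {V : X → E n}

theorem PD.idec_off [T2Space Y] (h : PD n c p W u₁ ρ β V) {f : X → Y} {G : ℝ → X → Y}
    (hG : Fam (n := n) f G) {x : X} {N : E n →L[ℝ] E n}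
    (hx : f x ∉ p '' closedBall u₁ (2 * ρ)) (hD : IDec f G x N) :
    IDec f (pert c p W u₁ ρ β V G) x N := by
  intro A w₀ B hA hAL hB
  refine h.dec_off hG hAL (by rwa [hA]) (hD A w₀ B hA hAL hB)

theorem PD.idec_on (h : PD n c p W u₁ ρ β V) {f : X → Y} {G : ℝ → X → Y}
    (hG : Fam (n := n) f G) (hGp : Fam (n := n) f (pert c p W u₁ ρ β V G)) {x : X}
    {N N' : E n →L[ℝ] E n} (hx : f x ∈ W)
    (hD : IDec f G x N) (hN' : Df c (f x) * N' = Df V x) :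
    IDec f (pert c p W u₁ ρ β V G) x (N + β (c (f x)) • N') := by
  intro A w₀ B hA hAL hB
  subst hA
  have h1 := h.dec_on hG hAL hx (hD A w₀ c rfl hAL (h.hc _ hx))
  obtain ⟨q, hq, hqy, hq1, hq2⟩ := (h.hc _ hx).exists_inverse
  have h2 := h1.change hGp hAL (h.hc _ hx) hB hq hqy hq1 hq2
  have e1 : fderiv ℝ (fun w => V (A w)) w₀ = Df V (A w₀) * Df A w₀ := by
    rw [← Df_eq_fderiv]
    exact Df_comp ((h.hV _).mdifferentiableAt (by simp)) (LD.mdiff hAL)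
  have e2 : fderiv ℝ (fun u => B (q u)) (c (f (A w₀))) * Df c (f (A w₀)) = Df B (f (A w₀)) := by
    have h3 : LD n (fun u => B (q u)) (c (f (A w₀))) :=
      LD.comp_fun (by rw [hqy]; exact hB) hq
    rw [← Df_eq_fderiv, ← Df_comp (LD.mdiff h3) (LD.mdiff (h.hc _ hx))]
    refine Df_congr ?_
    filter_upwards [hq1] with z hz
    rw [hz]
  have e3 : fderiv ℝ (fun u => B (q u)) (c (f (A w₀))) *
      (Df c (f (A w₀)) * N * Df A w₀ + β (c (f (A w₀))) • fderiv ℝ (fun w => V (A w)) w₀) =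
      Df B (f (A w₀)) * (N + β (c (f (A w₀))) • N') * Df A w₀ := by
    rw [e1, ← hN', ← e2]
    ext1 v
    simp
  rw [e3] at h2
  exact h2

end

/-- the existence of the data -/
theorem PD.exists_of [CompactSpace X] {y₀ : Y} {B : Y → E n} (hB : LD n B y₀) {V : X → E n}
    (hV : ContMDiff (𝓡 n) (𝓡 n) ∞ V) {O : Set Y} (hO : O ∈ 𝓝 y₀) :
    ∃ (p : E n → Y) (W : Set Y) (u₁ : E n) (ρ : ℝ) (β : E n → ℝ) (η : ℝ), 0 < η ∧
      PD n B p W u₁ ρ β (fun x => η • V x) ∧ W ⊆ O ∧ (∀ u, 0 ≤ β u) ∧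
      ∀ᶠ y in 𝓝 y₀, y ∈ W ∧ 0 < β (B y) := by
  obtain ⟨p, hp, hpy, hp1, hp2⟩ := hB.exists_inverse
  obtain ⟨W, hW⟩ : ∃ W, W = interior {y | y ∈ O ∧ LD n B y ∧ p (B y) = y} := ⟨_, rfl⟩
  have hWn : W ∈ 𝓝 y₀ := by
    rw [hW]
    apply interior_mem_nhds.2
    filter_upwards [hO, hB.eventually, hp1] with y a b c
    exact ⟨a, b, c⟩
  have hWsub : ∀ y ∈ W, y ∈ O ∧ LD n B y ∧ p (B y) = y := by
    intro y hy
    rw [hW] at hy
    have h1 : y ∈ {y | y ∈ O ∧ LD n B y ∧ p (B y) = y} := interior_subset hy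
    exact h1
  have h1 : ∀ᶠ u in 𝓝 (B y₀), p u ∈ W ∧ B (p u) = u := by
    have h2 : ∀ᶠ u in 𝓝 (B y₀), p u ∈ W := hp.continuousAt (by rw [hpy]; exact hWn)
    exact h2.and hp2
  obtain ⟨r, hr, hball⟩ := Metric.eventually_nhds_iff_ball.1 h1
  obtain ⟨ρ, hρ⟩ : ∃ ρ, ρ = r / 4 := ⟨_, rfl⟩
  have hρ0 : 0 < ρ := by rw [hρ]; linarith
  let b : ContDiffBump (B y₀) := ⟨ρ, 2 * ρ, hρ0, by linarith⟩
  obtain ⟨C, hC⟩ : ∃ C, ∀ x, ‖V x‖ ≤ C := by
    obtain ⟨C, hC⟩ := (isCompact_range hV.continuous).isBounded.exists_norm_le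
    exact ⟨C, fun x => hC _ ⟨x, rfl⟩⟩
  obtain ⟨η, hη⟩ : ∃ η, η = ρ / (|C| + 1) := ⟨_, rfl⟩
  have hη0 : 0 < η := by rw [hη]; positivity
  refine ⟨p, W, B y₀, ρ, b, η, hη0, ?_, fun y hy => (hWsub y hy).1, fun u => b.nonneg, ?_⟩
  · refine ⟨by rw [hW]; exact isOpen_interior, fun y hy => (hWsub y hy).2.1,
      fun y hy => (hWsub y hy).2.2, ?_, hρ0, b.contDiff, ?_, ?_, ?_⟩
    · intro u hu
      apply hball
      rw [mem_ball_iff_norm]
      linarith
    · intro u hu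
      apply b.zero_of_le_dist
      rw [dist_eq_norm]
      exact hu.le
    · exact (contMDiff_const (I' := 𝓘(ℝ, ℝ)) (c := η)).smul hV
    · intro u x
      rw [norm_smul, norm_smul, Real.norm_of_nonneg b.nonneg, Real.norm_of_nonneg hη0.le]
      have h3 : b u ≤ 1 := b.le_one
      have h4 : ‖V x‖ ≤ |C| + 1 := (hC x).trans ((le_abs_self C).trans (by linarith))
      calc b u * (η * ‖V x‖) ≤ 1 * (η * (|C| + 1)) := by
            refine mul_le_mul h3 (mul_le_mul_of_nonneg_left h4 hη0.le) (by positivity)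
              zero_le_one
        _ = ρ := by rw [hη]; field_simp
  · have h2 : ∀ᶠ y in 𝓝 y₀, B y ∈ closedBall (B y₀) ρ :=
      hB.continuousAt (closedBall_mem_nhds _ hρ0)
    filter_upwards [hWn, h2] with y hy hy2
    exact ⟨hy, by rw [b.one_of_mem_closedBall hy2]; exact one_pos⟩

/-- **The family.** -/
theorem exists_fam [T2Space Y] [CompactSpace X] {f : X → Y} (hf : ContMDiff (𝓡 n) (𝓡 n) ∞ f)
    (Q0 Qp : X → Set (E n →L[ℝ] E n)) (h0 : ∀ x, 0 ∈ Q0 x)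
    (haddp : ∀ x, ∀ a ∈ Qp x, ∀ b ∈ Q0 x, a + b ∈ Qp x)
    (hp0 : ∀ x, Qp x ⊆ Q0 x)
    (hsmp : ∀ x, ∀ a ∈ Qp x, ∀ t : ℝ, 0 < t → t • a ∈ Qp x)
    (S : Set X)
    (hdata : ∀ y, ∃ (B : Y → E n) (V : X → E n), LD n B y ∧ ContMDiff (𝓡 n) (𝓡 n) ∞ V ∧
      (∀ x, x ∉ S → V x = 0) ∧ ∀ᶠ y' in 𝓝 y, ∀ x, f x = y' →
        ∃ N ∈ Qp x, Df B (f x) * N = Df V x) :
    ∃ F : ℝ → X → Y, Fam (n := n) f F ∧ (∀ x, ∃ N ∈ Qp x, IDec f F x N) ∧
      ∀ ε x, x ∉ S → F ε x = f x := by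
  have hK : IsCompact (range f) := isCompact_range hf.continuous
  have key := hK.induction_on (p := fun T => ∀ G : ℝ → X → Y, Fam (n := n) f G →
    (∀ ε x, x ∉ S → G ε x = f x) → ∃ F : ℝ → X → Y, Fam (n := n) f F ∧
      (∀ ε x, x ∉ S → F ε x = f x) ∧ ∀ x, ∀ N ∈ Q0 x, IDec f G x N → ∃ N' ∈ Q0 x,
        IDec f F x N' ∧ (N ∈ Qp x → N' ∈ Qp x) ∧ (f x ∈ T → N' ∈ Qp x)) ?_ ?_ ?_ ?_
  · obtain ⟨F, hF, hFS, hFN⟩ := key (fun _ => f) (Fam.trivial hf) (fun _ _ _ => rfl)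
    refine ⟨F, hF, fun x => ?_, hFS⟩
    obtain ⟨N', hN'0, hN', -, hN'p⟩ := hFN x 0 (h0 x) (IDec.trivial f x)
    exact ⟨N', hN'p ⟨x, rfl⟩, hN'⟩
  · intro G hG hGS
    exact ⟨G, hG, hGS, fun x N hN hD => ⟨N, hN, hD, id, fun h => absurd h (notMem_empty _)⟩⟩
  · intro s t hst ht G hG hGS
    obtain ⟨F, hF, hFS, hFN⟩ := ht G hG hGS
    refine ⟨F, hF, hFS, fun x N hN hD => ?_⟩
    obtain ⟨N', a, b, c, d⟩ := hFN x N hN hD
    exact ⟨N', a, b, c, fun h => d (hst h)⟩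
  · intro s t hs ht G hG hGS
    obtain ⟨F, hF, hFS, hFN⟩ := hs G hG hGS
    obtain ⟨F', hF', hFS', hFN'⟩ := ht F hF hFS
    refine ⟨F', hF', hFS', fun x N hN hD => ?_⟩
    obtain ⟨N', a, b, c, d⟩ := hFN x N hN hD
    obtain ⟨N'', a', b', c', d'⟩ := hFN' x N' a b
    refine ⟨N'', a', b', fun h => c' (c h), ?_⟩
    rintro (h | h)
    · exact c' (d h)
    · exact d' h
  · rintro y -
    obtain ⟨B, V, hB, hV, hVS, hev⟩ := hdata y
    obtain ⟨p, W, u₁, ρ, β, η, hη, hPD, hWO, hβ, hnear⟩ := PD.exists_of (X := X) hB hV hev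
    refine ⟨{y | y ∈ W ∧ 0 < β (B y)}, mem_nhdsWithin_of_mem_nhds hnear, ?_⟩
    intro G hG hGS
    have hF := hPD.fam hG
    refine ⟨_, hF, fun ε x hx => ?_, fun x N hN hD => ?_⟩
    · change Psi B p W u₁ ρ β (fun x => η • V x) (cl ε) x (G ε x) = f x
      rw [hPD.psi_V _ (by rw [hVS x hx, smul_zero]), hGS ε x hx]
    · by_cases hx : f x ∈ W
      · obtain ⟨N₁, hN₁, hN₁e⟩ := hWO hx x rfl
        have e1 : Df (n := n) (fun x => η • V x) x = η • Df V x := by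
          have h1 : MDifferentiableAt (𝓡 n) (𝓡 n) V x := (hV x).mdifferentiableAt (by simp)
          exact (h1.hasMFDerivAt.const_smul η).mfderiv
        have h1 : Df B (f x) * (η • N₁) = Df (n := n) (fun x => η • V x) x := by
          rw [e1, ← hN₁e]
          ext1 v
          simp
        have h2 := hPD.idec_on hG hF hx hD h1
        have h3 : η • N₁ ∈ Qp x := hsmp x _ hN₁ η hη
        rcases (hβ (B (f x))).eq_or_lt with h4 | h4
        · refine ⟨N, hN, ?_, id, ?_⟩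
          · have h5 : N + β (B (f x)) • η • N₁ = N := by
              rw [← h4]
              ext1 v
              simp
            rwa [h5] at h2
          · rintro ⟨-, h5⟩
            rw [← h4] at h5
            exact absurd h5 (lt_irrefl _)
        · have h5 : N + β (B (f x)) • η • N₁ ∈ Qp x := by
            rw [add_comm]
            exact haddp x _ (hsmp x _ h3 _ h4) _ hN
          exact ⟨_, hp0 x h5, h2, fun _ => h5, fun _ => h5⟩
      · refine ⟨N, hN, hPD.idec_off hG (fun h => hx (hPD.subW h)) hD, id, ?_⟩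
        rintro ⟨h, -⟩
        exact absurd h hx

/-- a criterion for local diffeomorphisms in coordinates -/
theorem LD_of_det {g : X → Y} (hg : ContMDiff (𝓡 n) (𝓡 n) ∞ g) {A : E n → X} {w : E n}
    {B : Y → E n} (hA : LD n A w) (hB : LD n B (g (A w)))
    (hd : (fderiv ℝ (fun w => B (g (A w))) w).det ≠ 0) : LD n g (A w) := by
  have h1 : LD n (fun w => B (g (A w))) w := by
    apply Pool.Agent.Y207.SH3.LD_of_pos
    · have h2 : ContinuousAt (fun w => g (A w)) w :=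
        hg.continuous.continuousAt.comp hA.continuousAt
      filter_upwards [hA.eventually, h2.eventually hB.eventually] with z h3 h4
      exact contMDiffAt_iff_contDiffAt.1 (h4.contMDiffAt.comp z ((hg _).comp z h3.contMDiffAt))
    · intro u hu h0
      apply hd
      have h3 : LinearMap.ker (fderiv ℝ (fun w => B (g (A w))) w : E n →ₗ[ℝ] E n) ≠ ⊥ := by
        intro h4
        have h5 : u ∈ LinearMap.ker (fderiv ℝ (fun w => B (g (A w))) w : E n →ₗ[ℝ] E n) := h0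
        rw [h4] at h5
        have h6 : u = 0 := h5
        rw [h6, norm_zero] at hu
        exact zero_ne_one hu
      by_contra h4
      apply h3
      have h5 : IsUnit (LinearMap.det (fderiv ℝ (fun w => B (g (A w))) w : E n →ₗ[ℝ] E n)) :=
        isUnit_iff_ne_zero.2 h4
      exact LinearMap.ker_eq_bot.2
        ((LinearEquiv.ofIsUnitDet (v := (EuclideanSpace.basisFun (Fin n) ℝ).toBasis)
          (v' := (EuclideanSpace.basisFun (Fin n) ℝ).toBasis)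
          (f := (fderiv ℝ (fun w => B (g (A w))) w : E n →ₗ[ℝ] E n))
          (by rwa [LinearMap.det_toMatrix])).injective)
  obtain ⟨a, ha, haw, ha1, ha2⟩ := hA.exists_inverse
  obtain ⟨q, hq, hqy, hq1, hq2⟩ := hB.exists_inverse
  have h2 : LD n (fun x => q (B (g (A (a x))))) (A w) := by
    have h3 : LD n (fun x => B (g (A (a x)))) (A w) :=
      LD.comp_fun (g := fun w => B (g (A w))) (by rw [haw]; exact h1) ha
    exact LD.comp_fun (g := q) (by rw [haw]; exact hq) h3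
  refine h2.congr ?_
  have h4 : ∀ᶠ x in 𝓝 (A w), q (B (g x)) = g x := hg.continuous.continuousAt.eventually hq1
  filter_upwards [ha2, h4] with x hx hx'
  rw [hx, hx']

/-- uniform smallness -/
theorem Fam.exists_small [CompactSpace X] {f : X → Y} {F : ℝ → X → Y} (hF : Fam (n := n) f F)
    (hloc : ∀ x, ∀ᶠ q in 𝓝 ((0 : ℝ), x), 0 < q.1 → LD n (F q.1) q.2)
    {O : Set (X × Y)} (hO : IsOpen O) (hfO : ∀ x, (x, f x) ∈ O) :
    ∃ ε, 0 < ε ∧ ∀ s ∈ Ioc 0 ε, (∀ x, LD n (F s) x) ∧ ∀ x, (x, F s x) ∈ O := by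
  have h1 : ∀ᶠ ε in 𝓝[>] (0 : ℝ), ∀ x ∈ (univ : Set X), LD n (F ε) x ∧ (x, F ε x) ∈ O := by
    apply Pool.Agent.Y170.NA.ev_compact isCompact_univ
    intro x _
    rw [nhdsWithin_univ]
    have h2 : ∀ᶠ q in 𝓝 ((0 : ℝ), x), (q.2, F q.1 q.2) ∈ O := by
      have h3 : ContinuousAt (fun q : ℝ × X => (q.2, F q.1 q.2)) (0, x) :=
        continuousAt_snd.prodMk hF.cont.continuousAt
      refine h3.eventually (hO.mem_nhds ?_)
      change (x, F 0 x) ∈ O
      rw [hF.zero]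
      exact hfO x
    have h4 : 𝓝[>] (0 : ℝ) ×ˢ 𝓝 x ≤ 𝓝 ((0 : ℝ), x) := by
      rw [nhds_prod_eq]
      exact Filter.prod_mono nhdsWithin_le_nhds le_rfl
    have h5 : ∀ᶠ q : ℝ × X in 𝓝[>] (0 : ℝ) ×ˢ 𝓝 x, 0 < q.1 :=
      (eventually_mem_nhdsWithin (a := (0 : ℝ)) (s := Ioi 0)).prod_inl _
    filter_upwards [h4 (hloc x), h4 h2, h5] with q a b c
    exact ⟨a c, b⟩
  obtain ⟨ε, hε0, hε⟩ := mem_nhdsGT_iff_exists_Ioc_subset.1 h1
  exact ⟨ε, hε0, fun s hs => ⟨fun x => (hε hs x (mem_univ x)).1, fun x => (hε hs x (mem_univ x)).2⟩⟩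

/-- the path of perturbations -/
theorem Fam.path [CompactSpace X] {f : X → Y} {F : ℝ → X → Y} (hF : Fam (n := n) f F)
    (hloc : ∀ x, ∀ᶠ q in 𝓝 ((0 : ℝ), x), 0 < q.1 → LD n (F q.1) q.2)
    {O : Set (X × Y)} (hO : IsOpen O) (hfO : ∀ x, (x, f x) ∈ O) {S : Set X}
    (hS : ∀ ε x, x ∉ S → F ε x = f x) :
    ∃ H : C(unitInterval × X, Y), (∀ x, H (0, x) = f x) ∧ (∀ t x, (x, H (t, x)) ∈ O) ∧
      (∀ t x, x ∉ S → H (t, x) = f x) ∧ ∀ t, 0 < t → ∀ x, LD n (fun x => H (t, x)) x := by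
  obtain ⟨ε, hε, h1⟩ := hF.exists_small hloc hO hfO
  refine ⟨⟨fun p => F (p.1 * ε) p.2, ?_⟩, ?_, ?_, ?_, ?_⟩
  · exact hF.cont.comp (f := fun p : unitInterval × X => ((p.1 : ℝ) * ε, p.2)) (by fun_prop)
  · intro x
    change F ((0 : unitInterval) * ε) x = f x
    rw [show ((0 : unitInterval) : ℝ) = 0 from rfl, zero_mul, hF.zero]
  · intro t x
    change (x, F (t * ε) x) ∈ O
    rcases t.2.1.eq_or_lt with ht | ht
    · rw [← ht, zero_mul, hF.zero]
      exact hfO x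
    · exact (h1 _ ⟨mul_pos ht hε, mul_le_of_le_one_left hε.le t.2.2⟩).2 x
  · intro t x hx
    exact hS _ x hx
  · intro t ht x
    have ht' : (0 : ℝ) < t := ht
    exact (h1 _ ⟨mul_pos ht' hε, mul_le_of_le_one_left hε.le t.2.2⟩).1 x

end basic

end Pool.Agent.H73
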