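import Pool.Agent.H73.ExclD

/-!
# Signs from local or global orientation hypotheses
-/

set_option autoImplicit false
set_option linter.unusedSectionVars false

open Set Filter Topology Metric Function
open scoped Manifold ContDiff

noncomputable section

namespace Pool.Agent.H73

open Pool.Agent.Y522

section general

variable {n : ℕ} {X Y : Type} [TopologicalSpace X] [ChartedSpace (E n) X]
  [TopologicalSpace Y] [ChartedSpace (E n) Y] [IsManifold (𝓡 n) ∞ X] [IsManifold (𝓡 n) ∞ Y]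

theorem continuousAt_det_fderiv {g : E n → E n} {w : E n} (hg : ContDiffAt ℝ ∞ g w) :
    ContinuousAt (fun w => (fderiv ℝ g w).det) w :=
  ContinuousLinearMap.continuous_det.continuousAt.comp
    (hg.fderiv_right (m := 0) (by simp)).continuousAt

theorem eventually_pos_mul {g : E n → E n} {w : E n} (hg : ContDiffAt ℝ ∞ g w)
    (h : (fderiv ℝ g w).det ≠ 0) :
    ∀ᶠ w' in 𝓝 w, 0 < (fderiv ℝ g w).det * (fderiv ℝ g w').det := by
  have h1 : ContinuousAt (fun w' => (fderiv ℝ g w).det * (fderiv ℝ g w').det) w :=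
    continuousAt_const.mul (continuousAt_det_fderiv hg)
  exact h1.eventually (lt_mem_nhds (mul_self_pos.2 h))

/-- comparison of two charts -/
theorem sgB {B B' : Y → E n} {y : Y} (hB : LD n B y) (hB' : LD n B' y) :
    ∀ᶠ y' in 𝓝 y, 0 < ((Df (n := n) B y).det * (Df (n := n) B' y).det) *
      ((Df (n := n) B y').det * (Df (n := n) B' y').det) := by
  obtain ⟨b, hb, hby, hb1, hb2⟩ := hB'.exists_inverse
  have hg : LD n (fun z => B (b z)) (B' y) := LD.comp_fun (by rw [hby]; exact hB) hb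
  have hgd : ContDiffAt ℝ ∞ (fun z => B (b z)) (B' y) := hg.contDiffAt
  have key : ∀ᶠ y' in 𝓝 y, LD n B' y' ∧ (Df (n := n) B y') =
      fderiv ℝ (fun z => B (b z)) (B' y') * Df B' y' := by
    have h1 : ∀ᶠ y' in 𝓝 y, ∀ᶠ z in 𝓝 y', b (B' z) = z := hb1.eventually_nhds
    have h2 : ∀ᶠ y' in 𝓝 y, LD n (fun z => B (b z)) (B' y') :=
      hB'.continuousAt.eventually hg.eventually
    filter_upwards [h1, h2, hB'.eventually] with y' a c d
    refine ⟨d, ?_⟩
    have e1 : Df (n := n) (fun z => B (b (B' z))) y' =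
        Df (fun z => B (b z)) (B' y') * Df B' y' :=
      Df_comp (g := fun z => B (b z)) (LD.mdiff c) (LD.mdiff d)
    rw [Df_eq_fderiv] at e1
    rw [← e1]
    refine Df_congr ?_
    filter_upwards [a] with z hz
    rw [hz]
  have hk := key.self_of_nhds
  have h0 : (fderiv ℝ (fun z => B (b z)) (B' y)).det ≠ 0 := by
    have := Df_det_ne hg
    rwa [Df_eq_fderiv] at this
  have h3 := hB'.continuousAt.eventually (eventually_pos_mul hgd h0)
  filter_upwards [key, h3] with y' ⟨a, c⟩ d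
  rw [c, hk.2, det_mul', det_mul']
  have h4 := Df_det_ne hB'
  have h5 := Df_det_ne a
  have h6 : 0 < ((Df (n := n) B' y).det) ^ 2 * ((Df (n := n) B' y').det) ^ 2 := by positivity
  have h7 := mul_pos d h6
  nlinarith [h7]

/-- comparison of two parametrizations -/
theorem sgA {A A' : E n → X} {w w₁ : E n} (hA : LD n A w) (hA' : LD n A' w₁) (h : A' w₁ = A w) :
    ∃ k : E n → E n, Tendsto k (𝓝 w) (𝓝 w₁) ∧ ∀ᶠ w' in 𝓝 w, A' (k w') = A w' ∧
      LD n A' (k w') ∧ 0 < ((Df (n := n) A w).det * (Df (n := n) A' w₁).det) *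
      ((Df (n := n) A w').det * (Df (n := n) A' (k w')).det) := by
  obtain ⟨a, ha, haw, ha1, ha2⟩ := hA'.exists_inverse
  rw [h] at ha haw ha2
  have hg : LD n (fun z => a (A z)) w := LD.comp_fun ha hA
  have hgd : ContDiffAt ℝ ∞ (fun z => a (A z)) w := hg.contDiffAt
  have ht : Tendsto (fun z => a (A z)) (𝓝 w) (𝓝 w₁) := by
    have := hg.continuousAt.tendsto
    simp only [haw] at this
    exact this
  refine ⟨fun z => a (A z), ht, ?_⟩
  have h1 : ∀ᶠ w' in 𝓝 w, ∀ᶠ z in 𝓝 w', A' (a (A z)) = A z :=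
    (hA.continuousAt.eventually ha2).eventually_nhds
  have key : ∀ᶠ w' in 𝓝 w, (A' (a (A w')) = A w') ∧ LD n A' (a (A w')) ∧
      (Df (n := n) A w') = Df A' (a (A w')) * fderiv ℝ (fun z => a (A z)) w' := by
    filter_upwards [h1, ht.eventually hA'.eventually, hg.eventually] with w' b c d
    refine ⟨b.self_of_nhds, c, ?_⟩
    have e1 : Df (n := n) (fun z => A' (a (A z))) w' =
        Df A' (a (A w')) * Df (fun z => a (A z)) w' :=
      Df_comp (g := A') (f := fun z => a (A z)) (LD.mdiff c) (LD.mdiff d)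
    rw [Df_eq_fderiv (f := fun z => a (A z))] at e1
    rw [← e1]
    refine Df_congr ?_
    filter_upwards [b] with z hz
    rw [hz]
  have hk := key.self_of_nhds
  simp only [haw] at hk
  have h0 : (fderiv ℝ (fun z => a (A z)) w).det ≠ 0 := by
    have := Df_det_ne hg
    rwa [Df_eq_fderiv] at this
  filter_upwards [key, eventually_pos_mul hgd h0] with w' ⟨b, c, d⟩ e
  refine ⟨b, c, ?_⟩
  rw [d, hk.2.2, det_mul', det_mul']
  have h4 := Df_det_ne hA'
  have h5 := Df_det_ne c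
  have h6 : 0 < ((Df (n := n) A' w₁).det) ^ 2 * ((Df (n := n) A' (a (A w'))).det) ^ 2 := by
    positivity
  have h7 := mul_pos e h6
  nlinarith [h7]

/-- the Jacobian is nonnegative near `x` in suitable coordinates -/
def JNN (n : ℕ) {X Y : Type} [TopologicalSpace X] [ChartedSpace (E n) X]
    [TopologicalSpace Y] [ChartedSpace (E n) Y] (f : X → Y) (x : X) : Prop :=
  ∃ (A : E n → X) (B : Y → E n), A 0 = x ∧ LD n A 0 ∧ LD n B (f x) ∧
    ∀ᶠ z in 𝓝 (0 : E n), 0 ≤ (fderiv ℝ (fun p => B (f (A p))) z).det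

theorem exists_sgn_of_JNN {f : X → Y} (hf : ContMDiff (𝓡 n) (𝓡 n) ∞ f)
    (hJ : ∀ x, JNN n f x) (hd : Dense {x | LD n f x}) :
    ∃ σ : X → ℝ, Sgn (n := n) f σ := by
  choose A' B' h0 hA' hB' hnn using hJ
  -- the key lemma
  have K : ∀ (A : E n → X) (B : Y → E n) (w : E n), LD n A w → LD n B (f (A w)) →
      ∀ᶠ w' in 𝓝 w, 0 ≤ sg f (fun x => (Df (n := n) (A' x) 0).det *
        (Df (n := n) (B' x) (f x)).det) A B w * (fderiv ℝ (fun w => B (f (A w))) w').det := by
    intro A B w hA hB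
    obtain ⟨k, hk, hk1⟩ := sgA hA (hA' (A w)) (h0 (A w))
    have hfA : ContinuousAt (fun w => f (A w)) w := hf.continuous.continuousAt.comp hA.continuousAt
    have h1 := hfA.eventually (sgB hB (hB' (A w)))
    have h2 : ∀ᶠ w' in 𝓝 w, LD n B (f (A w')) := hfA.eventually hB.eventually
    have h3 : ∀ᶠ w' in 𝓝 w, LD n (B' (A w)) (f (A w')) := hfA.eventually (hB' (A w)).eventually
    filter_upwards [hk1, h1, h2, h3, hA.eventually, hk.eventually (hnn (A w))]
      with w' ⟨a1, a2, a3⟩ b c d e g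
    rw [fderiv_coord hf a2 (by rw [a1]; exact d), det_mul', det_mul', a1] at g
    rw [fderiv_coord hf e c, det_mul', det_mul']
    change 0 ≤ (Df (n := n) (A' (A w)) 0).det * (Df (n := n) (B' (A w)) (f (A w))).det *
      (Df (n := n) A w).det * (Df (n := n) B (f (A w))).det *
      ((Df (n := n) B (f (A w'))).det * (Df (n := n) f (A w')).det * (Df (n := n) A w').det)
    have h4 := mul_pos a3 b
    obtain ⟨p1, hp1⟩ : ∃ p, p = (Df (n := n) A w).det := ⟨_, rfl⟩
    obtain ⟨p2, hp2⟩ : ∃ p, p = (Df (n := n) (A' (A w)) 0).det := ⟨_, rfl⟩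
    obtain ⟨p3, hp3⟩ : ∃ p, p = (Df (n := n) A w').det := ⟨_, rfl⟩
    obtain ⟨p4, hp4⟩ : ∃ p, p = (Df (n := n) (A' (A w)) (k w')).det := ⟨_, rfl⟩
    obtain ⟨q1, hq1⟩ : ∃ p, p = (Df (n := n) B (f (A w))).det := ⟨_, rfl⟩
    obtain ⟨q2, hq2⟩ : ∃ p, p = (Df (n := n) (B' (A w)) (f (A w))).det := ⟨_, rfl⟩
    obtain ⟨q3, hq3⟩ : ∃ p, p = (Df (n := n) B (f (A w'))).det := ⟨_, rfl⟩
    obtain ⟨q4, hq4⟩ : ∃ p, p = (Df (n := n) (B' (A w)) (f (A w'))).det := ⟨_, rfl⟩
    obtain ⟨d1, hd1⟩ : ∃ p, p = (Df (n := n) f (A w')).det := ⟨_, rfl⟩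
    rw [← hp1, ← hp2, ← hp3, ← hp4, ← hq1, ← hq2, ← hq3, ← hq4] at h4
    rw [← hp4, ← hq4, ← hd1] at g
    rw [← hp1, ← hp2, ← hp3, ← hq1, ← hq2, ← hq3, ← hd1]
    have hne : p4 * q4 ≠ 0 := by
      intro h5
      have : p1 * p2 * (p3 * p4) * (q1 * q2 * (q3 * q4)) =
        (p1 * p2 * p3 * q1 * q2 * q3) * (p4 * q4) := by ring
      rw [this, h5, mul_zero] at h4
      exact lt_irrefl _ h4
    have h6 : 0 ≤ (p1 * p2 * (p3 * p4) * (q1 * q2 * (q3 * q4))) * (q4 * d1 * p4) :=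
      mul_nonneg h4.le g
    have h7 : (p1 * p2 * (p3 * p4) * (q1 * q2 * (q3 * q4))) * (q4 * d1 * p4) =
        (p2 * q2 * p1 * q1 * (q3 * d1 * p3)) * (p4 * q4) ^ 2 := by ring
    rw [h7] at h6
    have h8 : 0 < (p4 * q4) ^ 2 := by positivity
    exact nonneg_of_mul_nonneg_left h6 h8
  have hne : ∀ x, (Df (n := n) (A' x) 0).det * (Df (n := n) (B' x) (f x)).det ≠ 0 := by
    intro x
    exact mul_ne_zero (Df_det_ne (hA' x)) (Df_det_ne (hB' x))
  refine ⟨_, hne, ?_, ?_⟩
  · intro A B w hA hB hs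
    have hfA : ContinuousAt (fun w => f (A w)) w := hf.continuous.continuousAt.comp hA.continuousAt
    have h2 : ∀ᶠ w' in 𝓝 w, LD n B (f (A w')) := hfA.eventually hB.eventually
    have h3 : ∀ᶠ w' in 𝓝 w, ∀ᶠ w'' in 𝓝 w', 0 ≤ (fderiv ℝ (fun w => B (f (A w))) w'').det := by
      refine Eventually.eventually_nhds ?_
      filter_upwards [K A B w hA hB] with w' a
      exact nonneg_of_mul_nonneg_right a hs
    filter_upwards [h2, h3, hA.eventually] with w' a b c
    by_contra hcon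
    have hs0 : sg f (fun x => (Df (n := n) (A' x) 0).det *
        (Df (n := n) (B' x) (f x)).det) A B w' ≠ 0 :=
      mul_ne_zero (mul_ne_zero (hne _) (Df_det_ne c)) (Df_det_ne a)
    have hs1 := lt_of_le_of_ne (not_lt.1 hcon) hs0
    have hfA' : ContinuousAt (fun w => f (A w)) w' :=
      hf.continuous.continuousAt.comp c.continuousAt
    have h4 : ∀ᶠ w'' in 𝓝 w', (fderiv ℝ (fun w => B (f (A w))) w'').det = 0 ∧
        LD n B (f (A w'')) ∧ LD n A w'' := by
      filter_upwards [K A B w' c a, b, hfA'.eventually a.eventually, c.eventually] with w'' d e g h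
      refine ⟨?_, g, h⟩
      refine le_antisymm ?_ e
      by_contra h5
      have h6 := mul_neg_of_neg_of_pos hs1 (not_le.1 h5)
      exact absurd d (not_le.2 h6)
    obtain ⟨N, hN, hNo, hNw⟩ := _root_.eventually_nhds_iff.1 h4
    have h5 : A '' N ∈ 𝓝 (A w') := c.image_mem_nhds (hNo.mem_nhds hNw)
    obtain ⟨x, hx, w'', hw'', rfl⟩ := hd.inter_nhds_nonempty h5
    obtain ⟨e1, e2, e3⟩ := hN w'' hw''
    exact (det_ne_iff hf e3 e2).2 hx e1
  · intro x
    have h1 := (hnn x).self_of_nhds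
    rw [fderiv_coord hf (hA' x) (by rw [h0]; exact hB' x), det_mul', det_mul', h0] at h1
    change 0 ≤ (Df (n := n) (A' x) 0).det * (Df (n := n) (B' x) (f x)).det * (Df (n := n) f x).det
    linarith

/-- all coordinate changes of the atlas preserve the orientation of `ℝ^n` -/
def OrA (n : ℕ) (X : Type) [TopologicalSpace X] [ChartedSpace (E n) X] : Prop :=
  ∀ e ∈ atlas (E n) X, ∀ e' ∈ atlas (E n) X, ∀ x, x ∈ e.source → x ∈ e'.source →
    0 < (fderiv ℝ (fun z => e' (e.symm z)) (e x)).det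

theorem OrA.chart_pos (h : OrA n X) {x₀ x : X} (hx : x ∈ (chartAt (E n) x₀).source) :
    0 < (Df (n := n) (fun y => chartAt (E n) x₀ y) x).det := by
  have h1 := h (chartAt (E n) x) (chart_mem_atlas _ x) (chartAt (E n) x₀)
    (chart_mem_atlas _ x₀) x (mem_chart_source _ x) hx
  have h2 : Df (n := n) (fun y => chartAt (E n) x₀ y) x =
      fderiv ℝ (fun z => chartAt (E n) x₀ ((chartAt (E n) x).symm z)) (chartAt (E n) x x) := by
    have h3 : LD n (fun y => chartAt (E n) x₀ y) x := Pool.Agent.Y66.CM.LD_chart (n := n) x₀ x hx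
    have h4 : Df (n := n) (fun y => chartAt (E n) x₀ y) x = fderivWithin ℝ
        (writtenInExtChartAt (𝓡 n) (𝓡 n) x fun y => chartAt (E n) x₀ y) (range (𝓡 n))
        (extChartAt (𝓡 n) x x) := (LD.mdiff h3).mfderiv
    rw [h4]
    simp only [writtenInExtChartAt, extChartAt, mfld_simps, fderivWithin_univ]
    rfl
  rw [h2]
  exact h1

theorem OrA.A (h : OrA n X) {A : E n → X} {w : E n} (hA : LD n A w) :
    ∀ᶠ w' in 𝓝 w, 0 < (Df (n := n) A w).det * (Df (n := n) A w').det := by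
  have h1 : LD n (fun y => chartAt (E n) (A w) y) (A w) :=
    Pool.Agent.Y66.CM.LD_chart (n := n) (A w) (A w) (mem_chart_source _ _)
  have hg : LD n (fun z => chartAt (E n) (A w) (A z)) w :=
    LD.comp_fun (g := fun y => chartAt (E n) (A w) y) h1 hA
  have h2 : ∀ᶠ w' in 𝓝 w, A w' ∈ (chartAt (E n) (A w)).source :=
    hA.continuousAt.eventually ((chartAt (E n) (A w)).open_source.mem_nhds (mem_chart_source _ _))
  have h3 : ∀ w', A w' ∈ (chartAt (E n) (A w)).source → LD n A w' →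
      (fderiv ℝ (fun z => chartAt (E n) (A w) (A z)) w').det =
      (Df (n := n) (fun y => chartAt (E n) (A w) y) (A w')).det * (Df (n := n) A w').det := by
    intro w' a b
    rw [← Df_eq_fderiv, ← det_mul']
    congr 1
    exact Df_comp (g := fun y => chartAt (E n) (A w) y)
      (LD.mdiff (Pool.Agent.Y66.CM.LD_chart (n := n) (A w) (A w') a)) (LD.mdiff b)
  have h0 : (fderiv ℝ (fun z => chartAt (E n) (A w) (A z)) w).det ≠ 0 := by
    have := Df_det_ne hg
    rwa [Df_eq_fderiv] at this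
  filter_upwards [h2, hA.eventually, eventually_pos_mul hg.contDiffAt h0] with w' a b c
  rw [h3 w' a b, h3 w (mem_chart_source _ _) hA] at c
  have h4 := h.chart_pos (x₀ := A w) (x := A w) (mem_chart_source _ _)
  have h5 := h.chart_pos (x₀ := A w) a
  have h6 := mul_pos h4 h5
  obtain ⟨p, hp⟩ : ∃ p, p = (Df (n := n) (fun y => chartAt (E n) (A w) y) (A w)).det := ⟨_, rfl⟩
  obtain ⟨q, hq⟩ : ∃ p, p = (Df (n := n) (fun y => chartAt (E n) (A w) y) (A w')).det := ⟨_, rfl⟩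
  rw [← hp, ← hq] at c h6
  have h7 : p * (Df (n := n) A w).det * (q * (Df (n := n) A w').det) =
    (p * q) * ((Df (n := n) A w).det * (Df (n := n) A w').det) := by ring
  rw [h7] at c
  exact (pos_iff_pos_of_mul_pos c).1 h6

theorem OrA.B (h : OrA n X) {B : X → E n} {y : X} (hB : LD n B y) :
    ∀ᶠ y' in 𝓝 y, 0 < (Df (n := n) B y).det * (Df (n := n) B y').det := by
  have h1 : LD n (fun z => chartAt (E n) y z) y :=
    Pool.Agent.Y66.CM.LD_chart (n := n) y y (mem_chart_source _ _)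
  have h2 : ∀ᶠ y' in 𝓝 y, y' ∈ (chartAt (E n) y).source :=
    (chartAt (E n) y).open_source.mem_nhds (mem_chart_source _ _)
  filter_upwards [sgB hB h1, h2] with y' a b
  have h4 := h.chart_pos (x₀ := y) (x := y) (mem_chart_source _ _)
  have h5 := h.chart_pos (x₀ := y) b
  have h6 := mul_pos h4 h5
  obtain ⟨p, hp⟩ : ∃ p, p = (Df (n := n) (fun z => chartAt (E n) y z) y).det := ⟨_, rfl⟩
  obtain ⟨q, hq⟩ : ∃ p, p = (Df (n := n) (fun z => chartAt (E n) y z) y').det := ⟨_, rfl⟩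
  rw [← hp, ← hq] at a h6
  have h7 : (Df (n := n) B y).det * p * ((Df (n := n) B y').det * q) =
    (p * q) * ((Df (n := n) B y).det * (Df (n := n) B y').det) := by ring
  rw [h7] at a
  exact (pos_iff_pos_of_mul_pos a).1 h6

theorem sgn_of_OrA {f : X → Y} (hf : ContMDiff (𝓡 n) (𝓡 n) ∞ f) (hX : OrA n X) (hY : OrA n Y)
    (hnn : ∀ x, 0 ≤ (Df (n := n) f x).det) : Sgn (n := n) f (fun _ => 1) := by
  refine ⟨fun x => one_ne_zero, ?_, fun x => by rw [one_mul]; exact hnn x⟩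
  intro A B w hA hB hs
  have hfA : ContinuousAt (fun w => f (A w)) w := hf.continuous.continuousAt.comp hA.continuousAt
  filter_upwards [hX.A hA, hfA.eventually (hY.B hB)] with w' a b
  unfold sg at hs ⊢
  have h1 := mul_pos a b
  obtain ⟨p1, hp1⟩ : ∃ p, p = (Df (n := n) A w).det := ⟨_, rfl⟩
  obtain ⟨p2, hp2⟩ : ∃ p, p = (Df (n := n) A w').det := ⟨_, rfl⟩
  obtain ⟨q1, hq1⟩ : ∃ p, p = (Df (n := n) B (f (A w))).det := ⟨_, rfl⟩
  obtain ⟨q2, hq2⟩ : ∃ p, p = (Df (n := n) B (f (A w'))).det := ⟨_, rfl⟩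
  rw [← hp1, ← hp2, ← hq1, ← hq2] at h1
  rw [← hp1, ← hq1, one_mul] at hs
  rw [← hp2, ← hq2, one_mul]
  have h7 : p1 * p2 * (q1 * q2) = (p1 * q1) * (p2 * q2) := by ring
  rw [h7] at h1
  exact (pos_iff_pos_of_mul_pos h1).1 hs

end general

end Pool.Agent.H73
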