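import Pool.Agent.H73.Box

/-!
# The first variation of the Jacobian, and pieces supported in boxes
-/

set_option autoImplicit false
set_option linter.unusedSectionVars false

open Set Filter Topology Metric Function
open scoped Manifold ContDiff

noncomputable section

namespace Pool.Agent.H73

open Pool.Agent.Y522

/-! ### A function of one variable -/

/-- a bump function on the line -/
def bp : ContDiffBump (0 : ℝ) := ⟨1 / 2, 1, by norm_num, by norm_num⟩

/-- a smooth step -/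
def stp (t : ℝ) : ℝ := ∫ s in (-1 : ℝ)..t, bp s

theorem hasDerivAt_stp (t : ℝ) : HasDerivAt stp (bp t) t := by
  have hc : Continuous (bp : ℝ → ℝ) := bp.continuous
  exact intervalIntegral.integral_hasDerivAt_right (hc.intervalIntegrable _ _)
    hc.stronglyMeasurable.stronglyMeasurableAtFilter hc.continuousAt

theorem contDiff_stp : ContDiff ℝ ∞ stp := by
  rw [contDiff_infty_iff_deriv]
  refine ⟨fun t => (hasDerivAt_stp t).differentiableAt, ?_⟩
  have h : deriv stp = fun t => bp t := funext fun t => (hasDerivAt_stp t).deriv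
  rw [h]
  exact bp.contDiff

theorem bp_zero {t : ℝ} (h : 1 ≤ |t|) : bp t = 0 := by
  apply bp.zero_of_le_dist
  rw [Real.dist_eq, sub_zero]
  exact h

theorem stp_left {t : ℝ} (h : t ≤ -1) : stp t = 0 := by
  unfold stp
  rw [intervalIntegral.integral_congr (g := fun _ => (0 : ℝ)), intervalIntegral.integral_zero]
  intro s hs
  rw [uIcc_of_ge h] at hs
  exact bp_zero (by rw [abs_of_nonpos (by linarith [hs.2])]; linarith [hs.2])

theorem stp_right {t : ℝ} (h : 1 ≤ t) : stp t = stp 1 := by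
  unfold stp
  have hc : Continuous (bp : ℝ → ℝ) := bp.continuous
  rw [← intervalIntegral.integral_add_adjacent_intervals (hc.intervalIntegrable (-1) 1)
    (hc.intervalIntegrable 1 t)]
  have h1 : ∫ s in (1 : ℝ)..t, bp s = 0 := by
    rw [intervalIntegral.integral_congr (g := fun _ => (0 : ℝ)), intervalIntegral.integral_zero]
    intro s hs
    rw [uIcc_of_le h] at hs
    exact bp_zero (by rw [abs_of_nonneg (by linarith [hs.1])]; exact hs.1)
  rw [h1, add_zero]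

/-- a function which increases except near `t₁` -/
def aa (t₁ η : ℝ) (t : ℝ) : ℝ := stp (t / η) - stp ((t - t₁) / η)

theorem hasDerivAt_aa (t₁ η t : ℝ) :
    HasDerivAt (aa t₁ η) ((bp (t / η) - bp ((t - t₁) / η)) / η) t := by
  have h1 : HasDerivAt (fun t : ℝ => stp (t / η)) (bp (t / η) * (1 / η)) t :=
    HasDerivAt.comp (h₂ := stp) (h := fun t : ℝ => t / η) t (hasDerivAt_stp (t / η))
      ((hasDerivAt_id t).div_const η)
  have h2 : HasDerivAt (fun t : ℝ => stp ((t - t₁) / η)) (bp ((t - t₁) / η) * (1 / η)) t :=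
    HasDerivAt.comp (h₂ := stp) (h := fun t : ℝ => (t - t₁) / η) t
      (hasDerivAt_stp ((t - t₁) / η)) (((hasDerivAt_id t).sub_const t₁).div_const η)
  have h3 := h1.sub h2
  have h4 : bp (t / η) * (1 / η) - bp ((t - t₁) / η) * (1 / η) =
      (bp (t / η) - bp ((t - t₁) / η)) / η := by ring
  rw [h4] at h3
  exact h3

theorem contDiff_aa (t₁ η : ℝ) : ContDiff ℝ ∞ (aa t₁ η) := by
  unfold aa
  exact (contDiff_stp.comp (contDiff_id.div_const η)).sub
    (contDiff_stp.comp ((contDiff_id.sub contDiff_const).div_const η))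

theorem aa_zero {t₁ η t : ℝ} (hη : 0 < η) (h : |t₁| + η ≤ |t|) : aa t₁ η t = 0 := by
  unfold aa
  have h1 := abs_le.1 (le_refl |t₁|)
  rcases le_or_gt 0 t with h0 | h0
  · rw [abs_of_nonneg h0] at h
    have e1 : 1 ≤ t / η := by
      rw [le_div_iff₀ hη]
      linarith [abs_nonneg t₁]
    have e2 : 1 ≤ (t - t₁) / η := by
      rw [le_div_iff₀ hη]
      linarith [h1.2]
    rw [stp_right e1, stp_right e2, sub_self]
  · rw [abs_of_neg h0] at h
    have e1 : t / η ≤ -1 := by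
      rw [div_le_iff₀ hη]
      linarith [abs_nonneg t₁]
    have e2 : (t - t₁) / η ≤ -1 := by
      rw [div_le_iff₀ hη]
      linarith [h1.1]
    rw [stp_left e1, stp_left e2, sub_self]

variable {m : ℕ}

section lv

variable {X Y : Type} [TopologicalSpace X] [ChartedSpace (E (m + 1)) X]
  [TopologicalSpace Y] [ChartedSpace (E (m + 1)) Y] [IsManifold (𝓡 (m + 1)) ∞ X]
  [IsManifold (𝓡 (m + 1)) ∞ Y]

/-- the first variation of the Jacobian of `f` in the direction of `V` (in the chart `B` of the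
target), with the sign -/
def lv (f : X → Y) (σ : X → ℝ) (B : Y → E (m + 1)) (V : X → E (m + 1)) (x : X) : ℝ :=
  σ x * (Df (n := m + 1) B (f x)).det *
    dd (Df (n := m + 1) B (f x) * Df (n := m + 1) f x) (Df (n := m + 1) V x)

theorem lv_coord {f : X → Y} (σ : X → ℝ) (hf : ContMDiff (𝓡 (m + 1)) (𝓡 (m + 1)) ∞ f)
    {V : X → E (m + 1)} (hV : ContMDiff (𝓡 (m + 1)) (𝓡 (m + 1)) ∞ V) {A : E (m + 1) → X}
    {w : E (m + 1)} {B : Y → E (m + 1)} (hA : LD (m + 1) A w) (hB : LD (m + 1) B (f (A w))) :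
    lv f σ B V (A w) * (Df (n := m + 1) A w).det ^ 2 = sg f σ A B w *
      dd (fderiv ℝ (fun w => B (f (A w))) w) (fderiv ℝ (fun w => V (A w)) w) := by
  rw [fderiv_coord hf hA hB, fderiv_coordV hV hA]
  have e1 : ∀ b v a : E (m + 1) →L[ℝ] E (m + 1), dd (b * a) (v * a) = dd b v * a.det :=
    fun b v a => dd_comp_right a b v
  rw [e1]
  unfold lv sg
  ring

theorem lv_pos_iff {f : X → Y} {σ : X → ℝ} (hf : ContMDiff (𝓡 (m + 1)) (𝓡 (m + 1)) ∞ f)
    {V : X → E (m + 1)} (hV : ContMDiff (𝓡 (m + 1)) (𝓡 (m + 1)) ∞ V) {A : E (m + 1) → X}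
    {w : E (m + 1)} {B : Y → E (m + 1)} (hA : LD (m + 1) A w) (hB : LD (m + 1) B (f (A w)))
    (hs : 0 < sg f σ A B w) : 0 < lv f σ B V (A w) ↔
      0 < dd (fderiv ℝ (fun w => B (f (A w))) w) (fderiv ℝ (fun w => V (A w)) w) := by
  have h1 := lv_coord σ hf hV hA hB
  have h2 : 0 < (Df (n := m + 1) A w).det ^ 2 := by
    have := Df_det_ne hA
    positivity
  constructor
  · intro h
    have h3 := mul_pos h h2
    rw [h1] at h3
    exact (pos_iff_pos_of_mul_pos h3).1 hs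
  · intro h
    have h3 := mul_pos hs h
    rw [← h1] at h3
    exact (pos_iff_pos_of_mul_pos h3).2 h2

theorem lv_nonneg_iff {f : X → Y} {σ : X → ℝ} (hf : ContMDiff (𝓡 (m + 1)) (𝓡 (m + 1)) ∞ f)
    {V : X → E (m + 1)} (hV : ContMDiff (𝓡 (m + 1)) (𝓡 (m + 1)) ∞ V) {A : E (m + 1) → X}
    {w : E (m + 1)} {B : Y → E (m + 1)} (hA : LD (m + 1) A w) (hB : LD (m + 1) B (f (A w)))
    (hs : 0 < sg f σ A B w) : 0 ≤ lv f σ B V (A w) ↔
      0 ≤ dd (fderiv ℝ (fun w => B (f (A w))) w) (fderiv ℝ (fun w => V (A w)) w) := by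
  have h1 := lv_coord σ hf hV hA hB
  have h2 : 0 < (Df (n := m + 1) A w).det ^ 2 := by
    have := Df_det_ne hA
    positivity
  constructor
  · intro h
    have h3 := mul_nonneg h h2.le
    rw [h1] at h3
    exact nonneg_of_mul_nonneg_right h3 hs
  · intro h
    have h3 := mul_nonneg hs.le h
    rw [← h1] at h3
    exact nonneg_of_mul_nonneg_left h3 h2

theorem lv_add {f : X → Y} (σ : X → ℝ) (B : Y → E (m + 1)) {V V' : X → E (m + 1)}
    (hV : ContMDiff (𝓡 (m + 1)) (𝓡 (m + 1)) ∞ V) (hV' : ContMDiff (𝓡 (m + 1)) (𝓡 (m + 1)) ∞ V')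
    (x : X) : lv f σ B (fun x => V x + V' x) x = lv f σ B V x + lv f σ B V' x := by
  have h1 : MDifferentiableAt (𝓡 (m + 1)) (𝓡 (m + 1)) V x := (hV x).mdifferentiableAt (by simp)
  have h2 : MDifferentiableAt (𝓡 (m + 1)) (𝓡 (m + 1)) V' x := (hV' x).mdifferentiableAt (by simp)
  have h3 : Df (n := m + 1) (fun x => V x + V' x) x = Df V x + Df V' x :=
    (h1.hasMFDerivAt.add h2.hasMFDerivAt).mfderiv
  unfold lv
  rw [h3, dd_add]
  ring

theorem lv_smul {f : X → Y} (σ : X → ℝ) (B : Y → E (m + 1)) {V : X → E (m + 1)}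
    (hV : ContMDiff (𝓡 (m + 1)) (𝓡 (m + 1)) ∞ V) (κ : ℝ) (x : X) :
    lv f σ B (fun x => κ • V x) x = κ * lv f σ B V x := by
  have h1 : MDifferentiableAt (𝓡 (m + 1)) (𝓡 (m + 1)) V x := (hV x).mdifferentiableAt (by simp)
  have h3 : Df (n := m + 1) (fun x => κ • V x) x = κ • Df V x :=
    (h1.hasMFDerivAt.const_smul κ).mfderiv
  unfold lv
  rw [h3, dd_smul]
  ring

theorem dd_zero (M : E (m + 1) →L[ℝ] E (m + 1)) : dd M 0 = 0 := by
  unfold dd
  rw [map_zero]

theorem lv_off {f : X → Y} (σ : X → ℝ) (B : Y → E (m + 1)) {V : X → E (m + 1)} {x : X}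
    (h : ∀ᶠ x' in 𝓝 x, V x' = 0) : lv f σ B V x = 0 := by
  have h1 : Df (n := m + 1) V x = 0 := by
    have h2 : V =ᶠ[𝓝 x] fun _ => 0 := h
    rw [Df_congr h2]
    exact mfderiv_const
  unfold lv
  rw [h1, dd_zero, mul_zero]

theorem lv_congr {f : X → Y} (σ : X → ℝ) (B : Y → E (m + 1)) {V V' : X → E (m + 1)} {x : X}
    (h : ∀ᶠ x' in 𝓝 x, V x' = V' x') : lv f σ B V x = lv f σ B V' x := by
  have h2 : V =ᶠ[𝓝 x] V' := h
  unfold lv
  rw [Df_congr h2]

/-- the first variation in another chart -/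
theorem lv_lin {f : X → Y} (σ : X → ℝ) {B B' : Y → E (m + 1)} {V : X → E (m + 1)}
    (hV : ContMDiff (𝓡 (m + 1)) (𝓡 (m + 1)) ∞ V) (R : E (m + 1) →L[ℝ] E (m + 1)) (x : X)
    (hR : Df (n := m + 1) B' (f x) = R * Df B (f x)) :
    lv f σ B' (fun x => R (V x)) x = R.det ^ 2 * lv f σ B V x := by
  have h1 : MDifferentiableAt (𝓡 (m + 1)) (𝓡 (m + 1)) V x := (hV x).mdifferentiableAt (by simp)
  have h2 : Df (n := m + 1) (fun x => R (V x)) x = R * Df V x := by
    have h3 : HasMFDerivAt (𝓡 (m + 1)) (𝓡 (m + 1)) R (V x) R := R.hasMFDerivAt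
    exact (HasMFDerivAt.comp x h3 h1.hasMFDerivAt).mfderiv
  have e1 : ∀ b v : E (m + 1) →L[ℝ] E (m + 1), dd (R * b) (R * v) = R.det * dd b v :=
    fun b v => dd_comp_left R b v
  unfold lv
  rw [h2, hR, mul_assoc R, e1, det_mul']
  ring

theorem smooth_lin {V : X → E (m + 1)} (hV : ContMDiff (𝓡 (m + 1)) (𝓡 (m + 1)) ∞ V)
    (R : E (m + 1) →L[ℝ] E (m + 1)) : ContMDiff (𝓡 (m + 1)) (𝓡 (m + 1)) ∞ fun x => R (V x) :=
  R.contDiff.contMDiff.comp hV

/-- positivity is an open condition -/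
theorem lv_open {f : X → Y} {σ : X → ℝ} (hσ : Sgn (n := m + 1) f σ)
    (hf : ContMDiff (𝓡 (m + 1)) (𝓡 (m + 1)) ∞ f)
    {V : X → E (m + 1)} (hV : ContMDiff (𝓡 (m + 1)) (𝓡 (m + 1)) ∞ V) {B : Y → E (m + 1)} {x : X}
    (hB : LD (m + 1) B (f x)) (h : 0 < lv f σ B V x) : ∀ᶠ x' in 𝓝 x, 0 < lv f σ B V x' := by
  obtain ⟨A, w, hAx, hA, hs⟩ := exists_pos hσ.ne x hB
  subst hAx
  have h1 := (lv_pos_iff hf hV hA hB hs).1 h
  have hBe : ∀ᶠ w' in 𝓝 w, LD (m + 1) B (f (A w')) :=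
    (hf.continuous.continuousAt.comp hA.continuousAt).eventually hB.eventually
  have hVA : ContDiffAt ℝ ∞ (fun w => V (A w)) w :=
    contMDiffAt_iff_contDiffAt.1 ((hV (A w)).comp w hA.contMDiffAt)
  have h2 : ContinuousAt (fun w' => dd (fderiv ℝ (fun w => B (f (A w))) w')
      (fderiv ℝ (fun w => V (A w)) w')) w :=
    ContinuousAt.comp (g := fun p : (E (m + 1) →L[ℝ] E (m + 1)) × (E (m + 1) →L[ℝ] E (m + 1)) =>
      dd p.1 p.2) continuous_dd.continuousAt
      (((smooth_coord hf hA hB).fderiv_right (m := 0) (by simp)).continuousAt.prodMk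
        (hVA.fderiv_right (m := 0) (by simp)).continuousAt)
  have h3 : ∀ᶠ w' in 𝓝 w, 0 < lv f σ B V (A w') := by
    filter_upwards [h2.eventually (lt_mem_nhds h1), hBe, hA.eventually, hσ.cont A B w hA hB hs]
      with w' a b c d
    exact (lv_pos_iff hf hV c b d).2 a
  have h4 := hA.image_mem_nhds h3
  filter_upwards [h4] with x' hx'
  obtain ⟨w', hw', rfl⟩ := hx'
  exact hw'

end lv

section ext

variable {X : Type} [TopologicalSpace X] [T2Space X] [ChartedSpace (E (m + 1)) X]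
  [IsManifold (𝓡 (m + 1)) ∞ X]

/-- extension by zero -/
theorem ext_zero {A : E (m + 1) → X} {w₀ : E (m + 1)} {r r₂ : ℝ} (hr : r₂ < r)
    (hA : ∀ w ∈ ball w₀ r, LD (m + 1) A w) (hinj : InjOn A (ball w₀ r))
    {ψ : E (m + 1) → E (m + 1)} (hψ : ContDiff ℝ ∞ ψ) (hψ0 : ∀ w, r₂ ≤ ‖w - w₀‖ → ψ w = 0) :
    ∃ V : X → E (m + 1), ContMDiff (𝓡 (m + 1)) (𝓡 (m + 1)) ∞ V ∧
      (∀ w ∈ ball w₀ r, V (A w) = ψ w) ∧
      ∀ x, x ∉ A '' ball w₀ r → (∀ᶠ x' in 𝓝 x, V x' = 0) := by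
  classical
  let V : X → E (m + 1) := fun x =>
    if h : ∃ w, w ∈ ball w₀ r ∧ A w = x then ψ h.choose else 0
  have hV : ∀ w ∈ ball w₀ r, V (A w) = ψ w := by
    intro w hw
    have h : ∃ w', w' ∈ ball w₀ r ∧ A w' = A w := ⟨w, hw, rfl⟩
    have h1 : h.choose = w := hinj h.choose_spec.1 hw h.choose_spec.2
    change (if h : ∃ w', w' ∈ ball w₀ r ∧ A w' = A w then ψ h.choose else 0) = _
    rw [dif_pos h, h1]
  have hV0 : ∀ x, x ∉ A '' closedBall w₀ r₂ → V x = 0 := by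
    intro x hx
    by_cases h : ∃ w, w ∈ ball w₀ r ∧ A w = x
    · obtain ⟨w, hw, rfl⟩ := h
      rw [hV w hw]
      apply hψ0
      by_contra hlt
      exact hx ⟨w, by rw [mem_closedBall_iff_norm]; exact (not_le.1 hlt).le, rfl⟩
    · change (if h : ∃ w, w ∈ ball w₀ r ∧ A w = x then ψ h.choose else 0) = _
      rw [dif_neg h]
  have hK : IsClosed (A '' closedBall w₀ r₂) := by
    refine ((isCompact_closedBall _ _).image_of_continuousOn fun w hw => ?_).isClosed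
    have hw' : w ∈ ball w₀ r := closedBall_subset_ball hr hw
    exact (hA w hw').continuousAt.continuousWithinAt
  have hoff : ∀ x, x ∉ A '' ball w₀ r → (∀ᶠ x' in 𝓝 x, V x' = 0) := by
    intro x hx
    have hx' : x ∉ A '' closedBall w₀ r₂ := fun h =>
      hx (image_mono (closedBall_subset_ball hr) h)
    filter_upwards [hK.isOpen_compl.mem_nhds hx'] with x' hx''
    exact hV0 x' hx''
  refine ⟨V, fun x => ?_, hV, hoff⟩
  by_cases hx : x ∈ A '' ball w₀ r
  · obtain ⟨w, hw, rfl⟩ := hx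
    obtain ⟨a, ha, haw, ha1, ha2⟩ := (hA w hw).exists_inverse
    have h1 : ContMDiffAt (𝓡 (m + 1)) (𝓡 (m + 1)) ∞ (fun x => ψ (a x)) (A w) :=
      hψ.contMDiff.contMDiffAt.comp (A w) ha.contMDiffAt
    refine h1.congr_of_eventuallyEq ?_
    have h2 : ∀ᶠ x in 𝓝 (A w), a x ∈ ball w₀ r :=
      ha.continuousAt (isOpen_ball.mem_nhds (by rw [haw]; exact hw))
    filter_upwards [ha2, h2] with x hx1 hx2
    rw [← hV _ hx2, hx1]
  · exact contMDiffAt_const.congr_of_eventuallyEq (hoff x hx)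

end ext

section piece

variable {X Y : Type} [TopologicalSpace X] [T2Space X] [ChartedSpace (E (m + 1)) X]
  [TopologicalSpace Y] [ChartedSpace (E (m + 1)) Y] [IsManifold (𝓡 (m + 1)) ∞ X]
  [IsManifold (𝓡 (m + 1)) ∞ Y]

theorem Box.tlD {f : X → Y} {σ : X → ℝ} {B : Y → E (m + 1)} {O : Set Y}
    {A : E (m + 1) → X} {w₀ : E (m + 1)} {r : ℝ}
    (hf : ContMDiff (𝓡 (m + 1)) (𝓡 (m + 1)) ∞ f) (hB : ChO B O) (h : Box f σ B O A w₀ r)
    {w : E (m + 1)} (hw : w ∈ ball w₀ r) (v : E (m + 1)) :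
    (tl (fderiv ℝ (fun w => B (f (A w))) w v) : E m) = tl v := by
  have h1 : HasFDerivAt (fun w => (tl (B (f (A w))) : E m))
      (tl.comp (fderiv ℝ (fun w => B (f (A w))) w)) w :=
    (tl : E (m + 1) →L[ℝ] E m).hasFDerivAt.comp w
      ((smooth_coord hf (h.ld w hw) (hB.ld _ (h.mem w hw))).differentiableAt
        (by simp)).hasFDerivAt
  have h2 : HasFDerivAt (fun w => (tl (B (f (A w))) : E m)) (tl : E (m + 1) →L[ℝ] E m) w := by
    refine (tl : E (m + 1) →L[ℝ] E m).hasFDerivAt.congr_of_eventuallyEq ?_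
    filter_upwards [isOpen_ball.mem_nhds hw] with z hz
    exact h.tle z hz
  exact congrArg (fun L : E (m + 1) →L[ℝ] E m => L v) (h1.unique h2)

/-- points of the line through the centre of the box -/
theorem mem_line {w₀ : E (m + 1)} {r t : ℝ} : w₀ + t • e0 ∈ ball w₀ r ↔ |t| < r := by
  rw [mem_ball_iff_norm, add_sub_cancel_left, norm_smul, norm_e0, mul_one, Real.norm_eq_abs]

/-- pieces -/
theorem exists_piece {f : X → Y} {σ : X → ℝ} {B : Y → E (m + 1)} {O : Set Y}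
    {A : E (m + 1) → X} {w₀ : E (m + 1)} {r : ℝ}
    (hf : ContMDiff (𝓡 (m + 1)) (𝓡 (m + 1)) ∞ f) (hB : ChO B O) (h : Box f σ B O A w₀ r)
    {t₁ η : ℝ} (hη : 0 < η) (hη1 : η ≤ |t₁|) (hη2 : |t₁| + η < r) :
    ∃ (V : X → E (m + 1)) (φ : ℝ → ℝ), ContMDiff (𝓡 (m + 1)) (𝓡 (m + 1)) ∞ V ∧ Continuous φ ∧
      (∀ x, x ∉ A '' ball w₀ r → (∀ᶠ x' in 𝓝 x, V x' = 0)) ∧
      (∀ t, |t| < r → dd (fderiv ℝ (fun w => B (f (A w))) (w₀ + t • e0))
        (fderiv ℝ (fun w => V (A w)) (w₀ + t • e0)) = φ t) ∧ 0 < φ 0 ∧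
      ∀ t, η ≤ |t - t₁| → 0 ≤ φ t := by
  obtain ⟨r₁, hr₁a, hr₁b⟩ := exists_between hη2
  obtain ⟨r₂, hr₂a, hr₂b⟩ := exists_between hr₁b
  have hr₁0 : 0 < r₁ := by linarith [abs_nonneg t₁]
  let b : ContDiffBump w₀ := ⟨r₁, r₂, hr₁0, hr₂a⟩
  obtain ⟨ψ, hψ⟩ : ∃ ψ : E (m + 1) → ℝ, ψ = fun w => aa t₁ η (w 0 - w₀ 0) * b w := ⟨_, rfl⟩
  have hψs : ContDiff ℝ ∞ ψ := by
    rw [hψ]
    have h1 : ContDiff ℝ ∞ fun w : E (m + 1) => w 0 - w₀ 0 := by fun_prop
    exact ((contDiff_aa t₁ η).comp h1).mul b.contDiff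
  obtain ⟨V, hV, hVA, hVoff⟩ := ext_zero (ψ := fun w => ψ w • (e0 : E (m + 1))) hr₂b h.ld h.inj
    (hψs.smul (contDiff_const (c := (e0 : E (m + 1))))) (fun w hw => by
      rw [hψ]
      change (aa t₁ η (w 0 - w₀ 0) * b w) • (e0 : E (m + 1)) = 0
      rw [b.zero_of_le_dist (by rw [dist_eq_norm]; exact hw), mul_zero, zero_smul])
  have hφ : ∀ t, |t| < r → fderiv ℝ ψ (w₀ + t • e0) e0 =
      (bp (t / η) - bp ((t - t₁) / η)) / η := by
    intro t ht
    have e1 : HasFDerivAt (fun w : E (m + 1) => w 0 - w₀ 0)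
        (EuclideanSpace.proj 0 : E (m + 1) →L[ℝ] ℝ) (w₀ + t • e0) :=
      ((EuclideanSpace.proj 0 : E (m + 1) →L[ℝ] ℝ).hasFDerivAt).sub_const _
    have e2 : (w₀ + t • (e0 : E (m + 1))) 0 - w₀ 0 = t := by
      simp [e0_zero]
    have e3 : HasFDerivAt (fun w : E (m + 1) => aa t₁ η (w 0 - w₀ 0))
        (((bp (t / η) - bp ((t - t₁) / η)) / η) • (EuclideanSpace.proj 0 : E (m + 1) →L[ℝ] ℝ))
        (w₀ + t • e0) := by
      have e4 := hasDerivAt_aa t₁ η t
      rw [← e2] at e4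
      have e5 := e4.comp_hasFDerivAt (w₀ + t • e0) e1
      rw [e2] at e5
      exact e5
    have e6 : HasFDerivAt (b : E (m + 1) → ℝ) (fderiv ℝ b (w₀ + t • e0)) (w₀ + t • e0) :=
      ((b.contDiff (n := 1)).differentiable (by simp) _).hasFDerivAt
    have e7 := e3.mul e6
    have e8 : ψ = (fun w : E (m + 1) => aa t₁ η (w 0 - w₀ 0)) * (b : E (m + 1) → ℝ) := hψ
    rw [e8, e7.fderiv]
    change aa t₁ η ((w₀ + t • (e0 : E (m + 1))) 0 - w₀ 0) * fderiv ℝ b (w₀ + t • e0) e0 +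
      b (w₀ + t • e0) * (((bp (t / η) - bp ((t - t₁) / η)) / η) * (e0 : E (m + 1)) 0) = _
    rw [e2, e0_zero, mul_one]
    rcases lt_or_ge |t| r₁ with ht1 | ht1
    · have hb1 : (b : E (m + 1) → ℝ) =ᶠ[𝓝 (w₀ + t • e0)] fun _ => 1 := by
        filter_upwards [isOpen_ball.mem_nhds (mem_line.2 ht1)] with w hw
        exact b.one_of_mem_closedBall (ball_subset_closedBall hw)
      have hb2 : fderiv ℝ b (w₀ + t • e0) = 0 := by
        rw [hb1.fderiv_eq]
        exact fderiv_const_apply _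
      rw [hb2, hb1.self_of_nhds]
      simp
    · have ha0 : aa t₁ η t = 0 := aa_zero hη (by linarith)
      have ha1 : (bp (t / η) - bp ((t - t₁) / η)) / η = 0 := by
        have h2 := abs_le.1 (le_refl |t₁|)
        have h3 : 1 ≤ |t / η| := by
          rw [abs_div, abs_of_pos hη, le_div_iff₀ hη]
          linarith [abs_nonneg t₁]
        have h4 : 1 ≤ |(t - t₁) / η| := by
          rw [abs_div, abs_of_pos hη, le_div_iff₀ hη]
          have := abs_sub_abs_le_abs_sub t t₁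
          linarith
        rw [bp_zero h3, bp_zero h4, sub_zero, zero_div]
      rw [ha0, ha1]
      simp
  refine ⟨V, fun t => (bp (t / η) - bp ((t - t₁) / η)) / η, hV, ?_, hVoff, ?_, ?_, ?_⟩
  · have hc : Continuous (bp : ℝ → ℝ) := bp.continuous
    exact ((hc.comp (continuous_id.div_const η)).sub
      (hc.comp ((continuous_id.sub continuous_const).div_const η))).div_const η
  · intro t ht
    have hw : w₀ + t • e0 ∈ ball w₀ r := mem_line.2 ht
    have e1 : (fun w => V (A w)) =ᶠ[𝓝 (w₀ + t • e0)] fun w => ψ w • e0 := by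
      filter_upwards [isOpen_ball.mem_nhds hw] with w hw
      exact hVA w hw
    have e2 : fderiv ℝ (fun w => V (A w)) (w₀ + t • e0) =
        (fderiv ℝ ψ (w₀ + t • e0)).smulRight (e0 : E (m + 1)) := by
      rw [e1.fderiv_eq]
      exact ((hψs.differentiable (by simp) _).hasFDerivAt.smul_const (e0 : E (m + 1))).fderiv
    rw [e2, dd_e0 (fun v => h.tlD hf hB hw v), hφ t ht]
  · have h1 : 1 ≤ |(0 - t₁) / η| := by
      rw [zero_sub, abs_div, abs_neg, abs_of_pos hη, le_div_iff₀ hη]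
      linarith
    have h2 : bp ((0 : ℝ) / η) = 1 := by
      rw [zero_div]
      exact bp.one_of_mem_closedBall (mem_closedBall_self (by norm_num [bp]))
    change 0 < (bp (0 / η) - bp ((0 - t₁) / η)) / η
    rw [h2, bp_zero h1, sub_zero]
    positivity
  · intro t ht
    have h1 : 1 ≤ |(t - t₁) / η| := by
      rw [abs_div, abs_of_pos hη, le_div_iff₀ hη]
      linarith
    change 0 ≤ (bp (t / η) - bp ((t - t₁) / η)) / η
    rw [bp_zero h1, sub_zero]
    exact div_nonneg bp.nonneg hη.le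

end piece

end Pool.Agent.H73
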