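import Pool.Agent.H73.Glue

/-!
# Coherent signs of Jacobians
-/

set_option autoImplicit false
set_option linter.unusedSectionVars false

open Set Filter Topology Metric Function
open scoped Manifold ContDiff

noncomputable section

namespace Pool.Agent.H73

open Pool.Agent.Y522

section general

variable {n : ℕ} {X Y : Type} [TopologicalSpace X] [ChartedSpace (E n) X]
  [TopologicalSpace Y] [ChartedSpace (E n) Y] [IsManifold (𝓡 n) ∞ X] [IsManifold (𝓡 n) ∞ Y]

/-- the sign of the pair of coordinates `A`, `B` -/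
def sg (f : X → Y) (σ : X → ℝ) (A : E n → X) (B : Y → E n) (w : E n) : ℝ :=
  σ (A w) * (Df (n := n) A w).det * (Df (n := n) B (f (A w))).det

/-- `σ` is a continuous choice of signs for the Jacobian of `f`, for which it is nonnegative -/
structure Sgn (f : X → Y) (σ : X → ℝ) : Prop where
  ne : ∀ x, σ x ≠ 0
  cont : ∀ (A : E n → X) (B : Y → E n) (w : E n), LD n A w → LD n B (f (A w)) →
    0 < sg f σ A B w → ∀ᶠ w' in 𝓝 w, 0 < sg f σ A B w'
  nn : ∀ x, 0 ≤ σ x * (Df (n := n) f x).det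

theorem exists_param (x : X) : ∃ (A : E n → X) (w : E n), A w = x ∧ LD n A w := by
  have h1 := Pool.Agent.Y66.CM.LD_chart (n := n) x x (mem_chart_source (E n) x)
  obtain ⟨q, hq, hqy, -, -⟩ := h1.exists_inverse
  exact ⟨q, _, hqy, hq⟩

theorem exists_chartL (y : Y) : ∃ B : Y → E n, LD n B y :=
  ⟨_, Pool.Agent.Y66.CM.LD_chart (n := n) y y (mem_chart_source (E n) y)⟩

theorem fderiv_coord {f : X → Y} (hf : ContMDiff (𝓡 n) (𝓡 n) ∞ f) {A : E n → X} {B : Y → E n}
    {w : E n} (hA : LD n A w) (hB : LD n B (f (A w))) :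
    fderiv ℝ (fun w => B (f (A w))) w = Df B (f (A w)) * Df f (A w) * Df A w := by
  rw [← Df_eq_fderiv]
  have h1 : MDifferentiableAt (𝓡 n) (𝓡 n) f (A w) := (hf _).mdifferentiableAt (by simp)
  have h2 : MDifferentiableAt (𝓡 n) (𝓡 n) (fun x => B (f x)) (A w) :=
    (hB.contMDiffAt.comp (A w) (hf _)).mdifferentiableAt (by simp)
  rw [Df_comp (g := fun x => B (f x)) h2 (LD.mdiff hA), Df_comp (LD.mdiff hB) h1]

theorem fderiv_coordV {V : X → E n} (hV : ContMDiff (𝓡 n) (𝓡 n) ∞ V) {A : E n → X}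
    {w : E n} (hA : LD n A w) : fderiv ℝ (fun w => V (A w)) w = Df V (A w) * Df A w := by
  rw [← Df_eq_fderiv]
  exact Df_comp ((hV _).mdifferentiableAt (by simp)) (LD.mdiff hA)

theorem smooth_coord {f : X → Y} (hf : ContMDiff (𝓡 n) (𝓡 n) ∞ f) {A : E n → X} {B : Y → E n}
    {w : E n} (hA : LD n A w) (hB : LD n B (f (A w))) :
    ContDiffAt ℝ ∞ (fun w => B (f (A w))) w :=
  contMDiffAt_iff_contDiffAt.1 (hB.contMDiffAt.comp w ((hf _).comp w hA.contMDiffAt))

theorem Sgn.det_nonneg {f : X → Y} {σ : X → ℝ} (h : Sgn (n := n) f σ)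
    (hf : ContMDiff (𝓡 n) (𝓡 n) ∞ f) {A : E n → X} {B : Y → E n} {w : E n} (hA : LD n A w)
    (hB : LD n B (f (A w))) (hs : 0 < sg f σ A B w) :
    0 ≤ (fderiv ℝ (fun w => B (f (A w))) w).det := by
  rw [fderiv_coord hf hA hB, det_mul', det_mul']
  have h1 := h.nn (A w)
  unfold sg at hs
  by_contra h2
  have h2' := not_le.1 h2
  obtain ⟨a, ha⟩ : ∃ a, a = (Df (n := n) A w).det := ⟨_, rfl⟩
  obtain ⟨b, hb⟩ : ∃ b, b = (Df (n := n) B (f (A w))).det := ⟨_, rfl⟩
  obtain ⟨d, hd⟩ : ∃ d, d = (Df (n := n) f (A w)).det := ⟨_, rfl⟩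
  rw [← ha, ← hb] at hs
  rw [← hd] at h1
  rw [← ha, ← hb, ← hd] at h2'
  have h3 : 0 ≤ (σ (A w) * a * b) * (σ (A w) * d) := mul_nonneg hs.le h1
  have h4 : (σ (A w) * a * b) * (σ (A w) * d) = (σ (A w)) ^ 2 * (b * d * a) := by ring
  rw [h4] at h3
  have h5 : 0 < (σ (A w)) ^ 2 := by
    have := h.ne (A w)
    positivity
  nlinarith

theorem det_ne_iff {f : X → Y} (hf : ContMDiff (𝓡 n) (𝓡 n) ∞ f) {A : E n → X} {B : Y → E n}
    {w : E n} (hA : LD n A w) (hB : LD n B (f (A w))) :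
    (fderiv ℝ (fun w => B (f (A w))) w).det ≠ 0 ↔ LD n f (A w) := by
  constructor
  · exact LD_of_det hf hA hB
  · intro h
    rw [fderiv_coord hf hA hB, det_mul', det_mul']
    exact mul_ne_zero (mul_ne_zero (Df_det_ne hB) (Df_det_ne h)) (Df_det_ne hA)

theorem Df_det_ne_iff {f : X → Y} (hf : ContMDiff (𝓡 n) (𝓡 n) ∞ f) (x : X) :
    (Df (n := n) f x).det ≠ 0 ↔ LD n f x := by
  obtain ⟨A, w, rfl, hA⟩ := exists_param (n := n) x
  obtain ⟨B, hB⟩ := exists_chartL (n := n) (f (A w))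
  rw [← det_ne_iff hf hA hB, fderiv_coord hf hA hB, det_mul', det_mul']
  have h1 := Df_det_ne hA
  have h2 := Df_det_ne hB
  constructor
  · intro h
    exact mul_ne_zero (mul_ne_zero h2 h) h1
  · intro h h0
    rw [h0] at h
    simp at h

/-- **The local statement at the end of the argument.** -/
theorem IDec.loc {f : X → Y} {F : ℝ → X → Y} (hF : Fam (n := n) f F) {x : X}
    {N : E n →L[ℝ] E n} (hD : IDec f F x N) {A : E n → X} {w₀ : E n} {B : Y → E n}
    (hA : A w₀ = x) (hAL : LD n A w₀) (hB : LD n B (f x))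
    (hpos : LD n f x ∨ ((∀ᶠ w in 𝓝 w₀, 0 ≤ (fderiv ℝ (fun w => B (f (A w))) w).det) ∧
      0 < dd (Df B (f x) * Df f x * Df A w₀) (Df B (f x) * N * Df A w₀))) :
    ∀ᶠ q in 𝓝 ((0 : ℝ), x), 0 < q.1 → LD n (F q.1) q.2 := by
  subst hA
  have hf : ContMDiff (𝓡 n) (𝓡 n) ∞ f := by
    rw [← hF.zero]
    exact hF.smooth 0
  obtain ⟨M, N', hM, hM0, hN, hN0, hD⟩ := hD A w₀ B rfl hAL hB
  have hGc : ContinuousAt (fun p : ℝ × E n => F p.1 (A p.2)) (0, w₀) := by
    have h1 : ContinuousAt (fun p : ℝ × E n => (p.1, A p.2)) (0, w₀) :=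
      continuousAt_fst.prodMk (hAL.continuousAt.comp (x := ((0 : ℝ), w₀)) continuousAt_snd)
    exact (hF.cont.continuousAt (x := (0, A w₀))).comp_of_eq h1 rfl
  have hBe : ∀ᶠ q in 𝓝 ((0 : ℝ), w₀), LD n B (F q.1 (A q.2)) := by
    refine hGc.eventually ?_
    change ∀ᶠ z in 𝓝 (F 0 (A w₀)), LD n B z
    rw [hF.zero]
    exact hB.eventually
  have hAe : ∀ᶠ q in 𝓝 ((0 : ℝ), w₀), LD n A q.2 :=
    (continuousAt_snd (p := ((0 : ℝ), w₀))).eventually hAL.eventually
  have hdf : ContinuousAt (fun q : ℝ × E n => fderiv ℝ (fun w => B (f (A w))) q.2) (0, w₀) :=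
    ContinuousAt.comp (g := fderiv ℝ (fun w => B (f (A w))))
      ((smooth_coord hf hAL hB).fderiv_right (m := 0) (by simp)).continuousAt continuousAt_snd
  -- nonvanishing determinant
  have hdet : ∀ᶠ q in 𝓝 ((0 : ℝ), w₀), 0 < q.1 →
      (fderiv ℝ (fun w => B (F q.1 (A w))) q.2).det ≠ 0 := by
    have hMdet : ∀ᶠ q in 𝓝 ((0 : ℝ), w₀), (M q).det ≠ 0 := by
      have h1 : ContinuousAt (fun q => (M q).det) (0, w₀) :=
        ContinuousLinearMap.continuous_det.continuousAt.comp hM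
      refine h1.eventually_ne ?_
      rw [hM0, det_one]
      exact one_ne_zero
    have hpath : ContinuousAt (fun q : ℝ × E n =>
        fderiv ℝ (fun w => B (f (A w))) q.2 + q.1 • N' q) (0, w₀) :=
      hdf.add (continuousAt_fst.smul hN)
    rcases hpos with h | ⟨h1, h2⟩
    · have h3 : ∀ᶠ q in 𝓝 ((0 : ℝ), w₀),
          (fderiv ℝ (fun w => B (f (A w))) q.2 + q.1 • N' q).det ≠ 0 := by
        have h4 : ContinuousAt (fun q : ℝ × E n =>
            (fderiv ℝ (fun w => B (f (A w))) q.2 + q.1 • N' q).det) (0, w₀) :=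
          ContinuousLinearMap.continuous_det.continuousAt.comp hpath
        refine h4.eventually_ne ?_
        change (fderiv ℝ (fun w => B (f (A w))) w₀ + (0 : ℝ) • N' (0, w₀)).det ≠ 0
        rw [add_zero_smul]
        exact (det_ne_iff hf hAL hB).2 h
      filter_upwards [hD, hMdet, h3] with q a b c _
      rw [a, det_mul']
      exact mul_ne_zero b c
    · rw [← fderiv_coord hf hAL hB] at h2
      have h3 := eventually_det_pos h2
      have h4 : ContinuousAt (fun q : ℝ × E n =>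
          (q.1, fderiv ℝ (fun w => B (f (A w))) q.2, N' q)) (0, w₀) :=
        continuousAt_fst.prodMk (hdf.prodMk hN)
      have h5 := h4.tendsto
      simp only [hN0] at h5
      have h6 : ∀ᶠ q in 𝓝 ((0 : ℝ), w₀), 0 ≤ (fderiv ℝ (fun w => B (f (A w))) q.2).det :=
        (continuousAt_snd (p := ((0 : ℝ), w₀))).eventually h1
      filter_upwards [hD, hMdet, h5.eventually h3, h6] with q a b c d hq
      rw [a, det_mul']
      exact mul_ne_zero b (c hq d).ne'
  have hfin : ∀ᶠ q in 𝓝 ((0 : ℝ), w₀), 0 < q.1 → LD n (F q.1) (A q.2) := by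
    filter_upwards [hdet, hBe, hAe] with q a b c hq
    exact LD_of_det (hF.smooth q.1) c b (a hq)
  obtain ⟨a, ha, haw, ha1, ha2⟩ := hAL.exists_inverse
  have h1 : Tendsto (fun q : ℝ × X => (q.1, a q.2)) (𝓝 (0, A w₀)) (𝓝 ((0 : ℝ), w₀)) := by
    have h2 : ContinuousAt (fun q : ℝ × X => (q.1, a q.2)) (0, A w₀) :=
      continuousAt_fst.prodMk (ha.continuousAt.comp (x := ((0 : ℝ), A w₀)) continuousAt_snd)
    have h3 := h2.tendsto
    simp only [haw] at h3
    exact h3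
  have h2 : ∀ᶠ q in 𝓝 ((0 : ℝ), A w₀), A (a q.2) = q.2 :=
    (continuousAt_snd (p := ((0 : ℝ), A w₀))).eventually ha2
  filter_upwards [h1.eventually hfin, h2] with q b c hq
  rw [← c]
  exact b hq

end general

section refl

variable {m : ℕ}

/-- the reflection -/
def rfl0 : E (m + 1) ≃L[ℝ] E (m + 1) :=
  LinearEquiv.toContinuousLinearEquiv
    { toFun := fun v => cn (-(v 0)) (tl v)
      invFun := fun v => cn (-(v 0)) (tl v)
      map_add' := fun x y => by
        ext i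
        refine Fin.cases ?_ (fun i => ?_) i
        · simp
          ring
        · simp
      map_smul' := fun c x => by
        ext i
        refine Fin.cases ?_ (fun i => ?_) i <;> simp
      left_inv := fun v => by simp
      right_inv := fun v => by simp }

theorem rfl0_apply (v : E (m + 1)) : rfl0 v = cn (-(v 0)) (tl v) := rfl

theorem rfl0_rfl0 (v : E (m + 1)) : rfl0 (rfl0 v) = v := rfl0.left_inv v

theorem rfl0_det : (↑(rfl0 : E (m + 1) ≃L[ℝ] E (m + 1)) : E (m + 1) →L[ℝ] E (m + 1)).det = -1 := by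
  have h := Pool.Agent.Q131.FT.det_cn
    (-((EuclideanSpace.proj 0 : E (m + 1) →L[ℝ] ℝ) : E (m + 1) →ₗ[ℝ] ℝ))
    ((↑(rfl0 : E (m + 1) ≃L[ℝ] E (m + 1)) : E (m + 1) →L[ℝ] E (m + 1)) : E (m + 1) →ₗ[ℝ] E (m + 1)) (fun v => rfl)
  have h2 : (-((EuclideanSpace.proj 0 : E (m + 1) →L[ℝ] ℝ) : E (m + 1) →ₗ[ℝ] ℝ)) e0 = -1 := by
    change -((e0 : E (m + 1)) 0) = -1
    unfold e0
    rw [cn_zero]
  rw [h2] at h
  exact h

variable {X Y : Type} [TopologicalSpace X] [ChartedSpace (E (m + 1)) X]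
  [TopologicalSpace Y] [ChartedSpace (E (m + 1)) Y] [IsManifold (𝓡 (m + 1)) ∞ X]
  [IsManifold (𝓡 (m + 1)) ∞ Y]

/-- orienting a parametrization -/
theorem exists_orient {f : X → Y} {σ : X → ℝ} {A : E (m + 1) → X} {w₀ : E (m + 1)}
    (hA : LD (m + 1) A w₀) (hσ : σ (A w₀) ≠ 0) {B : Y → E (m + 1)}
    (hB : LD (m + 1) B (f (A w₀))) :
    0 < sg f σ A B w₀ ∨ (LD (m + 1) (fun w => A (rfl0 w)) (rfl0 w₀) ∧
      0 < sg f σ (fun w => A (rfl0 w)) B (rfl0 w₀)) := by
  have h0 : sg f σ A B w₀ ≠ 0 := mul_ne_zero (mul_ne_zero hσ (Df_det_ne hA)) (Df_det_ne hB)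
  rcases lt_or_gt_of_ne h0 with h | h
  · right
    have h1 : LD (m + 1) (fun w : E (m + 1) => rfl0 w) (rfl0 w₀) := LD_linear _ _
    have h2 : LD (m + 1) A (rfl0 (rfl0 w₀)) := by rw [rfl0_rfl0]; exact hA
    refine ⟨LD.comp_fun h2 h1, ?_⟩
    have h3 : Df (n := m + 1) (fun w => A (rfl0 w)) (rfl0 w₀) =
        Df A w₀ * (↑(rfl0 : E (m + 1) ≃L[ℝ] E (m + 1)) : E (m + 1) →L[ℝ] E (m + 1)) := by
      rw [Df_comp (LD.mdiff h2) (LD.mdiff h1), rfl0_rfl0, Df_eq_fderiv]
      congr 1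
      exact (rfl0 : E (m + 1) ≃L[ℝ] E (m + 1)).fderiv
    unfold sg at h ⊢
    rw [h3, det_mul', rfl0_det]
    simp only [rfl0_rfl0]
    nlinarith
  · exact Or.inl h

theorem exists_pos {f : X → Y} {σ : X → ℝ} (hσ : ∀ x, σ x ≠ 0) (x : X) {B : Y → E (m + 1)}
    (hB : LD (m + 1) B (f x)) :
    ∃ (A : E (m + 1) → X) (w : E (m + 1)), A w = x ∧ LD (m + 1) A w ∧ 0 < sg f σ A B w := by
  obtain ⟨A, w, rfl, hA⟩ := exists_param (n := m + 1) x
  rcases exists_orient (σ := σ) hA (hσ _) hB with h | ⟨h1, h2⟩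
  · exact ⟨A, w, rfl, hA, h⟩
  · exact ⟨_, _, by rw [rfl0_rfl0], h1, h2⟩

/-- the directions in which the Jacobian increases -/
def QP (f : X → Y) (σ : X → ℝ) (x : X) : Set (E (m + 1) →L[ℝ] E (m + 1)) :=
  {N | LD (m + 1) f x ∨ 0 < σ x * dd (Df (n := m + 1) f x) N}

/-- the directions in which the Jacobian does not decrease -/
def Q0 (f : X → Y) (σ : X → ℝ) (x : X) : Set (E (m + 1) →L[ℝ] E (m + 1)) :=
  {N | LD (m + 1) f x ∨ 0 ≤ σ x * dd (Df (n := m + 1) f x) N}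

theorem loc_QP {f : X → Y} {σ : X → ℝ} (h : Sgn (n := m + 1) f σ) {F : ℝ → X → Y}
    (hF : Fam (n := m + 1) f F) {x : X} {N : E (m + 1) →L[ℝ] E (m + 1)} (hD : IDec f F x N)
    (hN : N ∈ QP f σ x) : ∀ᶠ q in 𝓝 ((0 : ℝ), x), 0 < q.1 → LD (m + 1) (F q.1) q.2 := by
  have hf : ContMDiff (𝓡 (m + 1)) (𝓡 (m + 1)) ∞ f := by
    rw [← hF.zero]
    exact hF.smooth 0
  obtain ⟨B, hB⟩ := exists_chartL (n := m + 1) (f x)
  obtain ⟨A, w, hAx, hA, hs⟩ := exists_pos h.ne x hB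
  subst hAx
  refine hD.loc hF rfl hA hB ?_
  rcases hN with h1 | h1
  · exact Or.inl h1
  · right
    constructor
    · have h2 : ∀ᶠ w' in 𝓝 w, LD (m + 1) B (f (A w')) :=
        (hf.continuous.continuousAt.comp hA.continuousAt).eventually hB.eventually
      filter_upwards [h.cont A B w hA hB hs, hA.eventually, h2] with w' a b c
      exact h.det_nonneg hf b c a
    · rw [mul_assoc, mul_assoc]
      have e1 : ∀ b d a : E (m + 1) →L[ℝ] E (m + 1),
          dd (b * (d * a)) (b * (N * a)) = b.det * (dd d N * a.det) := by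
        intro b d a
        have e2 := dd_comp_left b (d * a) (N * a)
        have e3 := dd_comp_right a d N
        calc _ = b.det * dd (d * a) (N * a) := e2
          _ = _ := by
            congr 1
      rw [e1]
      unfold sg at hs
      obtain ⟨a, ha⟩ : ∃ a, a = (Df (n := m + 1) A w).det := ⟨_, rfl⟩
      obtain ⟨b, hb⟩ : ∃ b, b = (Df (n := m + 1) B (f (A w))).det := ⟨_, rfl⟩
      obtain ⟨d, hd⟩ : ∃ d, d = dd (Df (n := m + 1) f (A w)) N := ⟨_, rfl⟩
      rw [← ha, ← hb] at hs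
      rw [← hd] at h1
      rw [← ha, ← hb, ← hd]
      have h3 := mul_pos hs h1
      have h4 : σ (A w) * a * b * (σ (A w) * d) = (σ (A w)) ^ 2 * (b * (d * a)) := by ring
      rw [h4] at h3
      have h5 : 0 < (σ (A w)) ^ 2 := by
        have := h.ne (A w)
        positivity
      exact (pos_iff_pos_of_mul_pos h3).1 h5

end refl

end Pool.Agent.H73
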