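import Pool.Agent.H73.Fam

/-!
# The basic perturbation
-/

set_option autoImplicit false
set_option linter.unusedSectionVars false

open Set Filter Topology Metric Function
open scoped Manifold ContDiff

noncomputable section

namespace Pool.Agent.H73

open Pool.Agent.Y522

/-- truncation -/
def cl (ε : ℝ) : ℝ := max (-1) (min 1 ε)

theorem cl_abs (ε : ℝ) : |cl ε| ≤ 1 := by
  unfold cl
  rw [abs_le]
  constructor
  · exact le_max_left _ _
  · exact max_le (by norm_num) (min_le_left _ _)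

theorem cl_of {ε : ℝ} (h : |ε| < 1) : cl ε = ε := by
  unfold cl
  rw [abs_lt] at h
  rw [min_eq_right h.2.le, max_eq_right h.1.le]

theorem cl_zero : cl 0 = 0 := cl_of (by simp)

theorem continuous_cl : Continuous cl := by
  unfold cl
  fun_prop

variable {n : ℕ} {X Y : Type} [TopologicalSpace X] [ChartedSpace (E n) X]
  [TopologicalSpace Y] [ChartedSpace (E n) Y]

/-- the data of a perturbation -/
structure PD (n : ℕ) {X Y : Type} [TopologicalSpace X] [ChartedSpace (E n) X]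
    [TopologicalSpace Y] [ChartedSpace (E n) Y]
    (c : Y → E n) (p : E n → Y) (W : Set Y) (u₁ : E n) (ρ : ℝ) (β : E n → ℝ) (V : X → E n) :
    Prop where
  hW : IsOpen W
  hc : ∀ y ∈ W, LD n c y
  hpc : ∀ y ∈ W, p (c y) = y
  hball : ∀ u, ‖u - u₁‖ ≤ 3 * ρ → p u ∈ W ∧ c (p u) = u
  hρ : 0 < ρ
  hβ : ContDiff ℝ ∞ β
  hβ0 : ∀ u, 2 * ρ < ‖u - u₁‖ → β u = 0
  hV : ContMDiff (𝓡 n) (𝓡 n) ∞ V
  hsmall : ∀ u x, ‖β u • V x‖ ≤ ρ

open Classical in
/-- the perturbation -/
def Psi (c : Y → E n) (p : E n → Y) (W : Set Y) (u₁ : E n) (ρ : ℝ) (β : E n → ℝ) (V : X → E n)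
    (e : ℝ) (x : X) (y : Y) : Y :=
  if y ∈ W ∧ ‖c y - u₁‖ ≤ 2 * ρ then p (c y + e • β (c y) • V x) else y

section

variable {c : Y → E n} {p : E n → Y} {W : Set Y} {u₁ : E n} {ρ : ℝ} {β : E n → ℝ} {V : X → E n}

theorem PD.ldp (h : PD n c p W u₁ ρ β V) {y : Y} (hy : y ∈ W) : LD n p (c y) :=
  LD.inverse h.hW h.hc h.hpc hy

theorem PD.good (h : PD n c p W u₁ ρ β V) {e : ℝ} (he : |e| ≤ 1) (x : X) {y : Y} (hy : y ∈ W) :
    p (c y + e • β (c y) • V x) ∈ W ∧
      c (p (c y + e • β (c y) • V x)) = c y + e • β (c y) • V x := by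
  rcases le_or_gt ‖c y - u₁‖ (2 * ρ) with h1 | h1
  · apply h.hball
    have h2 : c y + e • β (c y) • V x - u₁ = (c y - u₁) + e • β (c y) • V x := by abel
    rw [h2]
    refine (norm_add_le _ _).trans ?_
    have h3 : ‖e • β (c y) • V x‖ ≤ ρ := by
      rw [norm_smul, Real.norm_eq_abs]
      calc |e| * ‖β (c y) • V x‖ ≤ 1 * ρ :=
            mul_le_mul he (h.hsmall _ _) (norm_nonneg _) zero_le_one
        _ = ρ := one_mul _
    linarith
  · rw [h.hβ0 _ h1, zero_smul, smul_zero, add_zero, h.hpc y hy]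
    exact ⟨hy, rfl⟩

theorem PD.ldp' (h : PD n c p W u₁ ρ β V) {e : ℝ} (he : |e| ≤ 1) (x : X) {y : Y} (hy : y ∈ W) :
    LD n p (c y + e • β (c y) • V x) := by
  obtain ⟨h1, h2⟩ := h.good he x hy
  have h3 := h.ldp h1
  rwa [h2] at h3

theorem PD.psi_on (h : PD n c p W u₁ ρ β V) (e : ℝ) (x : X) {y : Y} (hy : y ∈ W) :
    Psi c p W u₁ ρ β V e x y = p (c y + e • β (c y) • V x) := by
  unfold Psi
  split_ifs with h1
  · rfl
  · have h2 : 2 * ρ < ‖c y - u₁‖ := by
      by_contra h3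
      exact h1 ⟨hy, not_lt.1 h3⟩
    rw [h.hβ0 _ h2, zero_smul, smul_zero, add_zero, h.hpc y hy]

theorem PD.psi_off (h : PD n c p W u₁ ρ β V) (e : ℝ) (x : X) {y : Y}
    (hy : y ∉ p '' closedBall u₁ (2 * ρ)) : Psi c p W u₁ ρ β V e x y = y := by
  unfold Psi
  rw [if_neg]
  rintro ⟨h1, h2⟩
  exact hy ⟨c y, by rwa [mem_closedBall_iff_norm], h.hpc y h1⟩

theorem PD.subW (h : PD n c p W u₁ ρ β V) : p '' closedBall u₁ (2 * ρ) ⊆ W := by
  rintro _ ⟨u, hu, rfl⟩
  rw [mem_closedBall_iff_norm] at hu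
  exact (h.hball u (by linarith [h.hρ])).1

theorem PD.isCompact (h : PD n c p W u₁ ρ β V) : IsCompact (p '' closedBall u₁ (2 * ρ)) := by
  refine (isCompact_closedBall _ _).image_of_continuousOn fun u hu => ?_
  rw [mem_closedBall_iff_norm] at hu
  obtain ⟨h1, h2⟩ := h.hball u (by linarith [h.hρ])
  have h3 := h.ldp h1
  rw [h2] at h3
  exact h3.continuousAt.continuousWithinAt

theorem PD.psi_zero (h : PD n c p W u₁ ρ β V) (x : X) (y : Y) :
    Psi c p W u₁ ρ β V 0 x y = y := by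
  by_cases hy : y ∈ W
  · rw [h.psi_on 0 x hy, zero_smul, add_zero, h.hpc y hy]
  · exact h.psi_off 0 x fun h1 => hy (h.subW h1)

theorem PD.psi_V (h : PD n c p W u₁ ρ β V) (e : ℝ) {x : X} (hx : V x = 0) (y : Y) :
    Psi c p W u₁ ρ β V e x y = y := by
  by_cases hy : y ∈ W
  · rw [h.psi_on e x hy, hx, smul_zero, smul_zero, add_zero, h.hpc y hy]
  · exact h.psi_off e x fun h1 => hy (h.subW h1)

/-- the perturbed family -/
def pert (c : Y → E n) (p : E n → Y) (W : Set Y) (u₁ : E n) (ρ : ℝ) (β : E n → ℝ) (V : X → E n)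
    (G : ℝ → X → Y) (ε : ℝ) (x : X) : Y := Psi c p W u₁ ρ β V (cl ε) x (G ε x)

theorem PD.fam [T2Space Y] (h : PD n c p W u₁ ρ β V) {f : X → Y} {G : ℝ → X → Y}
    (hG : Fam (n := n) f G) : Fam (n := n) f (pert c p W u₁ ρ β V G) := by
  have hK : IsClosed (p '' closedBall u₁ (2 * ρ)) := h.isCompact.isClosed
  refine ⟨?_, ?_, ?_⟩
  · funext x
    unfold pert
    rw [cl_zero, h.psi_zero, hG.zero]
  · intro ε x
    have hGx : ContMDiffAt (𝓡 n) (𝓡 n) ∞ (G ε) x := hG.smooth ε x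
    by_cases hx : G ε x ∈ W
    · have h1 : ∀ᶠ x' in 𝓝 x, pert c p W u₁ ρ β V G ε x' =
          p (c (G ε x') + cl ε • β (c (G ε x')) • V x') := by
        filter_upwards [hGx.continuousAt (h.hW.mem_nhds hx)] with x' hx'
        exact h.psi_on _ _ hx'
      refine ContMDiffAt.congr_of_eventuallyEq ?_ h1
      have h2 : ContMDiffAt (𝓡 n) (𝓡 n) ∞ (fun x' => c (G ε x')) x :=
        (h.hc _ hx).contMDiffAt.comp x hGx
      have h3 : ContMDiffAt (𝓡 n) 𝓘(ℝ, ℝ) ∞ (fun x' => β (c (G ε x'))) x :=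
        h.hβ.contMDiff.contMDiffAt.comp x h2
      have h4 : ContMDiffAt (𝓡 n) (𝓡 n) ∞ (fun x' => c (G ε x') + cl ε • β (c (G ε x')) • V x')
          x := by
        have h5 : ContMDiffAt (𝓡 n) (𝓡 n) ∞ (fun x' => β (c (G ε x')) • V x') x :=
          h3.smul (h.hV x)
        have h6 : ContMDiffAt (𝓡 n) (𝓡 n) ∞ (fun x' => cl ε • β (c (G ε x')) • V x') x :=
          (contMDiffAt_const (I' := 𝓘(ℝ, ℝ)) (c := cl ε)).smul h5
        exact h2.add h6
      exact (h.ldp' (cl_abs ε) x hx).contMDiffAt.comp x h4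
    · have hx' : G ε x ∉ p '' closedBall u₁ (2 * ρ) := fun h1 => hx (h.subW h1)
      have h1 : ∀ᶠ x' in 𝓝 x, pert c p W u₁ ρ β V G ε x' = G ε x' := by
        filter_upwards [hGx.continuousAt (hK.isOpen_compl.mem_nhds hx')] with x' hx'
        exact h.psi_off _ _ hx'
      exact hGx.congr_of_eventuallyEq h1
  · rw [continuous_iff_continuousAt]
    intro q
    have hGq : ContinuousAt (fun q : ℝ × X => G q.1 q.2) q := hG.cont.continuousAt
    by_cases hx : G q.1 q.2 ∈ W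
    · have h1 : ∀ᶠ q' in 𝓝 q, pert c p W u₁ ρ β V G q'.1 q'.2 =
          p (c (G q'.1 q'.2) + cl q'.1 • β (c (G q'.1 q'.2)) • V q'.2) := by
        filter_upwards [hGq (h.hW.mem_nhds hx)] with x' hx'
        exact h.psi_on _ _ hx'
      refine ContinuousAt.congr_of_eventuallyEq ?_ h1
      have h2 : ContinuousAt (fun q' : ℝ × X => c (G q'.1 q'.2)) q :=
        (h.hc _ hx).continuousAt.comp_of_eq hGq rfl
      have h3 : ContinuousAt (fun q' : ℝ × X => β (c (G q'.1 q'.2))) q :=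
        h.hβ.continuous.continuousAt.comp h2
      have h4 : ContinuousAt (fun q' : ℝ × X =>
          c (G q'.1 q'.2) + cl q'.1 • β (c (G q'.1 q'.2)) • V q'.2) q :=
        h2.add ((continuous_cl.continuousAt.comp continuousAt_fst).smul
          (h3.smul (h.hV.continuous.continuousAt.comp continuousAt_snd)))
      exact (h.ldp' (cl_abs q.1) q.2 hx).continuousAt.comp_of_eq h4 rfl
    · have hx' : G q.1 q.2 ∉ p '' closedBall u₁ (2 * ρ) := fun h1 => hx (h.subW h1)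
      have h1 : ∀ᶠ q' in 𝓝 q, pert c p W u₁ ρ β V G q'.1 q'.2 = G q'.1 q'.2 := by
        filter_upwards [hGq (hK.isOpen_compl.mem_nhds hx')] with x' hx'
        exact h.psi_off _ _ hx'
      exact hGq.congr_of_eventuallyEq h1

/-- the perturbed family at the points outside the support -/
theorem PD.dec_off [T2Space Y] (h : PD n c p W u₁ ρ β V) {f : X → Y} {G : ℝ → X → Y}
    (hG : Fam (n := n) f G) {A : E n → X} {w₀ : E n} (hA : LD n A w₀) {B : Y → E n}
    {N₀ : E n →L[ℝ] E n} (hx : f (A w₀) ∉ p '' closedBall u₁ (2 * ρ))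
    (hD : Dec f G A w₀ B N₀) : Dec f (pert c p W u₁ ρ β V G) A w₀ B N₀ := by
  obtain ⟨M, N, hM, hM0, hN, hN0, hD⟩ := hD
  refine ⟨M, N, hM, hM0, hN, hN0, ?_⟩
  have hK : IsClosed (p '' closedBall u₁ (2 * ρ)) := h.isCompact.isClosed
  have hGc : ContinuousAt (fun p : ℝ × E n => G p.1 (A p.2)) (0, w₀) := by
    have h1 : ContinuousAt (fun p : ℝ × E n => (p.1, A p.2)) (0, w₀) :=
      continuousAt_fst.prodMk (hA.continuousAt.comp (x := ((0 : ℝ), w₀)) continuousAt_snd)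
    exact (hG.cont.continuousAt (x := (0, A w₀))).comp_of_eq h1 rfl
  have h1 : ∀ᶠ q in 𝓝 ((0 : ℝ), w₀), G q.1 (A q.2) ∉ p '' closedBall u₁ (2 * ρ) := by
    refine hGc.eventually (hK.isOpen_compl.mem_nhds ?_)
    change G 0 (A w₀) ∉ _
    rwa [hG.zero]
  have h2 : ∀ᶠ q in 𝓝 ((0 : ℝ), w₀), ContinuousAt (fun w => G q.1 (A w)) q.2 := by
    filter_upwards [(continuousAt_snd (p := ((0 : ℝ), w₀))).eventually hA.eventually] with q hq
    exact (hG.smooth q.1).continuous.continuousAt.comp hq.continuousAt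
  filter_upwards [hD, h1, h2] with q hq h3 h4
  rw [← hq]
  refine Filter.EventuallyEq.fderiv_eq ?_
  filter_upwards [h4 (hK.isOpen_compl.mem_nhds h3)] with w hw
  change B (Psi c p W u₁ ρ β V (cl q.1) (A w) (G q.1 (A w))) = _
  rw [h.psi_off _ _ hw]

/-- the perturbed family at the points of the support -/
theorem PD.dec_on (h : PD n c p W u₁ ρ β V) {f : X → Y} {G : ℝ → X → Y}
    (hG : Fam (n := n) f G) {A : E n → X} {w₀ : E n} (hA : LD n A w₀)
    {N₀ : E n →L[ℝ] E n} (hx : f (A w₀) ∈ W)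
    (hD : Dec f G A w₀ c N₀) : Dec f (pert c p W u₁ ρ β V G) A w₀ c
      (N₀ + β (c (f (A w₀))) • fderiv ℝ (fun w => V (A w)) w₀) := by
  obtain ⟨M, N, hM, hM0, hN, hN0, hD⟩ := hD
  have hGc : ContinuousAt (fun p : ℝ × E n => G p.1 (A p.2)) (0, w₀) := by
    have h1 : ContinuousAt (fun p : ℝ × E n => (p.1, A p.2)) (0, w₀) :=
      continuousAt_fst.prodMk (hA.continuousAt.comp (x := ((0 : ℝ), w₀)) continuousAt_snd)
    exact (hG.cont.continuousAt (x := (0, A w₀))).comp_of_eq h1 rfl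
  have hG0 : G 0 (A w₀) = f (A w₀) := by rw [hG.zero]
  have hcx : LD n c (G 0 (A w₀)) := by rw [hG0]; exact h.hc _ hx
  have hcG : ContinuousAt (fun q : ℝ × E n => c (G q.1 (A q.2))) (0, w₀) :=
    hcx.continuousAt.comp_of_eq hGc rfl
  have hVA : ContDiffAt ℝ ∞ (fun w => V (A w)) w₀ :=
    contMDiffAt_iff_contDiffAt.1 ((h.hV (A w₀)).comp w₀ hA.contMDiffAt)
  have hVc : ContinuousAt (fun q : ℝ × E n => V (A q.2)) (0, w₀) :=
    ContinuousAt.comp (g := fun w => V (A w)) (f := fun q : ℝ × E n => q.2)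
      hVA.continuousAt continuousAt_snd
  have hDV : ContinuousAt (fun q : ℝ × E n => fderiv ℝ (fun w => V (A w)) q.2) (0, w₀) :=
    ContinuousAt.comp (g := fderiv ℝ (fun w => V (A w)))
      (hVA.fderiv_right (m := 0) (by simp)).continuousAt continuousAt_snd
  -- the new factor
  obtain ⟨M', hM'⟩ : ∃ M' : ℝ × E n → (E n →L[ℝ] E n), M' = fun q =>
      (1 + q.1 • (fderiv ℝ β (c (G q.1 (A q.2)))).smulRight (V (A q.2))) * M q := ⟨_, rfl⟩
  have hM'c : ContinuousAt M' (0, w₀) := by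
    rw [hM']
    have h1 : ContinuousAt (fun q : ℝ × E n => fderiv ℝ β (c (G q.1 (A q.2)))) (0, w₀) :=
      (h.hβ.continuous_fderiv (by simp)).continuousAt.comp hcG
    have h2 : ContinuousAt (fun q : ℝ × E n =>
        (fderiv ℝ β (c (G q.1 (A q.2)))).smulRight (V (A q.2))) (0, w₀) := by
      have h3 : Continuous fun r : (E n →L[ℝ] ℝ) × E n => r.1.smulRight r.2 := by
        have h4 := (ContinuousLinearMap.smulRightL ℝ (E n) (E n)).continuous₂
        exact h4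
      exact h3.continuousAt.comp (f := fun q : ℝ × E n =>
        (fderiv ℝ β (c (G q.1 (A q.2))), V (A q.2))) (h1.prodMk hVc)
    exact (continuousAt_const.add (continuousAt_fst.smul h2)).mul hM
  have hM'0 : M' (0, w₀) = 1 := by
    rw [hM']
    ext v
    simp [hM0]
  have hunit : ∀ᶠ q in 𝓝 ((0 : ℝ), w₀), IsUnit (M' q) := by
    refine hM'c.eventually ?_
    rw [hM'0]
    exact Units.isOpen.mem_nhds isUnit_one
  have hinv : ContinuousAt (fun q => Ring.inverse (M' q)) (0, w₀) := by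
    have h1 := NormedRing.inverse_continuousAt (1 : (E n →L[ℝ] E n)ˣ)
    rw [Units.val_one, ← hM'0] at h1
    exact h1.comp hM'c
  refine ⟨M', fun q => N q + β (c (G q.1 (A q.2))) • (Ring.inverse (M' q) *
    fderiv ℝ (fun w => V (A w)) q.2), hM'c, hM'0, ?_, ?_, ?_⟩
  · have h1 : ContinuousAt (fun q : ℝ × E n => β (c (G q.1 (A q.2)))) (0, w₀) :=
      h.hβ.continuous.continuousAt.comp hcG
    exact hN.add (h1.smul (hinv.mul hDV))
  · change N (0, w₀) + β (c (G 0 (A w₀))) • (Ring.inverse (M' (0, w₀)) *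
      fderiv ℝ (fun w => V (A w)) w₀) = _
    rw [hN0, hM'0, Ring.inverse_one, one_mul, hG0]
  · have hWe : ∀ᶠ q in 𝓝 ((0 : ℝ), w₀), G q.1 (A q.2) ∈ W := by
      refine hGc.eventually (h.hW.mem_nhds ?_)
      change G 0 (A w₀) ∈ W
      rwa [hG0]
    have hAe : ∀ᶠ q in 𝓝 ((0 : ℝ), w₀), LD n A q.2 :=
      (continuousAt_snd (p := ((0 : ℝ), w₀))).eventually hA.eventually
    have hεe : ∀ᶠ q in 𝓝 ((0 : ℝ), w₀), |q.1| < 1 := by
      have h1 : ContinuousAt (fun q : ℝ × E n => |q.1|) (0, w₀) := continuousAt_fst.abs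
      exact h1.eventually (gt_mem_nhds (by simp))
    filter_upwards [hD, hunit, hWe, hAe, hεe] with q hq hu hGW hAq hεq
    have hgs : ContMDiffAt (𝓡 n) (𝓡 n) ∞ (fun w => c (G q.1 (A w))) q.2 :=
      (h.hc _ hGW).contMDiffAt.comp q.2 ((hG.smooth q.1 _).comp q.2 hAq.contMDiffAt)
    have hgd : HasFDerivAt (fun w => c (G q.1 (A w))) (fderiv ℝ (fun w => c (G q.1 (A w))) q.2)
        q.2 := ((contMDiffAt_iff_contDiffAt.1 hgs).differentiableAt (by simp)).hasFDerivAt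
    have hVd : HasFDerivAt (fun w => V (A w)) (fderiv ℝ (fun w => V (A w)) q.2) q.2 :=
      ((contMDiffAt_iff_contDiffAt.1 ((h.hV _).comp q.2 hAq.contMDiffAt)).differentiableAt
        (by simp)).hasFDerivAt
    obtain ⟨g', hg'⟩ : ∃ g', g' = fderiv ℝ (fun w => c (G q.1 (A w))) q.2 := ⟨_, rfl⟩
    obtain ⟨v', hv'⟩ : ∃ v', v' = fderiv ℝ (fun w => V (A w)) q.2 := ⟨_, rfl⟩
    rw [← hg'] at hgd
    rw [← hv'] at hVd
    have hβd : HasFDerivAt (fun w => β (c (G q.1 (A w))))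
        ((fderiv ℝ β (c (G q.1 (A q.2)))).comp g') q.2 :=
      HasFDerivAt.comp (g := β) q.2
        (h.hβ.differentiable (by simp) _).hasFDerivAt hgd
    have hsum : HasFDerivAt (fun w => c (G q.1 (A w)) + q.1 • β (c (G q.1 (A w))) • V (A w))
        (g' + q.1 • (β (c (G q.1 (A q.2))) • v' +
          ((fderiv ℝ β (c (G q.1 (A q.2)))).comp g').smulRight (V (A q.2)))) q.2 :=
      hgd.add ((hβd.smul hVd).const_smul q.1)
    have hcont : ContinuousAt (fun w => G q.1 (A w)) q.2 :=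
      (hG.smooth q.1).continuous.continuousAt.comp hAq.continuousAt
    have heq : (fun w => c (pert c p W u₁ ρ β V G q.1 (A w))) =ᶠ[𝓝 q.2]
        fun w => c (G q.1 (A w)) + q.1 • β (c (G q.1 (A w))) • V (A w) := by
      filter_upwards [hcont (h.hW.mem_nhds hGW)] with w hw
      change c (Psi c p W u₁ ρ β V (cl q.1) (A w) (G q.1 (A w))) = _
      rw [cl_of hεq, h.psi_on _ _ hw, (h.good hεq.le _ hw).2]
    rw [heq.fderiv_eq, hsum.fderiv]
    have h5 : g' = M q * (fderiv ℝ (fun w => c (f (A w))) q.2 + q.1 • N q) := by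
      rw [hg', hq]
    have h6 : M' q * (fderiv ℝ (fun w => c (f (A w))) q.2 + q.1 • (N q +
        β (c (G q.1 (A q.2))) • (Ring.inverse (M' q) * v'))) =
        M' q * (fderiv ℝ (fun w => c (f (A w))) q.2 + q.1 • N q) +
          q.1 • β (c (G q.1 (A q.2))) • (M' q * Ring.inverse (M' q)) * v' := by
      ext1 v
      simp [smul_smul]
      abel
    rw [← hv', h6, Ring.mul_inverse_cancel _ hu]
    have h7 : M' q = (1 + q.1 • (fderiv ℝ β (c (G q.1 (A q.2)))).smulRight (V (A q.2))) * M q := by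
      rw [hM']
    rw [h7, mul_assoc, ← h5]
    ext1 v
    simp
    module

end

end Pool.Agent.H73
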